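import Mathlib

/-!
# Factorial moments determine the Poisson distribution, a finite form (helper933)
-/

set_option autoImplicit false

namespace Pool.Agent.Y933.KF

open Finset Real MeasureTheory Filter Topology ProbabilityTheory
open scoped NNReal Nat

lemma exp_rem (x : ℝ) (n : ℕ) :
    |exp x - ∑ m ∈ range n, x ^ m / (m ! : ℝ)| ≤ |x| ^ n / (n ! : ℝ) * exp |x| := by
  have h1 : ∀ y : ℝ, HasSum (fun m : ℕ => y ^ m / (m ! : ℝ)) (exp y) := by
    intro y
    have := NormedSpace.expSeries_div_hasSum_exp (y : ℝ)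
    rwa [← Real.exp_eq_exp_ℝ] at this
  have h2 : HasSum (fun m : ℕ => x ^ (m + n) / ((m + n)! : ℝ))
      (exp x - ∑ m ∈ range n, x ^ m / (m ! : ℝ)) := (hasSum_nat_add_iff' n).2 (h1 x)
  have h3 : HasSum (fun m : ℕ => |x| ^ n / (n ! : ℝ) * (|x| ^ m / (m ! : ℝ)))
      (|x| ^ n / (n ! : ℝ) * exp |x|) := (h1 |x|).mul_left _
  have h4 : ∀ m : ℕ, ‖x ^ (m + n) / ((m + n)! : ℝ)‖ ≤ |x| ^ n / (n ! : ℝ) * (|x| ^ m / (m ! : ℝ)) := by
    intro m
    rw [norm_div, norm_pow, Real.norm_eq_abs, Real.norm_natCast, div_mul_div_comm, ← pow_add,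
      add_comm n m]
    have h5 : (n ! : ℝ) * (m ! : ℝ) ≤ ((m + n)! : ℝ) := by
      have := Nat.factorial_mul_factorial_dvd_factorial_add m n
      have h6 := Nat.le_of_dvd (Nat.factorial_pos _) this
      have h7 : ((m ! * n ! : ℕ) : ℝ) ≤ ((m + n)! : ℝ) := by exact_mod_cast h6
      push_cast at h7
      linarith
    have h8 : (0 : ℝ) < (n ! : ℝ) * (m ! : ℝ) := by positivity
    gcongr
  rw [← h2.tsum_eq, ← Real.norm_eq_abs, ← h3.tsum_eq]
  exact tsum_of_norm_bounded h3 h4 |>.trans (le_of_eq h3.tsum_eq.symm)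

/-- the Bonferroni inequalities -/
lemma bonf (n j I : ℕ) :
    |(if n = j then (1 : ℝ) else 0) -
      ∑ i ∈ range (I + 1), (-1 : ℝ) ^ i * (((j + i).choose j : ℝ) * (n.choose (j + i) : ℝ))| ≤
      ((j + I + 1).choose j : ℝ) * (n.choose (j + I + 1) : ℝ) := by
  rcases lt_trichotomy n j with h | h | h
  · rw [if_neg h.ne]
    have h1 : ∀ i ∈ range (I + 1), (-1 : ℝ) ^ i * (((j + i).choose j : ℝ) *
        (n.choose (j + i) : ℝ)) = 0 := by
      intro i _
      rw [Nat.choose_eq_zero_of_lt (show n < j + i by omega)]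
      simp
    rw [sum_eq_zero h1]
    simp only [sub_zero, abs_zero]
    positivity
  · subst h
    rw [if_pos rfl, sum_range_succ']
    have h1 : ∀ i ∈ range I, (-1 : ℝ) ^ (i + 1) * (((n + (i + 1)).choose n : ℝ) *
        (n.choose (n + (i + 1)) : ℝ)) = 0 := by
      intro i _
      rw [Nat.choose_eq_zero_of_lt (show n < n + (i + 1) by omega)]
      simp
    rw [sum_eq_zero h1]
    simp only [pow_zero, add_zero, Nat.choose_self, Nat.cast_one, mul_one, zero_add, sub_self,
      abs_zero]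
    positivity
  · rw [if_neg h.ne']
    obtain ⟨m, rfl⟩ : ∃ m, n = j + (m + 1) := ⟨n - j - 1, by omega⟩
    have h1 : ∀ i : ℕ, ((j + i).choose j : ℝ) * ((j + (m + 1)).choose (j + i) : ℝ) =
        ((j + (m + 1)).choose j : ℝ) * ((m + 1).choose i : ℝ) := by
      intro i
      by_cases hi : i ≤ m + 1
      · have := Nat.choose_mul (n := j + (m + 1)) (k := j + i) (s := j) (by omega)
        have h2 : j + (m + 1) - j = m + 1 := by omega
        have h3 : j + i - j = i := by omega
        rw [h2, h3] at this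
        have h4 : (((j + (m + 1)).choose (j + i) * (j + i).choose j : ℕ) : ℝ) =
            (((j + (m + 1)).choose j * (m + 1).choose i : ℕ) : ℝ) := by rw [this]
        push_cast at h4
        rw [mul_comm]
        exact_mod_cast h4
      · push Not at hi
        rw [Nat.choose_eq_zero_of_lt (show j + (m + 1) < j + i by omega),
          Nat.choose_eq_zero_of_lt (show m + 1 < i by omega)]
        simp
    simp only [h1, show j + I + 1 = j + (I + 1) by ring]
    have h2 : ∑ i ∈ range (I + 1), (-1 : ℝ) ^ i * (((j + (m + 1)).choose j : ℝ) *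
        ((m + 1).choose i : ℝ)) = ((j + (m + 1)).choose j : ℝ) * ((-1) ^ I * (m.choose I : ℝ)) := by
      have h3 := Int.alternating_sum_range_choose_eq_choose (n := m) (m := I)
      have h4 : (∑ i ∈ range (I + 1), (-1 : ℝ) ^ i * ((m + 1).choose i : ℝ)) =
          (-1) ^ I * (m.choose I : ℝ) := by exact_mod_cast h3
      rw [← h4, mul_sum]
      refine sum_congr rfl fun i _ => ?_
      ring
    rw [h2, zero_sub, abs_neg, abs_mul, abs_mul, abs_pow, abs_neg, abs_one, one_pow, one_mul,
      Nat.abs_cast, Nat.abs_cast]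
    gcongr
    rw [Nat.choose_succ_succ]
    omega

/-- the factorial moments determine the distribution up to a small error -/
theorem determination {Λ ε : ℝ} (hΛ : 0 ≤ Λ) (hε : 0 < ε) : ∃ R : ℕ, ∃ η : ℝ, 0 < η ∧
    ∀ (lam : ℝ≥0), (lam : ℝ) ≤ Λ → ∀ W : ℕ, 1 ≤ W → ∀ X : ℕ → ℕ,
      (∀ r < R, |(∑ w ∈ range W, ((X w).choose r : ℝ)) / W - (lam : ℝ) ^ r / (r ! : ℝ)| ≤ η) →
      ∀ (J : Set ℕ) [DecidablePred fun w => X w ∈ J],
        |(((range W).filter (fun w => X w ∈ J)).card : ℝ) / W - (poissonMeasure lam).real J| ≤ ε := by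
  classical
  -- the remainder
  have hT : Tendsto (fun n : ℕ => Λ ^ n / (n ! : ℝ) * exp Λ) atTop (𝓝 0) := by
    have := (FloorSemiring.tendsto_pow_div_factorial_atTop Λ).mul_const (exp Λ)
    rwa [zero_mul] at this
  obtain ⟨J0, hJ0⟩ := ((tendsto_add_atTop_iff_nat 1).2 hT).eventually_le_const
    (show (0 : ℝ) < ε / 8 by positivity) |>.exists
  have hE0 : 0 < exp Λ := exp_pos _
  obtain ⟨I, hI⟩ := ((tendsto_add_atTop_iff_nat 1).2 hT).eventually_le_const
    (show (0 : ℝ) < ε / (8 * (J0 + 1) * (2 * exp Λ)) by positivity) |>.exists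
  set T1 : ℝ := Λ ^ (J0 + 1) / ((J0 + 1)! : ℝ) * exp Λ with hT1
  set T2 : ℝ := Λ ^ (I + 1) / ((I + 1)! : ℝ) * exp Λ with hT2
  have hT10 : 0 ≤ T1 := by positivity
  have hT20 : 0 ≤ T2 := by positivity
  set K : ℝ := ∑ j ∈ range (J0 + 1), ∑ i ∈ range (I + 2), ((j + i).choose j : ℝ) with hK
  have hK0 : 0 ≤ K := sum_nonneg fun _ _ => sum_nonneg fun _ _ => Nat.cast_nonneg _
  set η : ℝ := ε / (8 * (K + 1)) with hη
  have hη0 : 0 < η := by positivity
  refine ⟨J0 + I + 2, η, hη0, fun lam hlam W hW X hX J _ => ?_⟩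
  have hW0 : (0 : ℝ) < W := by exact_mod_cast hW
  set l : ℝ := (lam : ℝ) with hl
  have hl0 : 0 ≤ l := lam.2
  -- the proportions
  set Z : ℕ → ℝ := fun j => (∑ w ∈ range W, if X w = j then (1 : ℝ) else 0) / W with hZ
  set p : ℕ → ℝ := fun j => exp (-l) * l ^ j / (j ! : ℝ) with hp
  have hZ0 : ∀ j, 0 ≤ Z j := fun j => by
    rw [hZ]
    refine div_nonneg (sum_nonneg fun w _ => ?_) hW0.le
    split_ifs <;> norm_num
  have hp0 : ∀ j, 0 ≤ p j := fun j => by rw [hp]; positivity
  have hexpl : exp l ≤ exp Λ := exp_le_exp.2 hlam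
  -- one value
  have hone : ∀ j < J0 + 1, |Z j - p j| ≤
      (∑ i ∈ range (I + 2), ((j + i).choose j : ℝ)) * η + 2 * exp Λ * T2 := by
    intro j hj
    set S : ℝ := ∑ i ∈ range (I + 1), (-1 : ℝ) ^ i * (((j + i).choose j : ℝ) *
      ((∑ w ∈ range W, ((X w).choose (j + i) : ℝ)) / W)) with hS
    set S' : ℝ := ∑ i ∈ range (I + 1), (-1 : ℝ) ^ i * (((j + i).choose j : ℝ) *
      (l ^ (j + i) / ((j + i)! : ℝ))) with hS'
    have haj : l ^ j / (j ! : ℝ) ≤ exp Λ := by
      refine le_trans ?_ hexpl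
      exact Real.pow_div_factorial_le_exp l hl0 j
    have haj0 : 0 ≤ l ^ j / (j ! : ℝ) := by positivity
    have hchoose : ∀ i : ℕ, ((j + i).choose j : ℝ) * (l ^ (j + i) / ((j + i)! : ℝ)) =
        l ^ j / (j ! : ℝ) * (l ^ i / (i ! : ℝ)) := by
      intro i
      have h1 := Nat.add_choose_mul_factorial_mul_factorial j i
      rw [← Nat.choose_symm_add] at h1
      have h2 : ((j + i).choose j : ℝ) * (j ! : ℝ) * (i ! : ℝ) = ((j + i)! : ℝ) := by
        exact_mod_cast h1
      have h3 : ((j + i)! : ℝ) ≠ 0 := by positivity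
      have h4 : (j ! : ℝ) ≠ 0 := by positivity
      have h5 : (i ! : ℝ) ≠ 0 := by positivity
      rw [pow_add]
      rw [mul_div_assoc', div_mul_div_comm, div_eq_div_iff h3 (mul_ne_zero h4 h5), ← h2]
      ring
    -- first
    have h1 : |Z j - S| ≤ ((j + (I + 1)).choose j : ℝ) *
        ((∑ w ∈ range W, ((X w).choose (j + (I + 1)) : ℝ)) / W) := by
      have h2 : Z j - S = (∑ w ∈ range W, ((if X w = j then (1 : ℝ) else 0) -
          ∑ i ∈ range (I + 1), (-1 : ℝ) ^ i * (((j + i).choose j : ℝ) *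
            ((X w).choose (j + i) : ℝ)))) / W := by
        rw [hZ, hS, sum_sub_distrib, sub_div]
        congr 1
        rw [sum_comm, sum_div]
        refine sum_congr rfl fun i _ => ?_
        rw [← mul_sum, ← mul_sum]
        ring
      rw [h2, abs_div, abs_of_pos hW0, mul_div_assoc', div_le_div_iff_of_pos_right hW0, mul_sum]
      refine (abs_sum_le_sum_abs _ _).trans (sum_le_sum fun w _ => ?_)
      exact bonf (X w) j I
    have h2 : (∑ w ∈ range W, ((X w).choose (j + (I + 1)) : ℝ)) / W ≤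
        l ^ (j + (I + 1)) / ((j + (I + 1))! : ℝ) + η := by
      have := (abs_le.1 (hX (j + (I + 1)) (by omega))).2
      linarith
    have h3 : ((j + (I + 1)).choose j : ℝ) * ((∑ w ∈ range W, ((X w).choose (j + (I + 1)) : ℝ)) / W) ≤
        exp Λ * T2 + ((j + (I + 1)).choose j : ℝ) * η := by
      calc ((j + (I + 1)).choose j : ℝ) * ((∑ w ∈ range W, ((X w).choose (j + (I + 1)) : ℝ)) / W)
          ≤ ((j + (I + 1)).choose j : ℝ) * (l ^ (j + (I + 1)) / ((j + (I + 1))! : ℝ) + η) := by
            gcongr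
        _ = l ^ j / (j ! : ℝ) * (l ^ (I + 1) / ((I + 1)! : ℝ)) +
            ((j + (I + 1)).choose j : ℝ) * η := by rw [mul_add, hchoose]
        _ ≤ exp Λ * T2 + ((j + (I + 1)).choose j : ℝ) * η := by
            gcongr
            rw [hT2]
            calc l ^ (I + 1) / ((I + 1)! : ℝ) ≤ Λ ^ (I + 1) / ((I + 1)! : ℝ) := by gcongr
              _ = Λ ^ (I + 1) / ((I + 1)! : ℝ) * 1 := (mul_one _).symm
              _ ≤ Λ ^ (I + 1) / ((I + 1)! : ℝ) * exp Λ := by
                  gcongr
                  exact Real.one_le_exp hΛ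
    -- second
    have h4 : |S - S'| ≤ ∑ i ∈ range (I + 1), ((j + i).choose j : ℝ) * η := by
      rw [hS, hS', ← sum_sub_distrib]
      refine (abs_sum_le_sum_abs _ _).trans (sum_le_sum fun i hi => ?_)
      rw [mem_range] at hi
      rw [← mul_sub, ← mul_sub, abs_mul, abs_mul, abs_pow, abs_neg, abs_one, one_pow, one_mul,
        Nat.abs_cast]
      exact mul_le_mul_of_nonneg_left (hX (j + i) (by omega)) (Nat.cast_nonneg _)
    -- third
    have h5 : |S' - p j| ≤ exp Λ * T2 := by
      have h6 : S' = l ^ j / (j ! : ℝ) * ∑ i ∈ range (I + 1), (-l) ^ i / (i ! : ℝ) := by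
        rw [hS', mul_sum]
        refine sum_congr rfl fun i _ => ?_
        rw [hchoose, neg_pow l i]
        ring
      have h7 : p j = l ^ j / (j ! : ℝ) * exp (-l) := by rw [hp]; ring
      rw [h6, h7, ← mul_sub, abs_mul, abs_of_nonneg haj0, abs_sub_comm]
      refine mul_le_mul haj ?_ (abs_nonneg _) hE0.le
      refine (exp_rem (-l) (I + 1)).trans ?_
      rw [abs_neg, abs_of_nonneg hl0, hT2]
      gcongr
    calc |Z j - p j| ≤ |Z j - S| + |S - S'| + |S' - p j| := by
          have := abs_sub_le (Z j) S (p j)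
          have h8 := abs_sub_le S S' (p j)
          linarith
      _ ≤ (exp Λ * T2 + ((j + (I + 1)).choose j : ℝ) * η) +
          (∑ i ∈ range (I + 1), ((j + i).choose j : ℝ) * η) + exp Λ * T2 := by
          gcongr
          exact h1.trans h3
      _ = (∑ i ∈ range (I + 2), ((j + i).choose j : ℝ)) * η + 2 * exp Λ * T2 := by
          rw [sum_range_succ _ (I + 1), ← sum_mul]
          ring
  -- the sum over the first values
  have hsum : ∑ j ∈ range (J0 + 1), |Z j - p j| ≤ ε / 4 := by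
    calc ∑ j ∈ range (J0 + 1), |Z j - p j| ≤ ∑ j ∈ range (J0 + 1),
          ((∑ i ∈ range (I + 2), ((j + i).choose j : ℝ)) * η + 2 * exp Λ * T2) :=
          sum_le_sum fun j hj => hone j (mem_range.1 hj)
      _ = K * η + (J0 + 1) * (2 * exp Λ * T2) := by
          rw [sum_add_distrib, ← sum_mul, sum_const, card_range, nsmul_eq_mul]
          push_cast
          rfl
      _ ≤ ε / 8 + ε / 8 := by
          gcongr
          · rw [hη, mul_div_assoc', div_le_div_iff₀ (by positivity) (by norm_num)]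
            nlinarith
          · have h1 : T2 ≤ ε / (8 * (J0 + 1) * (2 * exp Λ)) := hI
            calc ((J0 : ℝ) + 1) * (2 * exp Λ * T2) ≤
                ((J0 : ℝ) + 1) * (2 * exp Λ * (ε / (8 * (J0 + 1) * (2 * exp Λ)))) := by gcongr
              _ = ε / 8 := by field_simp
      _ = ε / 4 := by ring
  have hpsum : 1 - ∑ j ∈ range (J0 + 1), p j ≤ ε / 8 := by
    have h1 := exp_rem l (J0 + 1)
    have h2 : ∑ j ∈ range (J0 + 1), p j = exp (-l) * ∑ j ∈ range (J0 + 1), l ^ j / (j ! : ℝ) := by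
      rw [mul_sum]
      refine sum_congr rfl fun j _ => ?_
      rw [hp]
      ring
    have h3 : exp (-l) * exp l = 1 := by rw [← Real.exp_add]; simp
    have h4 : 1 - ∑ j ∈ range (J0 + 1), p j =
        exp (-l) * (exp l - ∑ j ∈ range (J0 + 1), l ^ j / (j ! : ℝ)) := by
      rw [h2, mul_sub, h3]
    rw [h4]
    have h5 : exp (-l) ≤ 1 := Real.exp_le_one_iff.2 (by linarith)
    calc exp (-l) * (exp l - ∑ j ∈ range (J0 + 1), l ^ j / (j ! : ℝ))
        ≤ exp (-l) * |exp l - ∑ j ∈ range (J0 + 1), l ^ j / (j ! : ℝ)| := by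
          gcongr
          exact le_abs_self _
      _ ≤ 1 * T1 := by
          refine mul_le_mul h5 (h1.trans ?_) (abs_nonneg _) zero_le_one
          rw [abs_of_nonneg hl0, hT1]
          gcongr
      _ ≤ ε / 8 := by rw [one_mul]; exact hJ0
  have hZsum : 1 - ∑ j ∈ range (J0 + 1), Z j ≤ ε / 8 + ε / 4 := by
    have h1 : ∑ j ∈ range (J0 + 1), p j - ∑ j ∈ range (J0 + 1), Z j ≤ ε / 4 := by
      rw [← sum_sub_distrib]
      refine le_trans (sum_le_sum fun j _ => ?_) hsum
      rw [abs_sub_comm]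
      exact le_abs_self _
    linarith
  -- splitting the set
  set Fl : Finset ℕ := (range (J0 + 1)).filter (· ∈ J) with hFl
  have hZJ : |(((range W).filter (fun w => X w ∈ J)).card : ℝ) / W - ∑ j ∈ Fl, Z j| ≤
      ε / 8 + ε / 4 := by
    have h1 : ∑ j ∈ Fl, Z j = (((range W).filter (fun w => X w ∈ Fl)).card : ℝ) / W := by
      rw [hZ]
      simp only
      rw [← sum_div, sum_comm, card_filter]
      push_cast
      congr 1
      refine sum_congr rfl fun w _ => ?_
      rw [sum_ite_eq]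
    have h2 : ∑ j ∈ range (J0 + 1), Z j =
        (((range W).filter (fun w => X w ∈ range (J0 + 1))).card : ℝ) / W := by
      rw [hZ]
      simp only
      rw [← sum_div, sum_comm, card_filter]
      push_cast
      congr 1
      refine sum_congr rfl fun w _ => ?_
      rw [sum_ite_eq]
    have h3 : ((range W).filter (fun w => X w ∈ Fl)) ⊆ (range W).filter (fun w => X w ∈ J) := by
      intro w hw
      rw [mem_filter] at hw ⊢
      exact ⟨hw.1, (mem_filter.1 hw.2).2⟩
    have h4 : (range W).filter (fun w => X w ∈ J) ⊆ (range W).filter (fun w => X w ∈ Fl) ∪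
        (range W).filter (fun w => ¬ X w ∈ range (J0 + 1)) := by
      intro w hw
      rw [mem_filter] at hw
      rw [mem_union]
      by_cases h : X w ∈ range (J0 + 1)
      · exact Or.inl (mem_filter.2 ⟨hw.1, mem_filter.2 ⟨h, hw.2⟩⟩)
      · exact Or.inr (mem_filter.2 ⟨hw.1, h⟩)
    have h5 := card_le_card h3
    have h6 := (card_le_card h4).trans (card_union_le _ _)
    have h7 := card_filter_add_card_filter_not (s := range W) (fun w => X w ∈ range (J0 + 1))
    rw [card_range] at h7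
    have h8 : ((((range W).filter (fun w => ¬ X w ∈ range (J0 + 1))).card : ℕ) : ℝ) / W =
        1 - ∑ j ∈ range (J0 + 1), Z j := by
      rw [h2, eq_sub_iff_add_eq, ← add_div, div_eq_one_iff_eq hW0.ne']
      have : (((range W).filter (fun w => X w ∈ range (J0 + 1))).card : ℝ) +
          ((range W).filter (fun w => ¬ X w ∈ range (J0 + 1))).card = W := by exact_mod_cast h7
      linarith
    rw [h1]
    have h9 : ((((range W).filter (fun w => X w ∈ Fl)).card : ℕ) : ℝ) ≤
        (((range W).filter (fun w => X w ∈ J)).card : ℕ) := by exact_mod_cast h5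
    have h10 : ((((range W).filter (fun w => X w ∈ J)).card : ℕ) : ℝ) ≤
        (((range W).filter (fun w => X w ∈ Fl)).card : ℕ) +
        (((range W).filter (fun w => ¬ X w ∈ range (J0 + 1))).card : ℕ) := by exact_mod_cast h6
    rw [abs_of_nonneg (by
      rw [← sub_div]
      exact div_nonneg (by linarith) hW0.le)]
    calc ((((range W).filter (fun w => X w ∈ J)).card : ℕ) : ℝ) / W -
          ((((range W).filter (fun w => X w ∈ Fl)).card : ℕ) : ℝ) / W
        ≤ ((((range W).filter (fun w => ¬ X w ∈ range (J0 + 1))).card : ℕ) : ℝ) / W := by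
          rw [← sub_div, div_le_div_iff_of_pos_right hW0]
          linarith
      _ ≤ ε / 8 + ε / 4 := by rw [h8]; exact hZsum
  have hpJ : |(poissonMeasure lam).real J - ∑ j ∈ Fl, p j| ≤ ε / 8 := by
    have hm : ∀ s : Set ℕ, MeasurableSet s := fun s => MeasurableSet.of_discrete
    have h1 : ∀ F : Finset ℕ, (poissonMeasure lam).real (F : Set ℕ) = ∑ j ∈ F, p j := by
      intro F
      rw [← sum_measureReal_singleton]
      refine sum_congr rfl fun j _ => ?_
      rw [poissonMeasure_real_singleton]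
    have h2 : (Fl : Set ℕ) ⊆ J := fun j hj => by
      have := Finset.mem_coe.1 hj
      exact (mem_filter.1 this).2
    have h3 : (poissonMeasure lam).real (J \ (Fl : Set ℕ)) =
        (poissonMeasure lam).real J - (poissonMeasure lam).real (Fl : Set ℕ) :=
      measureReal_sdiff h2 (hm _)
    have h4 : J \ (Fl : Set ℕ) ⊆ ((range (J0 + 1) : Finset ℕ) : Set ℕ)ᶜ := by
      intro j hj
      rw [Set.mem_compl_iff, Finset.mem_coe]
      intro h
      exact hj.2 (Finset.mem_coe.2 (mem_filter.2 ⟨h, hj.1⟩))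
    have h5 := measureReal_mono (μ := poissonMeasure lam) h4
    rw [probReal_compl_eq_one_sub (hm _), h1] at h5
    rw [← h1, ← h3, abs_of_nonneg measureReal_nonneg]
    linarith
  have hF : |∑ j ∈ Fl, Z j - ∑ j ∈ Fl, p j| ≤ ε / 4 := by
    rw [← sum_sub_distrib]
    refine (abs_sum_le_sum_abs _ _).trans (le_trans ?_ hsum)
    exact sum_le_sum_of_subset_of_nonneg (filter_subset _ _) fun _ _ _ => abs_nonneg _
  calc |(((range W).filter (fun w => X w ∈ J)).card : ℝ) / W - (poissonMeasure lam).real J|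
      ≤ |(((range W).filter (fun w => X w ∈ J)).card : ℝ) / W - ∑ j ∈ Fl, Z j| +
        |∑ j ∈ Fl, Z j - ∑ j ∈ Fl, p j| + |∑ j ∈ Fl, p j - (poissonMeasure lam).real J| := by
        have h1 := abs_sub_le ((((range W).filter (fun w => X w ∈ J)).card : ℝ) / W)
          (∑ j ∈ Fl, Z j) ((poissonMeasure lam).real J)
        have h2 := abs_sub_le (∑ j ∈ Fl, Z j) (∑ j ∈ Fl, p j) ((poissonMeasure lam).real J)
        linarith
    _ ≤ (ε / 8 + ε / 4) + ε / 4 + ε / 8 := by
        rw [abs_sub_comm (∑ j ∈ Fl, p j)]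
        gcongr
    _ ≤ ε := by linarith

end Pool.Agent.Y933.KF
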