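import Pool.Agent.Y933.KF.Main
import Pool.Agent.Y933.KD.Primes

/-!
# Poisson genericity in counts (helper933)
-/

set_option autoImplicit false

namespace Pool.Agent.Y933.KF

open Finset Real MeasureTheory Filter Topology ProbabilityTheory
open Pool.Agent.Y933.KD
open scoped Nat NNReal

variable {ι : Type*}

open Classical in
/-- Poisson genericity at the place `s` -/
def PG (b s k0 : ℕ) (Λ T ε x : ℝ) : Prop :=
  ∀ k N : ℕ, k0 ≤ k → (N : ℝ) ≤ Λ * (b : ℝ) ^ k → (s : ℝ) + N + k ≤ T → ∀ J : Set ℕ,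
    |(((range (b ^ k)).filter (fun w => Xn b k s N w x ∈ J)).card : ℝ) / (b : ℝ) ^ k -
      (poissonMeasure ((N : ℝ≥0) / (b : ℝ≥0) ^ k)).real J| ≤ ε

open Classical in
theorem poisson_gen {b : ℕ} (hb : 2 ≤ b) {A Λ ε : ℝ} (hε : 0 < ε) {S : ℕ → Set (Measure ℝ)}
    (hS : ∀ M, 1 ≤ M → ∀ P ∈ S M, IsProbabilityMeasure P) (hG : ∀ t, Good b t A S) :
    ∃ k0 M0 : ℕ, ∀ M : ℕ, M0 ≤ M → ∀ (s : ℕ) (T : Finset ι) (x : ι → ℝ), unif T x ∈ S M →
      ((T.filter (fun m => ¬ PG b s k0 Λ (A * log M) ε (x m))).card : ℝ) ≤ ε * T.card := by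
  obtain ⟨k0, M0, h⟩ := poisson_TW hb (A := A) (Λ := Λ) hε hS
    (fun t => KE.TW.of_goodQ (by omega) hS (KE.GoodQ.of_good (hG t) (by omega) le_rfl))
  refine ⟨k0, max M0 1, fun M hM s T x hT => ?_⟩
  obtain ⟨U, hU, hP, hx⟩ := h M (le_of_max_le_left hM) s
  rcases T.eq_empty_or_nonempty with rfl | hne
  · simp
  have hT0 : (0 : ℝ) < T.card := by exact_mod_cast hne.card_pos
  have h1 := hP _ hT
  rw [real_unif _ _ hU, div_le_iff₀ hT0] at h1
  refine le_trans ?_ h1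
  refine Nat.cast_le.2 (Finset.card_le_card fun m hm => ?_)
  rw [Finset.mem_filter] at hm ⊢
  refine ⟨hm.1, ?_⟩
  by_contra hmU
  apply hm.2
  intro k N hk hN hpl J
  exact hx _ hmU k N hk hN hpl _ (by push_cast; rfl) J

end Pool.Agent.Y933.KF
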