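import Pool.Agent.Y933.KF.Second

/-!
# The averaged factorial moments are close to their Poisson values (helper933)
-/

set_option autoImplicit false

namespace Pool.Agent.Y933.KF

open Finset Real MeasureTheory Filter Topology
open Pool.Agent.Y933.KD
open scoped Nat

variable {b k s N : ℕ} {P : Measure ℝ} [IsProbabilityMeasure P]

/-- tests on at most `T` words of `k` digits at the places below `s + N` -/
def Ht (b k s N T : ℕ) (P : Measure ℝ) (Δ : ℝ) : Prop :=
  ∀ t ≤ T, ∀ n c : Fin t → ℕ, (∀ i, n i < s + N) →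
    |P.real (KE.WE b n (fun _ => k) c) - Leb.real (KE.WE b n (fun _ => k) c)| ≤ Δ

lemma Leb_sep (hb : 1 ≤ b) (hk : 1 ≤ k) {t : ℕ} {c : Fin t → ℕ} (hc : ∀ i, c i < b ^ k)
    {h : Fin t → ℕ} (hh : h ∈ SepS k N t) :
    Leb.real (KE.WE b (fun i => s + h i) (fun _ => k) c) = (1 / (b : ℝ) ^ k) ^ t := by
  rw [← int_WE, int_sep hb (fun i => s + h i) c univ (fun i _ => hc i) ?_ hk]
  · rw [card_univ, Fintype.card_fin]
  · intro i _ j _ hij
    have := (mem_SepS.1 hh).2 i j hij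
    omega

lemma integrable_prod {t : ℕ} (n c : Fin t → ℕ) :
    Integrable (fun x => ∏ i, Xw b k (Iw (c i)) (n i) x) P := by
  refine integrable_of_bdd (Finset.measurable_fun_prod _ fun i _ => measurable_Xw _ _ _ _)
    (R := 1) fun x => ?_
  rw [Finset.abs_prod]
  exact prod_le_one (fun _ _ => abs_nonneg _) fun i _ => abs_Iw_le _ _

lemma integrable_Dn {t : ℕ} (c : Fin t → ℕ) : Integrable (Dn b k s N t c) P :=
  integrable_finsetSum _ fun _ _ => integrable_prod _ _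

lemma int_Dn {t : ℕ} (c : Fin t → ℕ) : ∫ x, Dn b k s N t c x ∂P =
    ∑ h ∈ SepS k N t, P.real (KE.WE b (fun i => s + h i) (fun _ => k) c) := by
  unfold Dn
  rw [integral_finsetSum _ fun _ _ => integrable_prod _ _]
  exact sum_congr rfl fun h _ => int_WE P _ _

lemma Dn_upper (hb : 1 ≤ b) (hk : 1 ≤ k) {T : ℕ} {Δ : ℝ} (hΔ : 0 ≤ Δ) (hT : Ht b k s N T P Δ)
    {t : ℕ} (ht : t ≤ T) {c : Fin t → ℕ} (hc : ∀ i, c i < b ^ k) :
    ∫ x, Dn b k s N t c x ∂P ≤ (N : ℝ) ^ t * ((1 / (b : ℝ) ^ k) ^ t + Δ) := by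
  rw [int_Dn]
  calc ∑ h ∈ SepS k N t, P.real (KE.WE b (fun i => s + h i) (fun _ => k) c)
      ≤ ∑ _h ∈ SepS k N t, ((1 / (b : ℝ) ^ k) ^ t + Δ) := by
        refine sum_le_sum fun h hh => ?_
        have h1 := hT t ht (fun i => s + h i) c (fun i => by
          have := (mem_SepS.1 hh).1 i
          omega)
        rw [Leb_sep hb hk hc hh] at h1
        have := (abs_le.1 h1).2
        linarith
    _ = (SepS k N t).card * ((1 / (b : ℝ) ^ k) ^ t + Δ) := by rw [sum_const, nsmul_eq_mul]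
    _ ≤ _ := by
        gcongr
        exact card_SepS_le k N t

lemma Dn_lower (hb : 1 ≤ b) (hk : 1 ≤ k) (hN : 1 ≤ N) {T : ℕ} {Δ : ℝ} (hΔ : 0 ≤ Δ)
    (hT : Ht b k s N T P Δ) {t : ℕ} (ht : t ≤ T) {c : Fin t → ℕ} (hc : ∀ i, c i < b ^ k) :
    ((N : ℝ) ^ t - t ^ 2 * ((N : ℝ) ^ (t - 1) * (2 * k))) * (1 / (b : ℝ) ^ k) ^ t -
      (N : ℝ) ^ t * Δ ≤ ∫ x, Dn b k s N t c x ∂P := by
  rw [int_Dn]
  have h0 : 0 ≤ (1 / (b : ℝ) ^ k) ^ t := by positivity
  calc ((N : ℝ) ^ t - t ^ 2 * ((N : ℝ) ^ (t - 1) * (2 * k))) * (1 / (b : ℝ) ^ k) ^ t -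
      (N : ℝ) ^ t * Δ ≤ (SepS k N t).card * (1 / (b : ℝ) ^ k) ^ t - (SepS k N t).card * Δ := by
        have h1 := card_SepS_ge (k := k) (t := t) hN
        have h2 := card_SepS_le k N t
        have h3 := mul_le_mul_of_nonneg_right h1 h0
        have h4 := mul_le_mul_of_nonneg_right h2 hΔ
        linarith
    _ = ∑ _h ∈ SepS k N t, ((1 / (b : ℝ) ^ k) ^ t - Δ) := by
        rw [sum_const, nsmul_eq_mul]; ring
    _ ≤ ∑ h ∈ SepS k N t, P.real (KE.WE b (fun i => s + h i) (fun _ => k) c) := by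
        refine sum_le_sum fun h hh => ?_
        have h1 := hT t ht (fun i => s + h i) c (fun i => by
          have := (mem_SepS.1 hh).1 i
          omega)
        rw [Leb_sep hb hk hc hh] at h1
        have := (abs_le.1 h1).1
        linarith

lemma XR_pow (w p : ℕ) (x : ℝ) : XR b k s N w x ^ p =
    ∑ h ∈ Fintype.piFinset fun _ : Fin p => range N, ∏ i, Xw b k (Iw w) (s + h i) x := by
  have h2 : XR b k s N w x ^ p = ∏ _i : Fin p, XR b k s N w x := by
    rw [prod_const, card_univ, Fintype.card_fin]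
  rw [h2]
  unfold XR
  rw [prod_univ_sum]

lemma mom_P (hb : 1 ≤ b) (hk : 1 ≤ k) {w : ℕ} (hw : w < b ^ k) {T : ℕ} {Δ : ℝ}
    (hT : Ht b k s N T P Δ) {p : ℕ} (hp : p ≤ T) :
    ∫ x, XR b k s N w x ^ p ∂P ≤
      (k : ℝ) ^ p * (p ! : ℝ) * exp (2 * (N / (b : ℝ) ^ k + 1)) + (N : ℝ) ^ p * Δ := by
  have h1 : ∀ Q : Measure ℝ, IsProbabilityMeasure Q → ∫ x, XR b k s N w x ^ p ∂Q =
      ∑ h ∈ Fintype.piFinset fun _ : Fin p => range N,
        Q.real (KE.WE b (fun i => s + h i) (fun _ => k) (fun _ => w)) := by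
    intro Q _
    simp only [XR_pow]
    rw [integral_finsetSum _ fun _ _ => integrable_prod _ _]
    exact sum_congr rfl fun h _ => int_WE Q _ _
  have h2 : ∫ x, XR b k s N w x ^ p ∂P ≤ ∫ x, XR b k s N w x ^ p ∂Leb + (N : ℝ) ^ p * Δ := by
    rw [h1 P inferInstance, h1 Leb inferInstance]
    have h3 : (N : ℝ) ^ p * Δ = ∑ _h ∈ Fintype.piFinset fun _ : Fin p => range N, Δ := by
      rw [sum_const, Fintype.card_piFinset, nsmul_eq_mul]
      simp
    rw [h3, ← sum_add_distrib]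
    refine sum_le_sum fun h hh => ?_
    rw [Fintype.mem_piFinset] at hh
    have h4 := hT p hp (fun i => s + h i) (fun _ => w) (fun i => by
      have := mem_range.1 (hh i)
      omega)
    have := (abs_le.1 h4).2
    linarith
  have h3 := mom_Leb hb hk hw s N p
  linarith

lemma pair_P (hb : 2 ≤ b) {T : ℕ} {Δ : ℝ} (hT : Ht b k s N T P Δ) (h2T : 2 ≤ T) {i j : ℕ}
    (hij : i < j) (hj : j < N) :
    ∑ w ∈ range (b ^ k), ∫ x, Xw b k (Iw w) (s + i) x * Xw b k (Iw w) (s + j) x ∂P ≤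
      1 / (b : ℝ) ^ k + (b : ℝ) ^ k * Δ := by
  have h1 : ∀ Q : Measure ℝ, IsProbabilityMeasure Q → ∀ w,
      ∫ x, Xw b k (Iw w) (s + i) x * Xw b k (Iw w) (s + j) x ∂Q =
        Q.real (KE.WE b ![s + i, s + j] (fun _ => k) (fun _ => w)) := by
    intro Q _ w
    rw [← int_WE]
    congr 1
    ext x
    rw [Fin.prod_univ_two]
    rfl
  have h2 := pair_Leb (b := b) (k := k) (n := s + i) (g := j - i) hb (by omega)
  have e1 : s + i + (j - i) = s + j := by omega
  rw [e1] at h2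
  have h3 : (b : ℝ) ^ k * Δ = ∑ _w ∈ range (b ^ k), Δ := by
    rw [sum_const, card_range, nsmul_eq_mul]
    push_cast
    rfl
  rw [h3]
  refine le_trans ?_ (add_le_add_left h2 _)
  rw [← sum_add_distrib]
  refine sum_le_sum fun w _ => ?_
  rw [h1 P inferInstance, h1 Leb inferInstance]
  have h4 := hT 2 h2T ![s + i, s + j] (fun _ => w) (fun a => by
    fin_cases a
    · change s + i < s + N; omega
    · change s + j < s + N; omega)
  have := (abs_le.1 h4).2
  linarith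

lemma pair_P' (hb : 2 ≤ b) {T : ℕ} {Δ : ℝ} (hT : Ht b k s N T P Δ) (h2T : 2 ≤ T) {i j : ℕ}
    (hij : i ≠ j) (hi : i < N) (hj : j < N) :
    ∑ w ∈ range (b ^ k), ∫ x, Xw b k (Iw w) (s + i) x * Xw b k (Iw w) (s + j) x ∂P ≤
      1 / (b : ℝ) ^ k + (b : ℝ) ^ k * Δ := by
  rcases lt_or_gt_of_ne hij with h | h
  · exact pair_P hb hT h2T h hj
  · have := pair_P (k := k) (s := s) hb hT h2T h hi
    refine le_trans (le_of_eq ?_) this
    refine sum_congr rfl fun w _ => ?_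
    congr 1
    ext x
    ring

lemma sum_Iw (hb : 1 ≤ b) (n : ℕ) (x : ℝ) : ∑ w ∈ range (b ^ k), Xw b k (Iw w) n x = 1 := by
  unfold Xw Iw
  rw [sum_ite_eq, if_pos (mem_range.2 (wd_lt hb k n x))]

lemma integrable_two (w w' n m : ℕ) :
    Integrable (fun x => Xw b k (Iw w) n x * Xw b k (Iw w') m x) P := by
  refine integrable_of_bdd ((measurable_Xw _ _ _ _).mul (measurable_Xw _ _ _ _)) (R := 1) ?_
  intro x
  rw [abs_mul]
  exact mul_le_one₀ (abs_Iw_le _ _) (abs_nonneg _) (abs_Iw_le _ _)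

lemma integrable_term (w w' : ℕ) (p : ℕ × ℕ) :
    Integrable (fun x => (if p.1 = p.2 then 0 else
      Xw b k (Iw w) (s + p.1) x * Xw b k (Iw w) (s + p.2) x) +
    (if p.1 = p.2 then 0 else
      Xw b k (Iw w') (s + p.1) x * Xw b k (Iw w') (s + p.2) x) +
    Xw b k (Iw w) (s + p.1) x * Xw b k (Iw w') (s + p.2) x) P := by
  refine Integrable.add (Integrable.add ?_ ?_) (integrable_two _ _ _ _)
  · by_cases h : p.1 = p.2
    · simp only [if_pos h]; exact integrable_const _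
    · simp only [if_neg h]; exact integrable_two _ _ _ _
  · by_cases h : p.1 = p.2
    · simp only [if_pos h]; exact integrable_const _
    · simp only [if_neg h]; exact integrable_two _ _ _ _

lemma integrable_Bn (w w' : ℕ) : Integrable (Bn b k s N w w') P :=
  integrable_finsetSum _ fun p _ => integrable_term w w' p

lemma sum_B (hb : 2 ≤ b) {T : ℕ} {Δ : ℝ} (hΔ : 0 ≤ Δ) (hT : Ht b k s N T P Δ) (h2T : 2 ≤ T) :
    ∑ w ∈ range (b ^ k), ∑ w' ∈ range (b ^ k), ∫ x, Bn b k s N w w' x ∂P ≤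
      2 * k * N * (3 + 2 * ((b : ℝ) ^ k) ^ 2 * Δ) := by
  have hb1 : 1 ≤ b := by omega
  have hb' : (0 : ℝ) < b := by exact_mod_cast hb1
  have hW : (0 : ℝ) < (b : ℝ) ^ k := by positivity
  have h1 : ∀ w w', ∫ x, Bn b k s N w w' x ∂P = ∑ p ∈ Cl k N,
      ∫ x, ((if p.1 = p.2 then 0 else
        Xw b k (Iw w) (s + p.1) x * Xw b k (Iw w) (s + p.2) x) +
      (if p.1 = p.2 then 0 else
        Xw b k (Iw w') (s + p.1) x * Xw b k (Iw w') (s + p.2) x) +
      Xw b k (Iw w) (s + p.1) x * Xw b k (Iw w') (s + p.2) x) ∂P := by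
    intro w w'
    unfold Bn
    exact integral_finsetSum _ fun p _ => integrable_term w w' p
  simp only [h1]
  rw [sum_congr rfl fun w _ => sum_comm, sum_comm]
  have hcard : ((range (b ^ k)).card : ℝ) = (b : ℝ) ^ k := by rw [card_range]; push_cast; rfl
  have hone : ∀ p ∈ Cl k N, ∑ w ∈ range (b ^ k), ∑ w' ∈ range (b ^ k),
      ∫ x, ((if p.1 = p.2 then 0 else
        Xw b k (Iw w) (s + p.1) x * Xw b k (Iw w) (s + p.2) x) +
      (if p.1 = p.2 then 0 else
        Xw b k (Iw w') (s + p.1) x * Xw b k (Iw w') (s + p.2) x) +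
      Xw b k (Iw w) (s + p.1) x * Xw b k (Iw w') (s + p.2) x) ∂P ≤
      3 + 2 * ((b : ℝ) ^ k) ^ 2 * Δ := by
    intro p hp
    rw [mem_Cl] at hp
    have hsplit : ∀ w w', ∫ x, ((if p.1 = p.2 then 0 else
        Xw b k (Iw w) (s + p.1) x * Xw b k (Iw w) (s + p.2) x) +
      (if p.1 = p.2 then 0 else
        Xw b k (Iw w') (s + p.1) x * Xw b k (Iw w') (s + p.2) x) +
      Xw b k (Iw w) (s + p.1) x * Xw b k (Iw w') (s + p.2) x) ∂P =
      (if p.1 = p.2 then 0 else
        ∫ x, Xw b k (Iw w) (s + p.1) x * Xw b k (Iw w) (s + p.2) x ∂P) +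
      (if p.1 = p.2 then 0 else
        ∫ x, Xw b k (Iw w') (s + p.1) x * Xw b k (Iw w') (s + p.2) x ∂P) +
      ∫ x, Xw b k (Iw w) (s + p.1) x * Xw b k (Iw w') (s + p.2) x ∂P := by
      intro w w'
      by_cases h : p.1 = p.2
      · simp only [if_pos h, zero_add]
      · simp only [if_neg h]
        have i1 := integrable_two (b := b) (k := k) (P := P) w w (s + p.1) (s + p.2)
        have i2 := integrable_two (b := b) (k := k) (P := P) w' w' (s + p.1) (s + p.2)
        have i3 := integrable_two (b := b) (k := k) (P := P) w w' (s + p.1) (s + p.2)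
        have i12 : Integrable (fun x => Xw b k (Iw w) (s + p.1) x * Xw b k (Iw w) (s + p.2) x +
          Xw b k (Iw w') (s + p.1) x * Xw b k (Iw w') (s + p.2) x) P := i1.add i2
        rw [integral_add i12 i3, integral_add i1 i2]
    simp only [hsplit, sum_add_distrib, sum_const, nsmul_eq_mul, hcard]
    have hthird : ∑ w ∈ range (b ^ k), ∑ w' ∈ range (b ^ k),
        ∫ x, Xw b k (Iw w) (s + p.1) x * Xw b k (Iw w') (s + p.2) x ∂P = 1 := by
      have h2 : ∀ w, ∑ w' ∈ range (b ^ k),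
          ∫ x, Xw b k (Iw w) (s + p.1) x * Xw b k (Iw w') (s + p.2) x ∂P =
          ∫ x, Xw b k (Iw w) (s + p.1) x ∂P := by
        intro w
        rw [← integral_finsetSum _ fun w' _ => integrable_two _ _ _ _]
        congr 1
        ext x
        rw [← mul_sum, sum_Iw hb1, mul_one]
      simp only [h2]
      rw [← integral_finsetSum _ fun w _ => integrable_of_bdd
        (measurable_Xw b k (Iw w) (s + p.1)) (R := 1) fun x => abs_Iw_le w _]
      simp only [sum_Iw hb1]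
      simp
    rw [hthird]
    by_cases h : p.1 = p.2
    · simp only [if_pos h, sum_const_zero, mul_zero, zero_add]
      have : 0 ≤ 2 * ((b : ℝ) ^ k) ^ 2 * Δ := by positivity
      linarith
    · simp only [if_neg h]
      have h2 := pair_P' (k := k) (s := s) hb hT h2T h hp.1.1 hp.1.2
      rw [← mul_sum]
      have h3 : (b : ℝ) ^ k * ∑ w ∈ range (b ^ k),
          ∫ x, Xw b k (Iw w) (s + p.1) x * Xw b k (Iw w) (s + p.2) x ∂P ≤
          (b : ℝ) ^ k * (1 / (b : ℝ) ^ k + (b : ℝ) ^ k * Δ) := by gcongr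
      have h4 : (b : ℝ) ^ k * (1 / (b : ℝ) ^ k + (b : ℝ) ^ k * Δ) = 1 + ((b : ℝ) ^ k) ^ 2 * Δ := by
        field_simp
      linarith
  refine (sum_le_sum hone).trans ?_
  rw [sum_const, nsmul_eq_mul]
  gcongr
  exact card_Cl k N

/-- the averaged factorial moments of the numbers of occurrences -/
noncomputable def Ph (b k s N r : ℕ) (x : ℝ) : ℝ :=
  (∑ w ∈ range (b ^ k), (((Xn b k s N w x).descFactorial r : ℕ) : ℝ)) / (b : ℝ) ^ k

lemma abs_desc_le (w r : ℕ) (x : ℝ) :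
    |(((Xn b k s N w x).descFactorial r : ℕ) : ℝ)| ≤ (N : ℝ) ^ r := by
  rw [Nat.abs_cast]
  have h1 := Nat.descFactorial_le_pow (Xn b k s N w x) r
  have h2 := Nat.pow_le_pow_left (Xn_le b k s N w x) r
  exact_mod_cast h1.trans h2

lemma integrable_desc (hb : 1 ≤ b) (w r : ℕ) :
    Integrable (fun x => (((Xn b k s N w x).descFactorial r : ℕ) : ℝ)) P :=
  integrable_of_bdd (measurable_Xn hb k s N w fun v => ((v.descFactorial r : ℕ) : ℝ))
    (R := (N : ℝ) ^ r) fun x => abs_desc_le w r x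

lemma measurable_Ph (hb : 1 ≤ b) (r : ℕ) : Measurable (Ph b k s N r) := by
  unfold Ph
  exact (Finset.measurable_fun_sum _ fun w _ =>
    measurable_Xn hb k s N w fun v => ((v.descFactorial r : ℕ) : ℝ)).div_const _

lemma Ph_nonneg (r : ℕ) (x : ℝ) : 0 ≤ Ph b k s N r x := by
  unfold Ph
  exact div_nonneg (sum_nonneg fun _ _ => Nat.cast_nonneg _) (by positivity)

lemma Ph_le (hb : 1 ≤ b) (r : ℕ) (x : ℝ) : Ph b k s N r x ≤ (N : ℝ) ^ r := by
  have hb' : (0 : ℝ) < b := by exact_mod_cast hb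
  unfold Ph
  rw [div_le_iff₀ (by positivity)]
  calc ∑ w ∈ range (b ^ k), (((Xn b k s N w x).descFactorial r : ℕ) : ℝ) ≤
        ∑ _w ∈ range (b ^ k), (N : ℝ) ^ r :=
        sum_le_sum fun w _ => (le_abs_self _).trans (abs_desc_le w r x)
    _ = (N : ℝ) ^ r * (b : ℝ) ^ k := by
        rw [sum_const, card_range, nsmul_eq_mul]
        push_cast
        ring

/-- **the second moment** -/
theorem second (hb : 2 ≤ b) (hk : 1 ≤ k) (hN : 1 ≤ N) (r : ℕ) {T : ℕ} {Δ : ℝ} (hΔ : 0 ≤ Δ)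
    (hT : Ht b k s N T P Δ) (h2T : 2 ≤ T) (h4T : 4 * r ≤ T) {θ : ℝ} (hθ : 0 < θ) :
    ∫ x, (Ph b k s N r x - (N / (b : ℝ) ^ k) ^ r) ^ 2 ∂P ≤
      (N : ℝ) ^ (r + r) * Δ + θ * (k * N * (3 / ((b : ℝ) ^ k) ^ 2 + 2 * Δ)) +
      θ⁻¹ * ((k : ℝ) ^ (4 * r) * ((4 * r)! : ℝ) * exp (2 * (N / (b : ℝ) ^ k + 1)) +
        (N : ℝ) ^ (4 * r) * Δ) / 2 +
      4 * (N / (b : ℝ) ^ k) ^ r * (r ^ 2 * k * ((N : ℝ) ^ (r - 1) * (1 / (b : ℝ) ^ k) ^ r)) +
      2 * (N / (b : ℝ) ^ k) ^ r * ((N : ℝ) ^ r * Δ) := by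
  have hb1 : 1 ≤ b := by omega
  have hb' : (0 : ℝ) < b := by exact_mod_cast hb1
  set W : ℝ := (b : ℝ) ^ k with hW
  have hW0 : 0 < W := by positivity
  set lam : ℝ := N / W with hlam
  have hlam0 : 0 ≤ lam := by positivity
  set a : ℝ := lam ^ r with ha
  have ha0 : 0 ≤ a := by positivity
  have hcard : ((range (b ^ k)).card : ℝ) = W := by rw [card_range]; push_cast; rfl
  set Mo : ℝ := (k : ℝ) ^ (4 * r) * ((4 * r)! : ℝ) * exp (2 * (N / W + 1)) +
    (N : ℝ) ^ (4 * r) * Δ with hMo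
  have hint1 : Integrable (Ph b k s N r) P := integrable_of_bdd (measurable_Ph hb1 r)
    (R := (N : ℝ) ^ r) fun x => by
      rw [abs_of_nonneg (Ph_nonneg r x)]; exact Ph_le hb1 r x
  have hint2 : Integrable (fun x => Ph b k s N r x ^ 2) P :=
    integrable_of_bdd ((measurable_Ph hb1 r).pow_const 2) (R := ((N : ℝ) ^ r) ^ 2) fun x => by
      rw [abs_of_nonneg (sq_nonneg _)]
      exact pow_le_pow_left₀ (Ph_nonneg r x) (Ph_le hb1 r x) 2
  -- the expansion of the square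
  have hexp : ∫ x, (Ph b k s N r x - a) ^ 2 ∂P =
      ∫ x, Ph b k s N r x ^ 2 ∂P - 2 * a * ∫ x, Ph b k s N r x ∂P + a ^ 2 := by
    have h1 : ∀ x, (Ph b k s N r x - a) ^ 2 =
        (Ph b k s N r x ^ 2 - 2 * a * Ph b k s N r x) + a ^ 2 := fun x => by ring
    simp only [h1]
    have i1 : Integrable (fun x => 2 * a * Ph b k s N r x) P := hint1.const_mul _
    have i2 : Integrable (fun x => Ph b k s N r x ^ 2 - 2 * a * Ph b k s N r x) P := hint2.sub i1
    rw [integral_add i2 (integrable_const _), integral_sub hint2 i1,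
      MeasureTheory.integral_const_mul]
    simp
  -- the first moment
  have hfirst : ((N : ℝ) ^ r - r ^ 2 * ((N : ℝ) ^ (r - 1) * (2 * k))) * (1 / W) ^ r -
      (N : ℝ) ^ r * Δ ≤ ∫ x, Ph b k s N r x ∂P := by
    unfold Ph
    rw [integral_div, integral_finsetSum _ fun w _ => integrable_desc hb1 w r,
      le_div_iff₀ hW0]
    calc (((N : ℝ) ^ r - r ^ 2 * ((N : ℝ) ^ (r - 1) * (2 * k))) * (1 / W) ^ r -
          (N : ℝ) ^ r * Δ) * W
        = ∑ _w ∈ range (b ^ k), (((N : ℝ) ^ r - r ^ 2 * ((N : ℝ) ^ (r - 1) * (2 * k))) *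
          (1 / W) ^ r - (N : ℝ) ^ r * Δ) := by
          rw [sum_const, nsmul_eq_mul, hcard]; ring
      _ ≤ _ := by
          refine sum_le_sum fun w hw => ?_
          refine (Dn_lower hb1 hk hN hΔ hT (t := r) (by omega)
            (c := fun _ => w) fun _ => mem_range.1 hw).trans ?_
          exact integral_mono (integrable_Dn _) (integrable_desc hb1 w r) fun x => Dn_le hk x
  -- the second moment
  have hsec : ∫ x, Ph b k s N r x ^ 2 ∂P ≤ (N : ℝ) ^ (r + r) * ((1 / W) ^ (r + r) + Δ) +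
      θ * (k * N * (3 / W ^ 2 + 2 * Δ)) + θ⁻¹ * Mo / 2 := by
    have h1 : ∀ x, Ph b k s N r x ^ 2 = (∑ w ∈ range (b ^ k), ∑ w' ∈ range (b ^ k),
        (((Xn b k s N w x).descFactorial r : ℕ) : ℝ) *
          ((Xn b k s N w' x).descFactorial r : ℕ)) / W ^ 2 := by
      intro x
      unfold Ph
      rw [div_pow, sq (∑ w ∈ range (b ^ k), (((Xn b k s N w x).descFactorial r : ℕ) : ℝ)),
        sum_mul_sum]
    have hi : ∀ w w', Integrable (fun x => (((Xn b k s N w x).descFactorial r : ℕ) : ℝ) *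
        ((Xn b k s N w' x).descFactorial r : ℕ)) P := by
      intro w w'
      refine integrable_of_bdd
        ((measurable_Xn hb1 k s N w fun v => ((v.descFactorial r : ℕ) : ℝ)).mul
          (measurable_Xn hb1 k s N w' fun v => ((v.descFactorial r : ℕ) : ℝ)))
        (R := (N : ℝ) ^ r * (N : ℝ) ^ r) fun x => ?_
      rw [abs_mul]
      exact mul_le_mul (abs_desc_le w r x) (abs_desc_le w' r x) (abs_nonneg _) (by positivity)
    have hXp : ∀ w, Integrable (fun x => XR b k s N w x ^ (4 * r)) P := by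
      intro w
      refine integrable_of_bdd ((measurable_XR _ _ _ _ _).pow_const _) (R := (N : ℝ) ^ (4 * r))
        fun x => ?_
      rw [abs_of_nonneg (pow_nonneg (XR_nonneg _ _ _ _ _ _) _)]
      exact pow_le_pow_left₀ (XR_nonneg _ _ _ _ _ _) (XR_le _ _ _ _ _ _) _
    simp only [h1]
    rw [integral_div, integral_finsetSum _ fun w _ => integrable_finsetSum _ fun w' _ => hi w w',
      div_le_iff₀ (by positivity), sum_congr rfl fun w _ => integral_finsetSum _ fun w' _ => hi w w']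
    have h2 : ∀ w ∈ range (b ^ k), ∀ w' ∈ range (b ^ k),
        ∫ x, (((Xn b k s N w x).descFactorial r : ℕ) : ℝ) *
          ((Xn b k s N w' x).descFactorial r : ℕ) ∂P ≤
        (N : ℝ) ^ (r + r) * ((1 / W) ^ (r + r) + Δ) +
          (θ * ∫ x, Bn b k s N w w' x ∂P + θ⁻¹ * Mo) / 2 := by
      intro w hw w' hw'
      have hmono := integral_mono (μ := P) (hi w w')
        (((integrable_Dn (b := b) (k := k) (s := s) (N := N) (P := P)
          (Fin.append (fun _ : Fin r => w) (fun _ : Fin r => w'))).add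
          ((((integrable_Bn (b := b) (k := k) (s := s) (N := N) (P := P) w w').const_mul θ).add
          ((((hXp w).add (hXp w')).div_const 2).const_mul θ⁻¹)).div_const 2)))
        (fun x => point (r := r) x hθ)
      have e1 : ∫ x, (Dn b k s N (r + r) (Fin.append (fun _ : Fin r => w) (fun _ : Fin r => w')) x +
          (θ * Bn b k s N w w' x +
            θ⁻¹ * ((XR b k s N w x ^ (4 * r) + XR b k s N w' x ^ (4 * r)) / 2)) / 2) ∂P =
          ∫ x, Dn b k s N (r + r) (Fin.append (fun _ : Fin r => w) (fun _ : Fin r => w')) x ∂P +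
          (θ * ∫ x, Bn b k s N w w' x ∂P + θ⁻¹ * ((∫ x, XR b k s N w x ^ (4 * r) ∂P +
            ∫ x, XR b k s N w' x ^ (4 * r) ∂P) / 2)) / 2 := by
        have i1 : Integrable (fun x => XR b k s N w x ^ (4 * r) + XR b k s N w' x ^ (4 * r)) P :=
          (hXp w).add (hXp w')
        have i2 : Integrable (fun x => θ⁻¹ *
            ((XR b k s N w x ^ (4 * r) + XR b k s N w' x ^ (4 * r)) / 2)) P :=
          (i1.div_const 2).const_mul _
        have i3 : Integrable (fun x => θ * Bn b k s N w w' x) P := (integrable_Bn w w').const_mul θ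
        have i4 : Integrable (fun x => θ * Bn b k s N w w' x + θ⁻¹ *
            ((XR b k s N w x ^ (4 * r) + XR b k s N w' x ^ (4 * r)) / 2)) P := i3.add i2
        have i5 : Integrable (fun x => (θ * Bn b k s N w w' x + θ⁻¹ *
            ((XR b k s N w x ^ (4 * r) + XR b k s N w' x ^ (4 * r)) / 2)) / 2) P := i4.div_const 2
        rw [integral_add (integrable_Dn _) i5, integral_div, integral_add i3 i2,
          MeasureTheory.integral_const_mul, MeasureTheory.integral_const_mul, integral_div,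
          integral_add (hXp w) (hXp w')]
      have h3 : ∫ x, Dn b k s N (r + r) (Fin.append (fun _ : Fin r => w) (fun _ : Fin r => w')) x ∂P ≤
          (N : ℝ) ^ (r + r) * ((1 / W) ^ (r + r) + Δ) := by
        refine Dn_upper hb1 hk hΔ hT (by omega) ?_
        intro i
        refine Fin.addCases (fun i => ?_) (fun i => ?_) i
        · rw [Fin.append_left]; exact mem_range.1 hw
        · rw [Fin.append_right]; exact mem_range.1 hw'
      have h4 := mom_P hb1 hk (mem_range.1 hw) hT (p := 4 * r) h4T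
      have h5 := mom_P hb1 hk (mem_range.1 hw') hT (p := 4 * r) h4T
      have h6 : θ⁻¹ * ((∫ x, XR b k s N w x ^ (4 * r) ∂P +
            ∫ x, XR b k s N w' x ^ (4 * r) ∂P) / 2) ≤ θ⁻¹ * Mo := by
        refine mul_le_mul_of_nonneg_left ?_ (by positivity)
        rw [hMo]
        linarith
      have hmono' : ∫ x, (((Xn b k s N w x).descFactorial r : ℕ) : ℝ) *
          ((Xn b k s N w' x).descFactorial r : ℕ) ∂P ≤
          ∫ x, (Dn b k s N (r + r) (Fin.append (fun _ : Fin r => w) (fun _ : Fin r => w')) x +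
          (θ * Bn b k s N w w' x +
            θ⁻¹ * ((XR b k s N w x ^ (4 * r) + XR b k s N w' x ^ (4 * r)) / 2)) / 2) ∂P := hmono
      rw [e1] at hmono'
      linarith
    refine (sum_le_sum fun w hw => sum_le_sum fun w' hw' => h2 w hw w' hw').trans ?_
    have h3 := sum_B (k := k) (s := s) (N := N) hb hΔ hT h2T
    have e2 : ∑ w ∈ range (b ^ k), ∑ w' ∈ range (b ^ k),
        ((N : ℝ) ^ (r + r) * ((1 / W) ^ (r + r) + Δ) +
          (θ * ∫ x, Bn b k s N w w' x ∂P + θ⁻¹ * Mo) / 2) =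
        W ^ 2 * ((N : ℝ) ^ (r + r) * ((1 / W) ^ (r + r) + Δ)) +
        θ / 2 * (∑ w ∈ range (b ^ k), ∑ w' ∈ range (b ^ k), ∫ x, Bn b k s N w w' x ∂P) +
        W ^ 2 * (θ⁻¹ * Mo / 2) := by
      have h5 : ∀ w w', ((N : ℝ) ^ (r + r) * ((1 / W) ^ (r + r) + Δ) +
          (θ * ∫ x, Bn b k s N w w' x ∂P + θ⁻¹ * Mo) / 2) =
          ((N : ℝ) ^ (r + r) * ((1 / W) ^ (r + r) + Δ) + θ⁻¹ * Mo / 2) +
            θ / 2 * ∫ x, Bn b k s N w w' x ∂P := fun w w' => by ring
      simp only [h5, sum_add_distrib, sum_const, nsmul_eq_mul, hcard, ← mul_sum]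
      ring
    rw [e2]
    have h4 : θ / 2 * (∑ w ∈ range (b ^ k), ∑ w' ∈ range (b ^ k), ∫ x, Bn b k s N w w' x ∂P) ≤
        θ / 2 * (2 * k * N * (3 + 2 * W ^ 2 * Δ)) := by gcongr
    have e3 : θ / 2 * (2 * k * N * (3 + 2 * W ^ 2 * Δ)) =
        θ * (k * N * (3 / W ^ 2 + 2 * Δ)) * W ^ 2 := by
      field_simp
    linarith
  -- the conclusion
  have hNW : (N : ℝ) ^ r * (1 / W) ^ r = a := by
    rw [ha, hlam, ← mul_pow, mul_one_div]
  have hNW2 : (N : ℝ) ^ (r + r) * (1 / W) ^ (r + r) = a ^ 2 := by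
    rw [pow_add, pow_add, ← hNW]; ring
  rw [hexp]
  have h1 : 2 * a * (((N : ℝ) ^ r - r ^ 2 * ((N : ℝ) ^ (r - 1) * (2 * k))) * (1 / W) ^ r -
      (N : ℝ) ^ r * Δ) ≤ 2 * a * ∫ x, Ph b k s N r x ∂P := by gcongr
  have e4 : 2 * a * (((N : ℝ) ^ r - r ^ 2 * ((N : ℝ) ^ (r - 1) * (2 * k))) * (1 / W) ^ r -
      (N : ℝ) ^ r * Δ) = 2 * a ^ 2 -
      4 * a * (r ^ 2 * k * ((N : ℝ) ^ (r - 1) * (1 / W) ^ r)) - 2 * a * ((N : ℝ) ^ r * Δ) := by
    have : ((N : ℝ) ^ r - r ^ 2 * ((N : ℝ) ^ (r - 1) * (2 * k))) * (1 / W) ^ r =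
        a - r ^ 2 * ((N : ℝ) ^ (r - 1) * (2 * k)) * (1 / W) ^ r := by
      rw [sub_mul, hNW]
    rw [this]
    ring
  rw [e4] at h1
  have e5 : (N : ℝ) ^ (r + r) * ((1 / W) ^ (r + r) + Δ) = a ^ 2 + (N : ℝ) ^ (r + r) * Δ := by
    rw [mul_add, hNW2]
  rw [e5] at hsec
  linarith

end Pool.Agent.Y933.KF
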