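import Pool.Agent.Y933.KF.Det
import Pool.Agent.Y933.KF.Third

/-!
# Poisson genericity from word tests (helper933)
-/

set_option autoImplicit false

namespace Pool.Agent.Y933.KF

open Finset Real MeasureTheory Filter Topology ProbabilityTheory
open Pool.Agent.Y933.KD
open scoped Nat NNReal

lemma log_small (p : ℕ) {δ : ℝ} (hδ : 0 < δ) {C ε : ℝ} (hC : 0 ≤ C) (hε : 0 < ε) :
    ∀ᶠ M : ℕ in atTop, C * (1 + log (M : ℝ)) ^ p * (M : ℝ) ^ (-δ) ≤ ε := by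
  set a : ℝ := δ / (2 * (p + 1)) with ha
  have ha0 : 0 < a := by positivity
  filter_upwards [VdC.ev_le (C * (1 + 1 / a) ^ p / ε) (δ / 2) (by positivity),
    eventually_ge_atTop 1] with M hM hM1
  have hM1' : (1 : ℝ) ≤ M := by exact_mod_cast hM1
  have hMp : (0 : ℝ) < M := by linarith
  have h1 := VdC.one_add_log_le hM1' ha0
  have hlog : 0 ≤ log (M : ℝ) := Real.log_nonneg hM1'
  have h2 : (1 + log (M : ℝ)) ^ p ≤ (1 + 1 / a) ^ p * (M : ℝ) ^ (δ / 2) := by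
    calc (1 + log (M : ℝ)) ^ p ≤ ((1 + 1 / a) * (M : ℝ) ^ a) ^ p := by gcongr
      _ = (1 + 1 / a) ^ p * (M : ℝ) ^ (a * p) := by
          rw [mul_pow, ← Real.rpow_natCast ((M : ℝ) ^ a), ← Real.rpow_mul hMp.le]
      _ ≤ (1 + 1 / a) ^ p * (M : ℝ) ^ (δ / 2) := by
          refine mul_le_mul_of_nonneg_left (Real.rpow_le_rpow_of_exponent_le hM1' ?_) (by positivity)
          rw [ha, div_mul_eq_mul_div, div_le_div_iff₀ (by positivity) (by norm_num)]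
          nlinarith
  rw [div_le_iff₀ hε] at hM
  calc C * (1 + log (M : ℝ)) ^ p * (M : ℝ) ^ (-δ) ≤
        C * ((1 + 1 / a) ^ p * (M : ℝ) ^ (δ / 2)) * (M : ℝ) ^ (-δ) := by gcongr
    _ = C * (1 + 1 / a) ^ p * ((M : ℝ) ^ (δ / 2) * (M : ℝ) ^ (-δ)) := by ring
    _ = C * (1 + 1 / a) ^ p * ((M : ℝ) ^ (δ / 2))⁻¹ := by
        rw [← Real.rpow_add hMp, ← Real.rpow_neg hMp.le]
        congr 2
        ring
    _ ≤ (M : ℝ) ^ (δ / 2) * ε * ((M : ℝ) ^ (δ / 2))⁻¹ := by gcongr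
    _ = ε := by field_simp

/-- common constants for the word tests -/
lemma TW_all {b : ℕ} {A : ℝ} {S : ℕ → Set (Measure ℝ)} (h : ∀ t, KE.TW b t A S) (T : ℕ) :
    ∃ δ : ℝ, 0 < δ ∧ ∃ C : ℝ, 0 ≤ C ∧ ∀ M : ℕ, 1 ≤ M → ∀ P ∈ S M, ∀ t ≤ T,
      ∀ n w c : Fin t → ℕ, (∀ i, (n i : ℝ) + w i ≤ A * log M) →
      |P.real (KE.WE b n w c) - Leb.real (KE.WE b n w c)| ≤ C * (M : ℝ) ^ (-δ) := by
  have hstep : ∀ t, ∃ δ : ℝ, 0 < δ ∧ ∃ C : ℝ, 0 ≤ C ∧ ∀ M : ℕ, 1 ≤ M → ∀ P ∈ S M,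
      ∀ n w c : Fin t → ℕ, (∀ i, (n i : ℝ) + w i ≤ A * log M) →
      |P.real (KE.WE b n w c) - Leb.real (KE.WE b n w c)| ≤ C * (M : ℝ) ^ (-δ) := by
    intro t
    obtain ⟨δ, hδ, C, hC⟩ := h t
    refine ⟨δ, hδ, |C|, abs_nonneg _, fun M hM P hP n w c hn => (hC M hM P hP n w c hn).trans ?_⟩
    exact mul_le_mul_of_nonneg_right (le_abs_self C) (by positivity)
  induction T with
  | zero =>
    obtain ⟨δ, hδ, C, hC0, hC⟩ := hstep 0
    refine ⟨δ, hδ, C, hC0, fun M hM P hP t ht => ?_⟩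
    obtain rfl : t = 0 := by omega
    exact hC M hM P hP
  | succ T ih =>
    obtain ⟨δ, hδ, C, hC0, hC⟩ := ih
    obtain ⟨δ', hδ', C', hC0', hC'⟩ := hstep (T + 1)
    refine ⟨min δ δ', lt_min hδ hδ', C + C', by positivity, fun M hM P hP t ht n w c hn => ?_⟩
    have hM1 : (1 : ℝ) ≤ M := by exact_mod_cast hM
    have h1 : (M : ℝ) ^ (-δ) ≤ (M : ℝ) ^ (-min δ δ') :=
      Real.rpow_le_rpow_of_exponent_le hM1 (neg_le_neg (min_le_left _ _))
    have h2 : (M : ℝ) ^ (-δ') ≤ (M : ℝ) ^ (-min δ δ') :=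
      Real.rpow_le_rpow_of_exponent_le hM1 (neg_le_neg (min_le_right _ _))
    have h3 : 0 ≤ (M : ℝ) ^ (-min δ δ') := by positivity
    rcases Nat.lt_or_ge t (T + 1) with hlt | hge
    · refine (hC M hM P hP t (by omega) n w c hn).trans ?_
      calc C * (M : ℝ) ^ (-δ) ≤ C * (M : ℝ) ^ (-min δ δ') := by gcongr
        _ ≤ (C + C') * (M : ℝ) ^ (-min δ δ') := by
            apply mul_le_mul_of_nonneg_right _ h3
            linarith
    · obtain rfl : t = T + 1 := by omega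
      refine (hC' M hM P hP n w c hn).trans ?_
      calc C' * (M : ℝ) ^ (-δ') ≤ C' * (M : ℝ) ^ (-min δ δ') := by gcongr
        _ ≤ (C + C') * (M : ℝ) ^ (-min δ δ') := by
            apply mul_le_mul_of_nonneg_right _ h3
            linarith

/-- simplified bound for the second moment -/
lemma second' (r : ℕ) {Λ : ℝ} (hΛ : 1 ≤ Λ) : ∃ C : ℝ, 0 ≤ C ∧
    ∀ (b k s N : ℕ) (P : Measure ℝ) (_ : IsProbabilityMeasure P) (Δ : ℝ), 2 ≤ b → 1 ≤ k → 1 ≤ N →
      0 ≤ Δ → Ht b k s N (4 * r + 2) P Δ → (N : ℝ) ≤ Λ * (b : ℝ) ^ k →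
      ∫ x, (Ph b k s N r x - (N / (b : ℝ) ^ k) ^ r) ^ 2 ∂P ≤
        C * ((k : ℝ) ^ (4 * r + 1) * (1 / √(b : ℝ)) ^ k +
          ((b : ℝ) ^ k) ^ 2 * (N : ℝ) ^ (4 * r + 1) * Δ) := by
  set F : ℝ := ((4 * r)! : ℝ) * exp (2 * (Λ + 1)) with hF
  have hF0 : 0 ≤ F := by positivity
  refine ⟨1 + 3 * Λ + 2 + F + 1 + 4 * r ^ 2 * Λ ^ (2 * r) + 2 * Λ ^ r, by positivity,
    fun b k s N P _ Δ hb hk hN hΔ hT hNΛ => ?_⟩
  have hb1 : 1 ≤ b := by omega
  have hbR : (1 : ℝ) ≤ b := by exact_mod_cast hb1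
  have hb0 : (0 : ℝ) < b := by linarith
  have hkR : (1 : ℝ) ≤ k := by exact_mod_cast hk
  have hNR : (1 : ℝ) ≤ N := by exact_mod_cast hN
  set W : ℝ := (b : ℝ) ^ k with hW
  have hW1 : 1 ≤ W := one_le_pow₀ hbR
  have hW0 : 0 < W := by linarith
  have hsW : (1 / √(b : ℝ)) ^ k = 1 / √W := by
    rw [div_pow, one_pow]
    congr 1
    have h1 : (√(b : ℝ) ^ k) ^ 2 = W := by
      rw [← pow_mul, Nat.mul_comm, pow_mul, Real.sq_sqrt hb0.le]
    rw [← h1, Real.sqrt_sq (by positivity)]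
  set q : ℝ := √W with hq
  have hq1 : 1 ≤ q := Real.one_le_sqrt.2 hW1
  have hq0 : 0 < q := by linarith
  have hqq : q * q = W := Real.mul_self_sqrt hW0.le
  have hqW : q ≤ W := by rw [← hqq]; nlinarith
  have hkW : (k : ℝ) ≤ W := by
    have h1 : k < b ^ k := Nat.lt_pow_self (by omega)
    rw [hW]
    exact_mod_cast h1.le
  set lam : ℝ := N / W with hlam
  have hlam0 : 0 ≤ lam := by positivity
  have hlamΛ : lam ≤ Λ := by rw [hlam, div_le_iff₀ hW0]; exact hNΛ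
  have key := second (P := P) hb hk hN r hΔ hT (by omega) (by omega) hq0
  rw [← hW, ← hlam] at key
  rw [hsW]
  refine key.trans ?_
  have hkp : (k : ℝ) ≤ (k : ℝ) ^ (4 * r + 1) := by
    calc (k : ℝ) = (k : ℝ) ^ 1 := (pow_one _).symm
      _ ≤ (k : ℝ) ^ (4 * r + 1) := pow_le_pow_right₀ hkR (by omega)
  have hkp4 : (k : ℝ) ^ (4 * r) ≤ (k : ℝ) ^ (4 * r + 1) := pow_le_pow_right₀ hkR (by omega)
  set E1 : ℝ := (k : ℝ) ^ (4 * r + 1) * (1 / q) with hE1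
  set E2 : ℝ := W ^ 2 * (N : ℝ) ^ (4 * r + 1) * Δ with hE2
  have hE10 : 0 ≤ E1 := by positivity
  have hE20 : 0 ≤ E2 := by positivity
  have hW2 : 1 ≤ W ^ 2 := one_le_pow₀ hW1
  -- the terms
  have t1 : (N : ℝ) ^ (r + r) * Δ ≤ E2 := by
    rw [hE2]
    calc (N : ℝ) ^ (r + r) * Δ ≤ (N : ℝ) ^ (4 * r + 1) * Δ :=
          mul_le_mul_of_nonneg_right (pow_le_pow_right₀ hNR (by omega)) hΔ
      _ = 1 * (N : ℝ) ^ (4 * r + 1) * Δ := by ring
      _ ≤ W ^ 2 * (N : ℝ) ^ (4 * r + 1) * Δ := by gcongr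
  have t2 : q * (k * N * (3 / W ^ 2)) ≤ 3 * Λ * E1 := by
    have e1 : q * (k * N * (3 / W ^ 2)) = 3 * lam * (k * (1 / q)) := by
      rw [hlam, ← hqq]
      field_simp
    rw [e1, hE1]
    gcongr
  have t3 : q * (k * N * (2 * Δ)) ≤ 2 * E2 := by
    rw [hE2]
    have h1 : (N : ℝ) ≤ (N : ℝ) ^ (4 * r + 1) := by
      calc (N : ℝ) = (N : ℝ) ^ 1 := (pow_one _).symm
        _ ≤ (N : ℝ) ^ (4 * r + 1) := pow_le_pow_right₀ hNR (by omega)
    calc q * (k * N * (2 * Δ)) ≤ W * (W * (N : ℝ) ^ (4 * r + 1) * (2 * Δ)) := by gcongr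
      _ = 2 * (W ^ 2 * (N : ℝ) ^ (4 * r + 1) * Δ) := by ring
  have t4 : q⁻¹ * ((k : ℝ) ^ (4 * r) * ((4 * r)! : ℝ) * exp (2 * (lam + 1))) ≤ F * E1 := by
    rw [hE1, hF]
    have h1 : exp (2 * (lam + 1)) ≤ exp (2 * (Λ + 1)) := exp_le_exp.2 (by linarith)
    calc q⁻¹ * ((k : ℝ) ^ (4 * r) * ((4 * r)! : ℝ) * exp (2 * (lam + 1)))
        ≤ q⁻¹ * ((k : ℝ) ^ (4 * r + 1) * ((4 * r)! : ℝ) * exp (2 * (Λ + 1))) := by gcongr
      _ = ((4 * r)! : ℝ) * exp (2 * (Λ + 1)) * ((k : ℝ) ^ (4 * r + 1) * (1 / q)) := by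
          rw [one_div]; ring
  have t4' : 0 ≤ q⁻¹ * ((k : ℝ) ^ (4 * r) * ((4 * r)! : ℝ) * exp (2 * (lam + 1))) := by positivity
  have t5 : q⁻¹ * ((N : ℝ) ^ (4 * r) * Δ) ≤ E2 := by
    rw [hE2]
    have h1 : q⁻¹ ≤ 1 := inv_le_one_of_one_le₀ hq1
    calc q⁻¹ * ((N : ℝ) ^ (4 * r) * Δ) ≤ 1 * ((N : ℝ) ^ (4 * r + 1) * Δ) :=
          mul_le_mul h1 (mul_le_mul_of_nonneg_right (pow_le_pow_right₀ hNR (by omega)) hΔ)
            (by positivity) zero_le_one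
      _ = 1 * (N : ℝ) ^ (4 * r + 1) * Δ := by ring
      _ ≤ W ^ 2 * (N : ℝ) ^ (4 * r + 1) * Δ := by gcongr
  have t6 : 4 * lam ^ r * (r ^ 2 * k * ((N : ℝ) ^ (r - 1) * (1 / W) ^ r)) ≤
      4 * r ^ 2 * Λ ^ (2 * r) * E1 := by
    rcases Nat.eq_zero_or_pos r with hr | hr
    · subst hr; simp
    · have h1 : (N : ℝ) ^ (r - 1) * (1 / W) ^ r ≤ Λ ^ r * (1 / q) := by
        have e1 : (N : ℝ) ^ (r - 1) * (1 / W) ^ r = lam ^ (r - 1) * (1 / W) := by
          obtain ⟨r', rfl⟩ : ∃ r', r = r' + 1 := ⟨r - 1, by omega⟩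
          rw [Nat.add_sub_cancel, hlam, pow_succ (1 / W), div_pow, div_pow, one_pow]
          field_simp
        rw [e1]
        have h2 : lam ^ (r - 1) ≤ Λ ^ r := by
          calc lam ^ (r - 1) ≤ Λ ^ (r - 1) := by gcongr
            _ ≤ Λ ^ r := pow_le_pow_right₀ hΛ (by omega)
        have h3 : 1 / W ≤ 1 / q := one_div_le_one_div_of_le hq0 hqW
        exact mul_le_mul h2 h3 (by positivity) (by positivity)
      have h2 : lam ^ r ≤ Λ ^ r := by gcongr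
      rw [hE1]
      calc 4 * lam ^ r * (r ^ 2 * k * ((N : ℝ) ^ (r - 1) * (1 / W) ^ r)) ≤
            4 * Λ ^ r * (r ^ 2 * (k : ℝ) ^ (4 * r + 1) * (Λ ^ r * (1 / q))) := by gcongr
        _ = 4 * r ^ 2 * Λ ^ (2 * r) * ((k : ℝ) ^ (4 * r + 1) * (1 / q)) := by
            rw [Nat.mul_comm 2 r, pow_mul, sq (Λ ^ r)]
            ring
  have t7 : 2 * lam ^ r * ((N : ℝ) ^ r * Δ) ≤ 2 * Λ ^ r * E2 := by
    rw [hE2]
    have h2 : lam ^ r ≤ Λ ^ r := by gcongr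
    have h3 : (N : ℝ) ^ r ≤ (N : ℝ) ^ (4 * r + 1) := pow_le_pow_right₀ hNR (by omega)
    calc 2 * lam ^ r * ((N : ℝ) ^ r * Δ) ≤ 2 * Λ ^ r * ((N : ℝ) ^ (4 * r + 1) * Δ) := by
          refine mul_le_mul (by linarith) (mul_le_mul_of_nonneg_right h3 hΔ) (by positivity)
            (by positivity)
      _ = 2 * Λ ^ r * (1 * (N : ℝ) ^ (4 * r + 1) * Δ) := by ring
      _ ≤ 2 * Λ ^ r * (W ^ 2 * (N : ℝ) ^ (4 * r + 1) * Δ) := by gcongr
  have e3 : q * (k * N * (3 / W ^ 2 + 2 * Δ)) = q * (k * N * (3 / W ^ 2)) +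
      q * (k * N * (2 * Δ)) := by ring
  have e4 : q⁻¹ * ((k : ℝ) ^ (4 * r) * ((4 * r)! : ℝ) * exp (2 * (lam + 1)) +
      (N : ℝ) ^ (4 * r) * Δ) / 2 = (q⁻¹ * ((k : ℝ) ^ (4 * r) * ((4 * r)! : ℝ) *
        exp (2 * (lam + 1)))) / 2 + (q⁻¹ * ((N : ℝ) ^ (4 * r) * Δ)) / 2 := by ring
  rw [e3, e4]
  have hp1 : 0 ≤ 4 * (r : ℝ) ^ 2 * Λ ^ (2 * r) := by positivity
  have hp2 : 0 ≤ 2 * Λ ^ r := by positivity
  have m1 := mul_nonneg hp1 hE20
  have m2 := mul_nonneg hp2 hE10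
  have m3 := mul_nonneg hF0 hE20
  have m4 := mul_nonneg hF0 hE10
  nlinarith

section deterministic

variable {b k s : ℕ} {x : ℝ}

lemma sum_Xn (hb : 1 ≤ b) (N : ℕ) : ∑ w ∈ range (b ^ k), Xn b k s N w x = N := by
  have h1 : (range N).card = ∑ w ∈ range (b ^ k), Xn b k s N w x := by
    refine card_eq_sum_card_fiberwise (f := fun i => wd b k (s + i) x) fun i _ => ?_
    rw [Finset.mem_coe, mem_range]
    exact wd_lt hb k _ x
  rw [← h1, card_range]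

lemma Xn_mono {N' N : ℕ} (h : N' ≤ N) (w : ℕ) : Xn b k s N' w x ≤ Xn b k s N w x := by
  unfold Xn Oc
  exact card_le_card (filter_subset_filter _ (range_subset_range.2 h))

lemma card_ne (hb : 1 ≤ b) {N' N : ℕ} (h : N' ≤ N) :
    ((range (b ^ k)).filter (fun w => Xn b k s N' w x ≠ Xn b k s N w x)).card + N' ≤ N := by
  have h1 := sum_Xn (k := k) (s := s) (x := x) hb N'
  have h2 := sum_Xn (k := k) (s := s) (x := x) hb N
  have h3 : ∑ w ∈ range (b ^ k), ((if Xn b k s N' w x ≠ Xn b k s N w x then 1 else 0) +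
      Xn b k s N' w x) ≤ ∑ w ∈ range (b ^ k), Xn b k s N w x := by
    refine sum_le_sum fun w _ => ?_
    have := Xn_mono (b := b) (k := k) (s := s) (x := x) h w
    split_ifs with h4
    · omega
    · push Not at h4
      omega
  rw [sum_add_distrib, h1, h2, ← card_filter] at h3
  exact h3

open Classical in
lemma Z_diff (hb : 1 ≤ b) {N' N : ℕ} (h : N' ≤ N) (J : Set ℕ) :
    |(((range (b ^ k)).filter (fun w => Xn b k s N w x ∈ J)).card : ℝ) / (b : ℝ) ^ k -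
      (((range (b ^ k)).filter (fun w => Xn b k s N' w x ∈ J)).card : ℝ) / (b : ℝ) ^ k| ≤
      ((N : ℝ) - N') / (b : ℝ) ^ k := by
  have hb0 : (0 : ℝ) < b := by exact_mod_cast hb
  have hW : (0 : ℝ) < (b : ℝ) ^ k := by positivity
  set D := (range (b ^ k)).filter (fun w => Xn b k s N' w x ≠ Xn b k s N w x) with hD
  have h0 := card_ne (k := k) (s := s) (x := x) hb h
  have h0' : (D.card : ℝ) + N' ≤ N := by exact_mod_cast h0
  have h1 : (range (b ^ k)).filter (fun w => Xn b k s N w x ∈ J) ⊆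
      (range (b ^ k)).filter (fun w => Xn b k s N' w x ∈ J) ∪ D := by
    intro w hw
    rw [mem_filter] at hw
    rw [mem_union]
    by_cases h2 : Xn b k s N' w x = Xn b k s N w x
    · exact Or.inl (mem_filter.2 ⟨hw.1, by rw [h2]; exact hw.2⟩)
    · exact Or.inr (mem_filter.2 ⟨hw.1, h2⟩)
  have h2 : (range (b ^ k)).filter (fun w => Xn b k s N' w x ∈ J) ⊆
      (range (b ^ k)).filter (fun w => Xn b k s N w x ∈ J) ∪ D := by
    intro w hw
    rw [mem_filter] at hw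
    rw [mem_union]
    by_cases h2 : Xn b k s N' w x = Xn b k s N w x
    · exact Or.inl (mem_filter.2 ⟨hw.1, by rw [← h2]; exact hw.2⟩)
    · exact Or.inr (mem_filter.2 ⟨hw.1, h2⟩)
  have h3 := (card_le_card h1).trans (card_union_le _ _)
  have h4 := (card_le_card h2).trans (card_union_le _ _)
  have h3' : (((range (b ^ k)).filter (fun w => Xn b k s N w x ∈ J)).card : ℝ) ≤
      ((range (b ^ k)).filter (fun w => Xn b k s N' w x ∈ J)).card + D.card := by exact_mod_cast h3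
  have h4' : (((range (b ^ k)).filter (fun w => Xn b k s N' w x ∈ J)).card : ℝ) ≤
      ((range (b ^ k)).filter (fun w => Xn b k s N w x ∈ J)).card + D.card := by exact_mod_cast h4
  rw [← sub_div, abs_div, abs_of_pos hW, div_le_div_iff_of_pos_right hW, abs_le]
  constructor <;> linarith

open Classical in
/-- the case of a small mean -/
lemma small_mean (hb : 1 ≤ b) (N : ℕ) (lam : ℝ≥0) (hlam : (lam : ℝ) = N / (b : ℝ) ^ k)
    (J : Set ℕ) :
    |(((range (b ^ k)).filter (fun w => Xn b k s N w x ∈ J)).card : ℝ) / (b : ℝ) ^ k -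
      (poissonMeasure lam).real J| ≤ 2 * lam := by
  have hb0 : (0 : ℝ) < b := by exact_mod_cast hb
  have hW : (0 : ℝ) < (b : ℝ) ^ k := by positivity
  have h1 := Z_diff (k := k) (s := s) (x := x) hb (Nat.zero_le N) J
  have h2 : (((range (b ^ k)).filter (fun w => Xn b k s 0 w x ∈ J)).card : ℝ) / (b : ℝ) ^ k =
      if 0 ∈ J then 1 else 0 := by
    have h3 : ∀ w, Xn b k s 0 w x = 0 := fun w => by unfold Xn Oc; simp
    simp only [h3]
    by_cases h0 : (0 : ℕ) ∈ J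
    · simp only [h0, filter_true, card_range, if_true]
      push_cast
      field_simp
    · simp [h0]
  rw [h2, Nat.cast_zero, sub_zero, ← hlam] at h1
  have h3 : |(if 0 ∈ J then (1 : ℝ) else 0) - (poissonMeasure lam).real J| ≤ lam := by
    have h4 : (poissonMeasure lam).real {0} = exp (-lam) := by
      rw [poissonMeasure_real_singleton]; simp
    have h5 : 1 - (lam : ℝ) ≤ exp (-lam) := by
      have := Real.add_one_le_exp (-(lam : ℝ))
      linarith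
    split_ifs with h0
    · have h6 : (poissonMeasure lam).real {0} ≤ (poissonMeasure lam).real J :=
        measureReal_mono (Set.singleton_subset_iff.2 h0)
      have h7 : (poissonMeasure lam).real J ≤ 1 := measureReal_le_one
      rw [abs_of_nonneg (by linarith)]
      linarith
    · have h6 : (poissonMeasure lam).real J ≤ (poissonMeasure lam).real ({0}ᶜ) := by
        refine measureReal_mono fun y hy => ?_
        rw [Set.mem_compl_iff, Set.mem_singleton_iff]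
        rintro rfl
        exact h0 hy
      rw [probReal_compl_eq_one_sub (MeasurableSet.of_discrete)] at h6
      rw [zero_sub, abs_neg, abs_of_nonneg measureReal_nonneg]
      linarith
  have h4 := abs_sub_le ((((range (b ^ k)).filter (fun w => Xn b k s N w x ∈ J)).card : ℝ) /
    (b : ℝ) ^ k) (if 0 ∈ J then (1 : ℝ) else 0) ((poissonMeasure lam).real J)
  linarith

end deterministic

end Pool.Agent.Y933.KF
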