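import Pool.Agent.Y933.KF.Second
import Pool.Agent.Y933.KE.NormW
import Pool.Agent.Y933.KD.VdC2

/-!
# Words of growing length (helper933)
-/

set_option autoImplicit false

namespace Pool.Agent.Y933.KF

open Finset Real MeasureTheory Filter Topology ProbabilityTheory
open Pool.Agent.Y933.KD

/-- the bad event: the number of occurrences among `L` places is off by `τ` -/
def Bd (b k s L w : ℕ) (τ : ℝ) : Set ℝ := {x | τ < |XR b k s L w x - L / (b : ℝ) ^ k|}

lemma measurableSet_Bd (b k s L w : ℕ) (τ : ℝ) : MeasurableSet (Bd b k s L w τ) :=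
  measurableSet_lt measurable_const ((measurable_XR _ _ _ _ _).sub_const _).abs

lemma XR_shift (b k s L w : ℕ) (x : ℝ) : XR b k s L w x = XR b k 0 L w (Tb b s x) := by
  unfold XR
  refine sum_congr rfl fun i _ => ?_
  rw [Xw_add, Nat.zero_add]

lemma XR_zero_mono (b k w : ℕ) {L L' : ℕ} (h : L ≤ L') (x : ℝ) :
    XR b k 0 L w x ≤ XR b k 0 L' w x := by
  unfold XR
  exact sum_le_sum_of_subset_of_nonneg (range_subset_range.2 h) fun _ _ _ => Iw_nonneg _ _

lemma int_exp_XR {b k w : ℕ} (hb : 1 ≤ b) (hk : 1 ≤ k) (hw : w < b ^ k) (c : ℝ) (J : ℕ) :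
    ∫ x, exp (c * XR b k 0 (k * J) w x) ∂Leb ≤ exp ((exp (c * k) - 1) / (b : ℝ) ^ k * J) := by
  have := exp_blocks_ind hb hk hw c J
  unfold XR
  simp only [Nat.zero_add]
  exact this

lemma integrable_exp_XR {b k w : ℕ} (c : ℝ) (L : ℕ) :
    Integrable (fun x => exp (c * XR b k 0 L w x)) Leb := by
  refine integrable_of_bdd (Real.measurable_exp.comp ((measurable_XR _ _ _ _ _).const_mul c))
    (R := exp (|c| * L)) fun x => ?_
  rw [abs_of_pos (exp_pos _)]
  apply exp_le_exp.2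
  refine (le_abs_self _).trans ?_
  rw [abs_mul, abs_of_nonneg (XR_nonneg _ _ _ _ _ _)]
  gcongr
  exact XR_le _ _ _ _ _ _

lemma markov {f : ℝ → ℝ} (hf0 : ∀ x, 0 ≤ f x) (hf : Integrable f Leb) {E : Set ℝ} {a : ℝ}
    (ha : 0 < a) (hE : ∀ x ∈ E, a ≤ f x) : Leb.real E ≤ (∫ x, f x ∂Leb) / a := by
  have h1 := mul_meas_ge_le_integral_of_nonneg (μ := Leb) (Eventually.of_forall hf0) hf a
  have h2 : Leb.real E ≤ Leb.real {x | a ≤ f x} := measureReal_mono hE
  rw [le_div_iff₀ ha]
  calc Leb.real E * a ≤ Leb.real {x | a ≤ f x} * a := by gcongr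
    _ = a * Leb.real {x | a ≤ f x} := mul_comm _ _
    _ ≤ _ := h1

lemma exp_sub_le {τ : ℝ} (h0 : 0 ≤ τ) (h1 : τ ≤ 1) : exp τ - 1 ≤ τ + τ ^ 2 := by
  have := Real.abs_exp_sub_one_sub_id_le (x := τ) (by rw [abs_of_nonneg h0]; exact h1)
  have := (abs_le.1 this).2
  linarith

lemma exp_neg_sub_le {τ : ℝ} (h0 : 0 ≤ τ) (h1 : τ ≤ 1) : exp (-τ) - 1 ≤ -τ + τ ^ 2 := by
  have := Real.abs_exp_sub_one_sub_id_le (x := -τ) (by rw [abs_neg, abs_of_nonneg h0]; exact h1)
  have := (abs_le.1 this).2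
  linarith [neg_sq τ]

/-- large deviations -/
lemma chernoff {b k w : ℕ} (hb : 2 ≤ b) (hk : 1 ≤ k) (hw : w < b ^ k) (s L : ℕ) {ε : ℝ}
    (hε : 0 < ε) (hε1 : ε ≤ 1) :
    Leb.real (Bd b k s L w (ε * (L / (b : ℝ) ^ k))) ≤
      2 * exp (2 - ε ^ 2 * L / (4 * (k * (b : ℝ) ^ k))) := by
  have hb1 : 1 ≤ b := by omega
  have hbR : (2 : ℝ) ≤ b := by exact_mod_cast hb
  have hb0 : (0 : ℝ) < b := by linarith
  have hkR : (1 : ℝ) ≤ k := by exact_mod_cast hk
  have hk0 : (0 : ℝ) < k := by linarith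
  set W : ℝ := (b : ℝ) ^ k with hW
  have hW1 : 1 ≤ W := one_le_pow₀ (by linarith)
  have hW0 : 0 < W := by linarith
  set τ : ℝ := ε / 2 with hτ
  have hτ0 : 0 ≤ τ := by positivity
  have hτ1 : τ ≤ 1 := by linarith
  set μ : ℝ := L / W with hμ
  have hμ0 : 0 ≤ μ := by positivity
  -- reduction to the place zero
  have h0 : Leb.real (Bd b k s L w (ε * μ)) = Leb.real (Bd b k 0 L w (ε * μ)) := by
    rw [← integral_indicator_one (measurableSet_Bd _ _ _ _ _ _),
      ← integral_indicator_one (measurableSet_Bd _ _ _ _ _ _)]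
    rw [← invariance_real (b := b) (p := s) hb1 (h := fun y =>
      (Bd b k 0 L w (ε * μ)).indicator (1 : ℝ → ℝ) y)
      (measurable_const.indicator (measurableSet_Bd _ _ _ _ _ _)) (C := 1) (fun x => by
        by_cases hx : x ∈ Bd b k 0 L w (ε * μ)
        · rw [Set.indicator_of_mem hx]; simp
        · rw [Set.indicator_of_notMem hx]; simp)]
    congr 1
    ext x
    have h1 : x ∈ Bd b k s L w (ε * μ) ↔ Tb b s x ∈ Bd b k 0 L w (ε * μ) := by
      unfold Bd
      simp only [Set.mem_ofPred_eq]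
      rw [XR_shift]
    by_cases hx : x ∈ Bd b k s L w (ε * μ)
    · rw [Set.indicator_of_mem hx, Set.indicator_of_mem (h1.1 hx)]
      rfl
    · rw [Set.indicator_of_notMem hx, Set.indicator_of_notMem (fun h => hx (h1.2 h))]
  rw [h0]
  set E1 : Set ℝ := {x | (1 + ε) * μ ≤ XR b k 0 L w x} with hE1
  set E2 : Set ℝ := {x | XR b k 0 L w x ≤ (1 - ε) * μ} with hE2
  have hsub : Bd b k 0 L w (ε * μ) ⊆ E1 ∪ E2 := by
    intro x hx
    have hx' : ε * μ < |XR b k 0 L w x - μ| := hx
    rcases lt_abs.1 hx' with h | h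
    · refine Or.inl ?_
      change (1 + ε) * μ ≤ XR b k 0 L w x
      linarith
    · refine Or.inr ?_
      change XR b k 0 L w x ≤ (1 - ε) * μ
      linarith
  have hdm := Nat.div_add_mod L k
  have hmod := Nat.mod_lt L (show k > 0 by omega)
  set q : ℕ := L / k with hq
  have hqle : (q : ℝ) ≤ L / k := by
    rw [le_div_iff₀ hk0]
    have : q * k ≤ L := Nat.div_mul_le_self L k
    exact_mod_cast this
  have hqge : (L : ℝ) / k ≤ q + 1 := by
    rw [div_le_iff₀ hk0]
    have h1 : L ≤ (q + 1) * k := by rw [Nat.add_mul, Nat.mul_comm q k]; omega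
    exact_mod_cast h1
  -- the upper tail
  have hup : Leb.real E1 ≤ exp (2 - ε ^ 2 * L / (4 * (k * W))) := by
    have h1 := markov (f := fun x => exp (τ / k * XR b k 0 (k * (q + 1)) w x))
      (fun x => (exp_pos _).le) (integrable_exp_XR _ _) (E := E1)
      (a := exp (τ / k * ((1 + ε) * μ))) (exp_pos _) (fun x hx => by
        apply exp_le_exp.2
        have hx' : (1 + ε) * μ ≤ XR b k 0 L w x := hx
        have h2 : XR b k 0 L w x ≤ XR b k 0 (k * (q + 1)) w x := by
          apply XR_zero_mono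
          rw [Nat.mul_succ]
          omega
        gcongr
        exact hx'.trans h2)
    refine h1.trans ?_
    have h2 := int_exp_XR hb1 hk hw (τ / k) (q + 1)
    have e1 : τ / (k : ℝ) * k = τ := by field_simp
    rw [e1] at h2
    rw [div_le_iff₀ (exp_pos _), ← Real.exp_add]
    refine h2.trans (exp_le_exp.2 ?_)
    have h3 := exp_sub_le hτ0 hτ1
    have h4 : (exp τ - 1) / W * ((q + 1 : ℕ) : ℝ) ≤ (τ + τ ^ 2) / W * (L / k + 1) := by
      push_cast
      gcongr
    have h5 : (τ + τ ^ 2) / W * (L / k + 1) = (τ + τ ^ 2) * (L / (k * W)) + (τ + τ ^ 2) / W := by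
      field_simp
    have h6 : (τ + τ ^ 2) / W ≤ 2 := by
      rw [div_le_iff₀ hW0]
      nlinarith
    have h7 : τ / k * ((1 + ε) * μ) = τ * (1 + ε) * (L / (k * W)) := by
      rw [hμ]; field_simp
    have h8 : ε ^ 2 * L / (4 * (k * W)) = ε ^ 2 / 4 * (L / (k * W)) := by
      field_simp
    rw [h7, h8]
    have h9 : (τ + τ ^ 2) * (L / (k * W)) = τ * (1 + ε) * (L / (k * W)) -
        ε ^ 2 / 4 * (L / (k * W)) := by
      rw [hτ]; ring
    linarith
  -- the lower tail
  have hlo : Leb.real E2 ≤ exp (2 - ε ^ 2 * L / (4 * (k * W))) := by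
    have h1 := markov (f := fun x => exp (-(τ / k) * XR b k 0 (k * q) w x))
      (fun x => (exp_pos _).le) (integrable_exp_XR _ _) (E := E2)
      (a := exp (-(τ / k) * ((1 - ε) * μ))) (exp_pos _) (fun x hx => by
        apply exp_le_exp.2
        have hx' : XR b k 0 L w x ≤ (1 - ε) * μ := hx
        have h2 : XR b k 0 (k * q) w x ≤ XR b k 0 L w x := by
          apply XR_zero_mono
          omega
        rw [neg_mul, neg_mul, neg_le_neg_iff]
        gcongr
        exact h2.trans hx')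
    refine h1.trans ?_
    have h2 := int_exp_XR hb1 hk hw (-(τ / k)) q
    have e1 : -(τ / (k : ℝ)) * k = -τ := by field_simp
    rw [e1] at h2
    rw [div_le_iff₀ (exp_pos _), ← Real.exp_add]
    refine h2.trans (exp_le_exp.2 ?_)
    have h3 := exp_neg_sub_le hτ0 hτ1
    have h30 : -τ + τ ^ 2 ≤ 0 := by nlinarith
    have h4 : (exp (-τ) - 1) / W * (q : ℝ) ≤ (-τ + τ ^ 2) / W * (L / k - 1) := by
      calc (exp (-τ) - 1) / W * (q : ℝ) ≤ (-τ + τ ^ 2) / W * q := by gcongr
        _ ≤ (-τ + τ ^ 2) / W * (L / k - 1) := by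
            apply mul_le_mul_of_nonpos_left
            · linarith
            · exact div_nonpos_of_nonpos_of_nonneg h30 hW0.le
    have h5 : (-τ + τ ^ 2) / W * (L / k - 1) = (-τ + τ ^ 2) * (L / (k * W)) - (-τ + τ ^ 2) / W := by
      field_simp
    have h6 : -((-τ + τ ^ 2) / W) ≤ 2 := by
      rw [← neg_div, div_le_iff₀ hW0]
      nlinarith
    have h7 : -(τ / k) * ((1 - ε) * μ) = -(τ * (1 - ε) * (L / (k * W))) := by
      rw [hμ]; field_simp
    have h8 : ε ^ 2 * L / (4 * (k * W)) = ε ^ 2 / 4 * (L / (k * W)) := by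
      field_simp
    rw [h7, h8]
    have h9 : (-τ + τ ^ 2) * (L / (k * W)) = -(τ * (1 - ε) * (L / (k * W))) -
        ε ^ 2 / 4 * (L / (k * W)) := by
      rw [hτ]; ring
    linarith
  calc Leb.real (Bd b k 0 L w (ε * μ)) ≤ Leb.real (E1 ∪ E2) := measureReal_mono hsub
    _ ≤ Leb.real E1 + Leb.real E2 := measureReal_union_le _ _
    _ ≤ _ := by linarith

/-- blocks of `L` places cover all windows -/
lemma det_grow {b k w L : ℕ} {ε T x : ℝ} (hL : 1 ≤ L) (hε : 0 ≤ ε) (hε1 : ε ≤ 1) (hb : 1 ≤ b)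
    (h : ∀ s' : ℕ, (s' : ℝ) ≤ T → |XR b k s' L w x - L / (b : ℝ) ^ k| ≤ ε * (L / (b : ℝ) ^ k))
    (s N : ℕ) (hsN : (s : ℝ) + N ≤ T) :
    |XR b k s N w x - N / (b : ℝ) ^ k| ≤ (ε * N + 2 * L) / (b : ℝ) ^ k := by
  have hb0 : (0 : ℝ) < b := by exact_mod_cast hb
  set W : ℝ := (b : ℝ) ^ k with hW
  have hW0 : 0 < W := by positivity
  have hsplit : ∀ s a c : ℕ, XR b k s (a + c) w x = XR b k s a w x + XR b k (s + a) c w x := by
    intro s a c
    unfold XR
    rw [sum_range_add]
    congr 1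
    refine sum_congr rfl fun i _ => ?_
    rw [Nat.add_assoc]
  have hblocks : ∀ q : ℕ, ((s + L * q : ℕ) : ℝ) ≤ T →
      |XR b k s (L * q) w x - (L * q : ℕ) / W| ≤ q * (ε * (L / W)) := by
    intro q
    induction q with
    | zero => intro _; simp [XR]
    | succ q ih =>
      intro hq
      have hq' : ((s + L * q : ℕ) : ℝ) ≤ T := by
        refine le_trans ?_ hq
        have : s + L * q ≤ s + L * (q + 1) := by
          rw [Nat.mul_succ]
          omega
        exact_mod_cast this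
      have h1 := ih hq'
      have h2 := h (s + L * q) hq'
      rw [Nat.mul_succ, hsplit]
      have e1 : XR b k s (L * q) w x + XR b k (s + L * q) L w x - ((L * q + L : ℕ) : ℝ) / W =
          (XR b k s (L * q) w x - (L * q : ℕ) / W) + (XR b k (s + L * q) L w x - L / W) := by
        push_cast
        ring
      rw [e1]
      refine (abs_add_le _ _).trans ?_
      push_cast at h1 h2 ⊢
      linarith
  have hdm := Nat.div_add_mod N L
  have hmod := Nat.mod_lt N (show L > 0 by omega)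
  set q := N / L with hq
  set r := N % L with hr
  have hsT : ((s + L * q : ℕ) : ℝ) ≤ T := by
    refine le_trans ?_ hsN
    have : s + L * q ≤ s + N := by omega
    exact_mod_cast this
  have h1 := hblocks q hsT
  have h2 := h (s + L * q) hsT
  have h3 : XR b k (s + L * q) r w x ≤ XR b k (s + L * q) L w x := by
    unfold XR
    exact sum_le_sum_of_subset_of_nonneg (range_subset_range.2 hmod.le) fun _ _ _ => Iw_nonneg _ _
  have h4 := XR_nonneg b k (s + L * q) r w x
  have h5 : XR b k s N w x = XR b k s (L * q) w x + XR b k (s + L * q) r w x := by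
    rw [← hsplit, hdm]
  have hrL : (r : ℝ) ≤ L := by exact_mod_cast hmod.le
  have h6 : |XR b k (s + L * q) r w x - r / W| ≤ 2 * (L / W) := by
    have h7 := (abs_le.1 h2).2
    have h8 : (r : ℝ) / W ≤ L / W := by gcongr
    have h9 : 0 ≤ (r : ℝ) / W := by positivity
    have h10 : 0 ≤ (L : ℝ) / W := by positivity
    have h11 : ε * (L / W) ≤ 1 * (L / W) := by gcongr
    rw [abs_le]
    constructor <;> linarith
  have h7 : (N : ℝ) = ((L * q : ℕ) : ℝ) + r := by exact_mod_cast hdm.symm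
  have e2 : XR b k s N w x - N / W = (XR b k s (L * q) w x - (L * q : ℕ) / W) +
      (XR b k (s + L * q) r w x - r / W) := by
    rw [h5, h7]
    ring
  rw [e2]
  refine (abs_add_le _ _).trans ?_
  have h8 : (q : ℝ) * (ε * (L / W)) ≤ ε * N / W := by
    have : ((L * q : ℕ) : ℝ) ≤ N := by
      have : L * q ≤ N := by omega
      exact_mod_cast this
    push_cast at this
    rw [mul_div_assoc', mul_div_assoc', div_le_div_iff_of_pos_right hW0]
    nlinarith
  calc _ ≤ q * (ε * (L / W)) + 2 * (L / W) := add_le_add h1 h6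
    _ ≤ ε * N / W + 2 * (L / W) := by gcongr
    _ = _ := by ring

end Pool.Agent.Y933.KF
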