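import Pool.Agent.Y933.KF.Grow
import Pool.Agent.Y933.KF.Fam

/-!
# Words of growing length: main theorem (helper933)
-/

set_option autoImplicit false

namespace Pool.Agent.Y933.KF

open Finset Real MeasureTheory Filter Topology ProbabilityTheory
open Pool.Agent.Y933.KD

lemma grow_ev {a : ℝ} (ha : 0 < a) (D : ℝ) : ∀ᶠ t : ℝ in atTop, D * (t + 1) ^ 3 ≤ exp (t ^ a) := by
  have h1 : ∀ᶠ x : ℝ in atTop, x ^ (4 / a) ≤ exp x := by
    have := (isLittleO_rpow_exp_atTop (4 / a)).bound one_pos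
    filter_upwards [this, eventually_ge_atTop 0] with x hx hx0
    rw [Real.norm_of_nonneg (by positivity), Real.norm_of_nonneg (exp_pos x).le, one_mul] at hx
    exact hx
  have h2 := (tendsto_rpow_atTop ha).eventually h1
  filter_upwards [h2, eventually_ge_atTop 1, eventually_ge_atTop (8 * |D|)] with t ht ht1 htD
  have ht0 : 0 < t := by linarith
  have e1 : (t ^ a) ^ (4 / a) = t ^ 4 := by
    rw [← Real.rpow_mul ht0.le]
    have : a * (4 / a) = (4 : ℕ) := by push_cast; field_simp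
    rw [this, Real.rpow_natCast]
  rw [e1] at ht
  refine le_trans ?_ ht
  have h3 : (t + 1) ^ 3 ≤ 8 * t ^ 3 := by
    calc (t + 1) ^ 3 ≤ (2 * t) ^ 3 := by gcongr; linarith
      _ = 8 * t ^ 3 := by ring
  calc D * (t + 1) ^ 3 ≤ |D| * (8 * t ^ 3) := by
        refine mul_le_mul (le_abs_self D) h3 (by positivity) (abs_nonneg _)
    _ = 8 * |D| * t ^ 3 := by ring
    _ ≤ t * t ^ 3 := by gcongr
    _ = t ^ 4 := by ring

lemma pow_ev {a c : ℝ} (hac : a < c) (D : ℝ) : ∀ᶠ t : ℝ in atTop, D * t ^ a ≤ t ^ c := by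
  filter_upwards [(tendsto_rpow_atTop (sub_pos.2 hac)).eventually_ge_atTop D,
    eventually_gt_atTop 0] with t ht ht0
  calc D * t ^ a ≤ t ^ (c - a) * t ^ a := by gcongr
    _ = t ^ c := by rw [← Real.rpow_add ht0]; congr 1; ring

/-- **words of growing length** -/
theorem grow_TW {b : ℕ} (hb : 2 ≤ b) {A ε : ℝ} (hε : 0 < ε) (hε1 : ε ≤ 1)
    {S : ℕ → Set (Measure ℝ)} (hS : ∀ M, 1 ≤ M → ∀ P ∈ S M, IsProbabilityMeasure P)
    (hT : KE.TW b 1 (A + 1) S) :
    ∃ M0 : ℕ, ∀ M : ℕ, M0 ≤ M → ∃ U : Set ℝ, MeasurableSet U ∧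
      (∀ P ∈ S M, P.real U ≤ exp (-(log M) ^ (ε / 2))) ∧
      ∀ x, x ∉ U → ∀ k w s N : ℕ, 1 ≤ k → (b : ℝ) ^ k ≤ (log M) ^ (1 - ε) → w < b ^ k →
        (s : ℝ) + N ≤ A * log M →
        |XR b k s N w x - N / (b : ℝ) ^ k| ≤ ε * log M / (b : ℝ) ^ k := by
  obtain ⟨δ, hδ, C, hC⟩ := hT
  have hb1 : 1 ≤ b := by omega
  have hbR : (2 : ℝ) ≤ b := by exact_mod_cast hb
  -- parameters
  set A1 : ℝ := max A 1 with hA1
  have hA1' : 1 ≤ A1 := le_max_right _ _
  have hA1A : A ≤ A1 := le_max_left _ _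
  set ε' : ℝ := ε / (2 * A1) with hε'
  have hε'0 : 0 < ε' := by positivity
  have hε'1 : ε' ≤ 1 := by
    rw [hε', div_le_one (by positivity)]
    linarith
  set lB : ℝ := log (b : ℝ) with hlB
  have hlB0 : 0 < lB := Real.log_pos (by linarith)
  set κ : ℝ := min (min (ε / 4) 1) (δ / (2 * lB)) with hκ
  have hκ0 : 0 < κ := lt_min (lt_min (by positivity) one_pos) (by positivity)
  have hκε : κ ≤ ε / 4 := (min_le_left _ _).trans (min_le_left _ _)
  have hκ1 : κ ≤ 1 := (min_le_left _ _).trans (min_le_right _ _)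
  have hκδ : κ * lB ≤ δ / 2 := by
    have : κ ≤ δ / (2 * lB) := min_le_right _ _
    calc κ * lB ≤ δ / (2 * lB) * lB := by gcongr
      _ = δ / 2 := by field_simp
  set c1 : ℝ := ε' ^ 2 * κ * ε / 64 with hc1
  have hc10 : 0 < c1 := by positivity
  set D : ℝ := (A1 + 1) * (2 * exp 2 + |C|) with hD
  have hD0 : 0 ≤ D := by positivity
  -- large `t`
  have hev : ∀ᶠ t : ℝ in atTop, 1 ≤ t ∧ D * (t + 1) ^ 3 ≤ exp (t ^ (ε / 2)) ∧
      2 / c1 * t ^ (ε / 2) ≤ t ^ (3 * ε / 4) ∧ 4 / δ * t ^ (ε / 2) ≤ t ^ (1 : ℝ) ∧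
      16 / (ε * κ) * t ^ (ε / 4) ≤ t ^ (1 : ℝ) ∧ 8 / ε * t ^ (ε / 4) ≤ t ^ (1 : ℝ) := by
    filter_upwards [eventually_ge_atTop 1, grow_ev (show 0 < ε / 2 by positivity) D,
      pow_ev (show ε / 2 < 3 * ε / 4 by linarith) (2 / c1),
      pow_ev (show ε / 2 < 1 by linarith) (4 / δ),
      pow_ev (show ε / 4 < 1 by linarith) (16 / (ε * κ)),
      pow_ev (show ε / 4 < 1 by linarith) (8 / ε)] with t h1 h2 h3 h4 h5 h6
    exact ⟨h1, h2, h3, h4, h5, h6⟩
  have hlog : Tendsto (fun M : ℕ => log (M : ℝ)) atTop atTop :=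
    Real.tendsto_log_atTop.comp tendsto_natCast_atTop_atTop
  obtain ⟨M1, hM1⟩ := eventually_atTop.1 (hlog.eventually hev)
  refine ⟨max M1 2, fun M hM => ?_⟩
  obtain ⟨ht1, hev1, hev2, hev3, hev4, hev5⟩ := hM1 M (le_of_max_le_left hM)
  have hM4 : 2 ≤ M := le_of_max_le_right hM
  have hMR : (2 : ℝ) ≤ M := by exact_mod_cast hM4
  have hMp : (0 : ℝ) < M := by linarith
  set t : ℝ := log M with ht
  have ht0 : 0 < t := by linarith
  rw [Real.rpow_one] at hev3 hev4 hev5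
  -- the length of the words
  have hklen : ∀ k : ℕ, (b : ℝ) ^ k ≤ t ^ (1 - ε) → (k : ℝ) ≤ 8 / ε * t ^ (ε / 4) := by
    intro k hk
    have h1 : (k : ℝ) * lB ≤ (1 - ε) * log t := by
      have := Real.log_le_log (by positivity) hk
      rwa [Real.log_pow, Real.log_rpow ht0] at this
    have h2 : 0 ≤ log t := Real.log_nonneg ht1
    have h3 : log t ≤ t ^ (ε / 4) / (ε / 4) := Real.log_le_rpow_div ht0.le (by positivity)
    have h4 : (1 : ℝ) / 2 ≤ lB := by
      have h5 : log (2 : ℝ) ≤ lB := Real.log_le_log (by norm_num) hbR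
      have := Real.log_two_gt_d9
      linarith
    have h5 : (k : ℝ) * (1 / 2) ≤ log t := by
      calc (k : ℝ) * (1 / 2) ≤ k * lB := by gcongr
        _ ≤ (1 - ε) * log t := h1
        _ ≤ 1 * log t := by gcongr; linarith
        _ = log t := one_mul _
    have e1 : t ^ (ε / 4) / (ε / 4) = 4 / ε * t ^ (ε / 4) := by field_simp
    have e2 : 8 / ε * t ^ (ε / 4) = 2 * (4 / ε * t ^ (ε / 4)) := by ring
    rw [e1] at h3
    rw [e2]
    linarith
  have hkhalf : ∀ k : ℕ, (b : ℝ) ^ k ≤ t ^ (1 - ε) → (k : ℝ) ≤ κ * t / 2 := by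
    intro k hk
    refine (hklen k hk).trans ?_
    have e1 : 16 / (ε * κ) * t ^ (ε / 4) = (2 / κ) * (8 / ε * t ^ (ε / 4)) := by
      field_simp
      ring
    rw [e1] at hev4
    have h1 : 2 / κ * (8 / ε * t ^ (ε / 4)) * (κ / 2) ≤ t * (κ / 2) := by gcongr
    have e2 : 2 / κ * (8 / ε * t ^ (ε / 4)) * (κ / 2) = 8 / ε * t ^ (ε / 4) := by field_simp
    rw [e2] at h1
    linarith
  have hWt : t ^ (1 - ε) ≤ t := by
    calc t ^ (1 - ε) ≤ t ^ (1 : ℝ) := Real.rpow_le_rpow_of_exponent_le ht1 (by linarith)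
      _ = t := Real.rpow_one t
  set ℓ : ℕ := ⌊κ * t⌋₊ with hℓ
  have hℓ1 : (ℓ : ℝ) ≤ κ * t := Nat.floor_le (by positivity)
  have hℓ2 : κ * t < ℓ + 1 := Nat.lt_floor_add_one _
  have hkℓ : ∀ k : ℕ, (b : ℝ) ^ k ≤ t ^ (1 - ε) → k ≤ ℓ := by
    intro k hk
    have h1 := hkhalf k hk
    have h2 : (k : ℝ) < ℓ + 1 := by nlinarith
    have h3 : k < ℓ + 1 := by exact_mod_cast h2
    omega
  -- the index set and the exceptional set
  set I : Finset ((ℕ × ℕ) × ℕ) := ((range (⌊t⌋₊ + 1) ×ˢ range (⌊t⌋₊ + 1)) ×ˢ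
    range (⌊A1 * t⌋₊ + 1)).filter (fun q => 1 ≤ q.1.1 ∧ (b : ℝ) ^ q.1.1 ≤ t ^ (1 - ε) ∧
      q.1.2 < b ^ q.1.1 ∧ (q.2 : ℝ) ≤ A * t) with hI
  set E : (ℕ × ℕ) × ℕ → Set ℝ := fun q => Bd b q.1.1 q.2 (ℓ + 1 - q.1.1) q.1.2
    (ε' * (((ℓ + 1 - q.1.1 : ℕ) : ℝ) / (b : ℝ) ^ q.1.1)) with hE
  refine ⟨⋃ q ∈ I, E q, ?_, ?_, ?_⟩
  · exact MeasurableSet.biUnion (Finset.countable_toSet I) fun q _ => measurableSet_Bd _ _ _ _ _ _
  · intro P hP
    have := hS M (by omega) P hP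
    have hone : ∀ q ∈ I, P.real (E q) ≤ (2 * exp 2 + |C|) * exp (-(2 * t ^ (ε / 2))) := by
      rintro ⟨⟨k, w⟩, s⟩ hq
      rw [hI, mem_filter] at hq
      obtain ⟨_, hk1, hkW, hw, hsA⟩ := hq
      simp only at hk1 hkW hw hsA ⊢
      have hkR : (1 : ℝ) ≤ k := by exact_mod_cast hk1
      have hk0 : (0 : ℝ) < k := by linarith
      set W : ℝ := (b : ℝ) ^ k with hW
      have hW1 : 1 ≤ W := one_le_pow₀ (by linarith)
      have hW0 : 0 < W := by linarith
      have hkℓ' := hkℓ k hkW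
      set L : ℕ := ℓ + 1 - k with hL
      have hLR : (L : ℝ) = ℓ + 1 - k := by
        rw [hL, Nat.cast_sub (by omega)]; push_cast; ring
      have hLlow : κ * t / 2 ≤ L := by
        have := hkhalf k hkW
        rw [hLR]
        linarith
      obtain ⟨ph, hph⟩ := WS_inside (b := b) hb1 (k := k) (L := L) (ℓ := ℓ) (by omega) (Iw w)
      have hEq : E ((k, w), s) = {x | ε' * ((L : ℝ) / W) < |ph (wd b ℓ s x) - L / W|} := by
        rw [hE]
        ext x
        unfold Bd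
        simp only [Set.mem_ofPred_eq]
        rw [← hph]
        rfl
      have h1 := KE.event_leW (b := b) (ℓ := ℓ) hb1 s P (Δ := C * (M : ℝ) ^ (-δ))
        (fun c => hC M (by omega) P hP (fun _ => s) (fun _ => ℓ) (fun _ => c) (fun _ => by
          have h0 : κ * t ≤ 1 * t := by gcongr
          linarith)) (fun c => ε' * ((L : ℝ) / W) < |ph c - L / W|)
      rw [← hEq] at h1
      have h2 := chernoff (b := b) (k := k) (w := w) hb hk1 hw s L hε'0 hε'1
      have hEq2 : E ((k, w), s) = Bd b k s L w (ε' * ((L : ℝ) / (b : ℝ) ^ k)) := rfl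
      rw [← hEq2] at h2
      -- the exponent
      have h3 : 2 * t ^ (ε / 2) ≤ ε' ^ 2 * L / (4 * (k * W)) := by
        have h4 : ε' ^ 2 * (κ * t / 2) / (4 * (8 / ε * t ^ (ε / 4) * t ^ (1 - ε))) ≤
            ε' ^ 2 * L / (4 * (k * W)) := by
          have := hklen k hkW
          gcongr
        have h5 : t = t ^ (3 * ε / 4) * (t ^ (ε / 4) * t ^ (1 - ε)) := by
          rw [← Real.rpow_add ht0, ← Real.rpow_add ht0]
          have : 3 * ε / 4 + (ε / 4 + (1 - ε)) = 1 := by ring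
          rw [this, Real.rpow_one]
        have h6 : ε' ^ 2 * (κ * t / 2) / (4 * (8 / ε * t ^ (ε / 4) * t ^ (1 - ε))) =
            c1 * t ^ (3 * ε / 4) := by
          have h7 : 0 < t ^ (ε / 4) := by positivity
          have h8 : 0 < t ^ (1 - ε) := by positivity
          rw [hc1]
          nth_rewrite 1 [h5]
          field_simp
          ring
        have h7 : 2 * t ^ (ε / 2) ≤ c1 * t ^ (3 * ε / 4) := by
          have h8 : c1 * (2 / c1 * t ^ (ε / 2)) ≤ c1 * t ^ (3 * ε / 4) := by gcongr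
          have e1 : c1 * (2 / c1 * t ^ (ε / 2)) = 2 * t ^ (ε / 2) := by field_simp
          linarith
        linarith
      have h4 : Leb.real (E ((k, w), s)) ≤ 2 * exp 2 * exp (-(2 * t ^ (ε / 2))) := by
        refine h2.trans ?_
        rw [mul_assoc, ← Real.exp_add]
        refine mul_le_mul_of_nonneg_left (exp_le_exp.2 ?_) (by norm_num)
        linarith
      have h5 : (b : ℝ) ^ ℓ * (C * (M : ℝ) ^ (-δ)) ≤ |C| * exp (-(2 * t ^ (ε / 2))) := by
        have h6 : (b : ℝ) ^ ℓ ≤ exp (δ / 2 * t) := by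
          rw [← Real.exp_log (by positivity : (0 : ℝ) < (b : ℝ) ^ ℓ), Real.log_pow]
          apply Real.exp_le_exp.2
          calc (ℓ : ℝ) * log b ≤ (κ * t) * lB := by gcongr
            _ = t * (κ * lB) := by ring
            _ ≤ t * (δ / 2) := by gcongr
            _ = δ / 2 * t := by ring
        have h7 : (M : ℝ) ^ (-δ) = exp (-(δ * t)) := by
          rw [Real.rpow_def_of_pos hMp, ← ht]
          congr 1
          ring
        have h8 : -(δ / 2 * t) ≤ -(2 * t ^ (ε / 2)) := by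
          have h9 : δ / 2 * (4 / δ * t ^ (ε / 2)) ≤ δ / 2 * t := by gcongr
          have e1 : δ / 2 * (4 / δ * t ^ (ε / 2)) = 2 * t ^ (ε / 2) := by field_simp; ring
          linarith
        rw [h7]
        calc (b : ℝ) ^ ℓ * (C * exp (-(δ * t))) ≤ (b : ℝ) ^ ℓ * (|C| * exp (-(δ * t))) := by
              gcongr
              exact le_abs_self C
          _ ≤ exp (δ / 2 * t) * (|C| * exp (-(δ * t))) := by gcongr
          _ = |C| * exp (-(δ / 2 * t)) := by
              rw [mul_left_comm, ← Real.exp_add]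
              congr 2
              ring
          _ ≤ |C| * exp (-(2 * t ^ (ε / 2))) := by gcongr
      calc P.real (E ((k, w), s)) ≤ Leb.real (E ((k, w), s)) +
            (b : ℝ) ^ ℓ * (C * (M : ℝ) ^ (-δ)) := h1
        _ ≤ 2 * exp 2 * exp (-(2 * t ^ (ε / 2))) + |C| * exp (-(2 * t ^ (ε / 2))) :=
            add_le_add h4 h5
        _ = (2 * exp 2 + |C|) * exp (-(2 * t ^ (ε / 2))) := by ring
    have hcard : (I.card : ℝ) ≤ (A1 + 1) * (t + 1) ^ 3 := by
      have h1 : I.card ≤ ((⌊t⌋₊ + 1) * (⌊t⌋₊ + 1)) * (⌊A1 * t⌋₊ + 1) := by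
        refine (card_filter_le _ _).trans (le_of_eq ?_)
        rw [card_product, card_product, card_range, card_range]
      have h3 : (⌊t⌋₊ : ℝ) ≤ t := Nat.floor_le ht0.le
      have h4 : (⌊A1 * t⌋₊ : ℝ) ≤ A1 * t := Nat.floor_le (by positivity)
      calc (I.card : ℝ) ≤ ((((⌊t⌋₊ + 1) * (⌊t⌋₊ + 1)) * (⌊A1 * t⌋₊ + 1) : ℕ) : ℝ) := by
            exact_mod_cast h1
        _ = (((⌊t⌋₊ : ℝ) + 1) * ((⌊t⌋₊ : ℝ) + 1)) * ((⌊A1 * t⌋₊ : ℝ) + 1) := by push_cast; ring
        _ ≤ ((t + 1) * (t + 1)) * (A1 * t + 1) := by gcongr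
        _ ≤ ((t + 1) * (t + 1)) * ((A1 + 1) * (t + 1)) := by
            gcongr
            nlinarith
        _ = (A1 + 1) * (t + 1) ^ 3 := by ring
    have h1 : P.real (⋃ q ∈ I, E q) ≤ ∑ q ∈ I, P.real (E q) := measureReal_biUnion_finset_le _ _
    calc P.real (⋃ q ∈ I, E q) ≤ ∑ q ∈ I, P.real (E q) := h1
      _ ≤ ∑ _q ∈ I, (2 * exp 2 + |C|) * exp (-(2 * t ^ (ε / 2))) := sum_le_sum hone
      _ = I.card * ((2 * exp 2 + |C|) * exp (-(2 * t ^ (ε / 2)))) := by
          rw [sum_const, nsmul_eq_mul]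
      _ ≤ ((A1 + 1) * (t + 1) ^ 3) * ((2 * exp 2 + |C|) * exp (-(2 * t ^ (ε / 2)))) := by
          gcongr
      _ = (D * (t + 1) ^ 3) * exp (-(2 * t ^ (ε / 2))) := by rw [hD]; ring
      _ ≤ exp (t ^ (ε / 2)) * exp (-(2 * t ^ (ε / 2))) := by gcongr
      _ = exp (-t ^ (ε / 2)) := by
          rw [← Real.exp_add]
          congr 1
          ring
  · intro x hx k w s N hk hkW hw hsN
    have hkℓ' := hkℓ k hkW
    set L : ℕ := ℓ + 1 - k with hL
    have hL1 : 1 ≤ L := by omega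
    have hkR : (1 : ℝ) ≤ k := by exact_mod_cast hk
    have hLR : (L : ℝ) = ℓ + 1 - k := by
      rw [hL, Nat.cast_sub (by omega)]; push_cast; ring
    have hLκ : (L : ℝ) ≤ κ * t := by rw [hLR]; linarith
    have hW0 : (0 : ℝ) < (b : ℝ) ^ k := by positivity
    have hkt : (k : ℝ) ≤ t := by
      have h1 := hkhalf k hkW
      have h2 : κ * t ≤ 1 * t := by gcongr
      linarith
    have hdet := det_grow (b := b) (k := k) (w := w) (L := L) (ε := ε') (T := A * t) (x := x)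
      hL1 hε'0.le hε'1 hb1 (by
      intro s' hs'
      by_contra hcon
      push Not at hcon
      apply hx
      rw [Set.mem_iUnion₂]
      refine ⟨((k, w), s'), ?_, hcon⟩
      rw [hI, mem_filter, mem_product, mem_product]
      refine ⟨⟨⟨?_, ?_⟩, ?_⟩, hk, hkW, hw, hs'⟩
      · rw [mem_range, Nat.lt_succ_iff]
        exact Nat.le_floor hkt
      · rw [mem_range, Nat.lt_succ_iff]
        apply Nat.le_floor
        have h1 : (w : ℝ) ≤ (b : ℝ) ^ k := by exact_mod_cast hw.le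
        linarith
      · rw [mem_range, Nat.lt_succ_iff]
        apply Nat.le_floor
        refine hs'.trans ?_
        gcongr) s N hsN
    refine hdet.trans ?_
    rw [div_le_div_iff_of_pos_right hW0]
    have hN : (N : ℝ) ≤ A1 * t := by
      have h2 : (0 : ℝ) ≤ s := Nat.cast_nonneg s
      have h3 : A * t ≤ A1 * t := by gcongr
      linarith
    calc ε' * N + 2 * L ≤ ε' * (A1 * t) + 2 * (κ * t) := by gcongr
      _ ≤ ε' * (A1 * t) + 2 * (ε / 4 * t) := by gcongr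
      _ = ε * t := by rw [hε']; field_simp; ring

open Classical in
/-- words of growing length, in counts -/
theorem grow_gen {ι : Type*} {b : ℕ} (hb : 2 ≤ b) {A ε : ℝ} (hε : 0 < ε) (hε1 : ε ≤ 1)
    {S : ℕ → Set (Measure ℝ)} (hS : ∀ M, 1 ≤ M → ∀ P ∈ S M, IsProbabilityMeasure P)
    (hG : Good b 1 (A + 1) S) :
    ∃ M0 : ℕ, ∀ M : ℕ, M0 ≤ M → ∀ (T : Finset ι) (x : ι → ℝ), unif T x ∈ S M →
      ((T.filter (fun m => ¬ ∀ k w s N : ℕ, 1 ≤ k → (b : ℝ) ^ k ≤ (log M) ^ (1 - ε) → w < b ^ k →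
        (s : ℝ) + N ≤ A * log M →
        |(((range N).filter (fun i => wd b k (s + i) (x m) = w)).card : ℝ) - N / (b : ℝ) ^ k| ≤
          ε * log M / (b : ℝ) ^ k)).card : ℝ) ≤ exp (-(log M) ^ (ε / 2)) * T.card := by
  obtain ⟨M0, h⟩ := grow_TW hb (A := A) hε hε1 hS
    (KE.TW.of_goodQ (by omega) hS (KE.GoodQ.of_good hG (by omega) le_rfl))
  refine ⟨M0, fun M hM T x hT => ?_⟩
  obtain ⟨U, hU, hP, hx⟩ := h M hM
  rcases T.eq_empty_or_nonempty with rfl | hne
  · simp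
  have hT0 : (0 : ℝ) < T.card := by exact_mod_cast hne.card_pos
  have h1 := hP _ hT
  rw [real_unif _ _ hU, div_le_iff₀ hT0] at h1
  refine le_trans ?_ h1
  refine Nat.cast_le.2 (Finset.card_le_card fun m hm => ?_)
  rw [Finset.mem_filter] at hm ⊢
  refine ⟨hm.1, ?_⟩
  by_contra hmU
  apply hm.2
  intro k w s N hk hkW hw hsN
  have := hx _ hmU k w s N hk hkW hw hsN
  rwa [XR_card] at this

end Pool.Agent.Y933.KF
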