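import Pool.Agent.Y933.KF.Grow2

/-!
# Words of growing length in all bases up to a bound (helper933)
-/

set_option autoImplicit false

namespace Pool.Agent.Y933.KF

open Finset Real MeasureTheory Filter Topology ProbabilityTheory
open Pool.Agent.Y933.KD

/-- all words of length at most `(1 - ε) log_b log M` have the right frequency in all windows -/
def GrowP (B : ℕ) (A ε : ℝ) (M : ℕ) (x : ℝ) : Prop :=
  ∀ b k w s N : ℕ, 2 ≤ b → b ≤ B → 1 ≤ k → (b : ℝ) ^ k ≤ (log M) ^ (1 - ε) → w < b ^ k →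
    (s : ℝ) + N ≤ A * log M →
    |(((range N).filter (fun i => wd b k (s + i) x = w)).card : ℝ) - N / (b : ℝ) ^ k| ≤
      ε * log M / (b : ℝ) ^ k

open Classical in
/-- words of growing length, in counts, for all bases up to `B` -/
theorem grow_all {ι : Type*} (B : ℕ) {A ε : ℝ} (hε : 0 < ε) (hε1 : ε ≤ 1)
    {S : ℕ → Set (Measure ℝ)} (hS : ∀ M, 1 ≤ M → ∀ P ∈ S M, IsProbabilityMeasure P)
    (hG : ∀ b, Good b 1 (A + 1) S) :
    ∃ M0 : ℕ, ∀ M : ℕ, M0 ≤ M → ∀ (T : Finset ι) (x : ι → ℝ), unif T x ∈ S M →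
      ((T.filter (fun m => ¬ GrowP B A ε M (x m))).card : ℝ) ≤
        B * exp (-(log M) ^ (ε / 2)) * T.card := by
  have h1 : ∀ b : ℕ, ∃ M0 : ℕ, 2 ≤ b → ∀ M : ℕ, M0 ≤ M → ∀ (T : Finset ι) (x : ι → ℝ),
      unif T x ∈ S M →
      ((T.filter (fun m => ¬ ∀ k w s N : ℕ, 1 ≤ k → (b : ℝ) ^ k ≤ (log M) ^ (1 - ε) → w < b ^ k →
        (s : ℝ) + N ≤ A * log M →
        |(((range N).filter (fun i => wd b k (s + i) (x m) = w)).card : ℝ) - N / (b : ℝ) ^ k| ≤
          ε * log M / (b : ℝ) ^ k)).card : ℝ) ≤ exp (-(log M) ^ (ε / 2)) * T.card := by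
    intro b
    by_cases hb : 2 ≤ b
    · obtain ⟨M0, h⟩ := grow_gen (ι := ι) hb hε hε1 hS (hG b)
      exact ⟨M0, fun _ => h⟩
    · exact ⟨0, fun h => absurd h hb⟩
  choose M0 hM0 using h1
  refine ⟨(range (B + 1)).sup M0, fun M hM T x hT => ?_⟩
  set F : ℕ → Finset ι := fun b => T.filter (fun m => ¬ ∀ k w s N : ℕ, 1 ≤ k →
    (b : ℝ) ^ k ≤ (log M) ^ (1 - ε) → w < b ^ k → (s : ℝ) + N ≤ A * log M →
    |(((range N).filter (fun i => wd b k (s + i) (x m) = w)).card : ℝ) - N / (b : ℝ) ^ k| ≤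
      ε * log M / (b : ℝ) ^ k) with hF
  have hsub : T.filter (fun m => ¬ GrowP B A ε M (x m)) ⊆ (Finset.Icc 2 B).biUnion F := by
    intro m hm
    rw [mem_filter] at hm
    obtain ⟨hmT, hm2⟩ := hm
    unfold GrowP at hm2
    push Not at hm2
    obtain ⟨b, k, w, s, N, hb, hbB, hk, hkW, hw, hsN, hlt⟩ := hm2
    rw [mem_biUnion]
    refine ⟨b, mem_Icc.2 ⟨hb, hbB⟩, ?_⟩
    rw [hF, mem_filter]
    refine ⟨hmT, fun h => ?_⟩
    have := h k w s N hk hkW hw hsN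
    linarith
  have hcard := (card_le_card hsub).trans card_biUnion_le
  have hE0 : 0 ≤ exp (-(log (M : ℝ)) ^ (ε / 2)) * T.card := by positivity
  calc ((T.filter (fun m => ¬ GrowP B A ε M (x m))).card : ℝ)
      ≤ ∑ b ∈ Finset.Icc 2 B, ((F b).card : ℝ) := by exact_mod_cast hcard
    _ ≤ ∑ _b ∈ Finset.Icc 2 B, exp (-(log (M : ℝ)) ^ (ε / 2)) * T.card := by
        refine sum_le_sum fun b hb => ?_
        rw [mem_Icc] at hb
        have h2 : M0 b ≤ M := (le_sup (f := M0) (mem_range.2 (by omega))).trans hM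
        exact hM0 b hb.1 M h2 T x hT
    _ = ((Finset.Icc 2 B).card : ℝ) * (exp (-(log (M : ℝ)) ^ (ε / 2)) * T.card) := by
        rw [sum_const, nsmul_eq_mul]
    _ ≤ B * (exp (-(log (M : ℝ)) ^ (ε / 2)) * T.card) := by
        gcongr
        rw [Nat.card_Icc]
        omega
    _ = _ := by ring

end Pool.Agent.Y933.KF
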