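import Pool.Agent.Y933.KF.Gen

/-!
# Poisson genericity up to a multiple of `log M` digits (helper933)
-/

set_option autoImplicit false

namespace Pool.Agent.Y933.KF

open Finset Real MeasureTheory Filter Topology ProbabilityTheory
open Pool.Agent.Y933.KD
open scoped Nat NNReal

/-- the exceptional event for one moment -/
def Ee (b k s N r : ℕ) (η a : ℝ) : Set ℝ := {x | η < |Ph b k s N r x - a|}

lemma measurableSet_Ee {b k s N r : ℕ} (hb : 1 ≤ b) (η a : ℝ) :
    MeasurableSet (Ee b k s N r η a) :=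
  measurableSet_lt measurable_const ((measurable_Ph hb r).sub_const a).abs

lemma cheb {b k s N r : ℕ} (hb : 1 ≤ b) (P : Measure ℝ) [IsProbabilityMeasure P] {η a B : ℝ}
    (hη : 0 < η) (h : ∫ x, (Ph b k s N r x - a) ^ 2 ∂P ≤ B) :
    P.real (Ee b k s N r η a) ≤ B / η ^ 2 := by
  have hm : Measurable fun x => (Ph b k s N r x - a) ^ 2 :=
    ((measurable_Ph hb r).sub_const a).pow_const 2
  have hint : Integrable (fun x => (Ph b k s N r x - a) ^ 2) P := by
    refine integrable_of_bdd hm (R := ((N : ℝ) ^ r + |a|) ^ 2) fun x => ?_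
    rw [abs_of_nonneg (sq_nonneg _), ← sq_abs (Ph b k s N r x - a)]
    refine pow_le_pow_left₀ (abs_nonneg _) ?_ 2
    refine (abs_sub _ _).trans ?_
    rw [abs_of_nonneg (Ph_nonneg r x)]
    gcongr
    exact Ph_le hb r x
  have h1 := mul_meas_ge_le_integral_of_nonneg (μ := P)
    (Eventually.of_forall fun x => sq_nonneg (Ph b k s N r x - a)) hint (η ^ 2)
  have h2 : P.real (Ee b k s N r η a) ≤ P.real {x | η ^ 2 ≤ (Ph b k s N r x - a) ^ 2} := by
    refine measureReal_mono fun x hx => ?_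
    have hx' : η < |Ph b k s N r x - a| := hx
    change η ^ 2 ≤ (Ph b k s N r x - a) ^ 2
    rw [← sq_abs (Ph b k s N r x - a)]
    exact pow_le_pow_left₀ hη.le hx'.le 2
  rw [le_div_iff₀ (by positivity)]
  calc P.real (Ee b k s N r η a) * η ^ 2 ≤
        P.real {x | η ^ 2 ≤ (Ph b k s N r x - a) ^ 2} * η ^ 2 := by gcongr
    _ = η ^ 2 * P.real {x | η ^ 2 ≤ (Ph b k s N r x - a) ^ 2} := mul_comm _ _
    _ ≤ B := h1.trans h

lemma second_all (R : ℕ) {Λ : ℝ} (hΛ : 1 ≤ Λ) : ∃ C : ℝ, 0 ≤ C ∧ ∀ r < R,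
    ∀ (b k s N : ℕ) (P : Measure ℝ) (_ : IsProbabilityMeasure P) (Δ : ℝ), 2 ≤ b → 1 ≤ k → 1 ≤ N →
      0 ≤ Δ → Ht b k s N (4 * R + 2) P Δ → (N : ℝ) ≤ Λ * (b : ℝ) ^ k →
      ∫ x, (Ph b k s N r x - (N / (b : ℝ) ^ k) ^ r) ^ 2 ∂P ≤
        C * ((k : ℝ) ^ (4 * R + 1) * (1 / √(b : ℝ)) ^ k +
          ((b : ℝ) ^ k) ^ 2 * (N : ℝ) ^ (4 * R + 1) * Δ) := by
  choose C hC0 hC using fun r => second' r hΛ
  refine ⟨∑ r ∈ range R, C r, sum_nonneg fun r _ => hC0 r, fun r hr b k s N P hP Δ hb hk hN hΔ hT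
    hNΛ => ?_⟩
  have hkR : (1 : ℝ) ≤ k := by exact_mod_cast hk
  have hNR : (1 : ℝ) ≤ N := by exact_mod_cast hN
  have h1 := hC r b k s N P hP Δ hb hk hN hΔ (fun t ht => hT t (by omega)) hNΛ
  have h2 : C r ≤ ∑ r ∈ range R, C r :=
    single_le_sum (f := C) (fun r _ => hC0 r) (mem_range.2 hr)
  have h3 : (k : ℝ) ^ (4 * r + 1) ≤ (k : ℝ) ^ (4 * R + 1) := pow_le_pow_right₀ hkR (by omega)
  have h4 : (N : ℝ) ^ (4 * r + 1) ≤ (N : ℝ) ^ (4 * R + 1) := pow_le_pow_right₀ hNR (by omega)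
  refine h1.trans (mul_le_mul h2 ?_ (by positivity) ((hC0 r).trans h2))
  refine add_le_add (mul_le_mul_of_nonneg_right h3 (by positivity)) ?_
  exact mul_le_mul_of_nonneg_right (mul_le_mul_of_nonneg_left h4 (by positivity)) hΔ

lemma tail_small (p : ℕ) {ρ : ℝ} (hρ0 : 0 ≤ ρ) (hρ : ρ < 1) {ε : ℝ} (hε : 0 < ε) :
    ∃ k0 : ℕ, ∀ K : ℕ, ∑ k ∈ Ico k0 K, (k : ℝ) ^ p * ρ ^ k ≤ ε := by
  have h1 : Summable fun n : ℕ => (n : ℝ) ^ p * ρ ^ n :=
    summable_pow_mul_geometric_of_norm_lt_one p (by rwa [Real.norm_eq_abs, abs_of_nonneg hρ0])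
  obtain ⟨s, hs⟩ := summable_iff_vanishing_norm.1 h1 ε hε
  refine ⟨s.sup id + 1, fun K => ?_⟩
  have h2 := hs (Ico (s.sup id + 1) K) (by
    rw [Finset.disjoint_left]
    intro a ha has
    rw [mem_Ico] at ha
    have : a ≤ s.sup id := le_sup (f := id) has
    omega)
  exact (le_abs_self _).trans h2.le

open Classical in
/-- **Poisson genericity** -/
theorem poisson_TW {b : ℕ} (hb : 2 ≤ b) {A Λ ε : ℝ} (hε : 0 < ε) {S : ℕ → Set (Measure ℝ)}
    (hS : ∀ M, 1 ≤ M → ∀ P ∈ S M, IsProbabilityMeasure P) (hT : ∀ t, KE.TW b t A S) :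
    ∃ k0 M0 : ℕ, ∀ M : ℕ, M0 ≤ M → ∀ s : ℕ, ∃ U : Set ℝ, MeasurableSet U ∧
      (∀ P ∈ S M, P.real U ≤ ε) ∧
      ∀ x, x ∉ U → ∀ k N : ℕ, k0 ≤ k → (N : ℝ) ≤ Λ * (b : ℝ) ^ k →
        (s : ℝ) + N + k ≤ A * log M → ∀ lam : ℝ≥0, (lam : ℝ) = N / (b : ℝ) ^ k → ∀ J : Set ℕ,
        |(((range (b ^ k)).filter (fun w => Xn b k s N w x ∈ J)).card : ℝ) / (b : ℝ) ^ k -
          (poissonMeasure lam).real J| ≤ ε := by
  have hb1 : 1 ≤ b := by omega
  have hbR : (2 : ℝ) ≤ b := by exact_mod_cast hb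
  have hb0 : (0 : ℝ) < b := by linarith
  -- the constants
  obtain ⟨Λ', hΛ', hΛΛ'⟩ : ∃ Λ' : ℝ, 1 ≤ Λ' ∧ Λ ≤ Λ' := ⟨max Λ 1, le_max_right _ _, le_max_left _ _⟩
  obtain ⟨A', hA', hAA'⟩ : ∃ A' : ℝ, 1 ≤ A' ∧ A ≤ A' := ⟨max A 1, le_max_right _ _, le_max_left _ _⟩
  obtain ⟨R, η, hη, hdet⟩ := determination (Λ := Λ') (ε := ε / 2) (by linarith) (by positivity)
  set η2 : ℝ := min (ε / 2) (η / (2 * (R + 1) * Λ' ^ R)) with hη2
  have hη20 : 0 < η2 := lt_min (by positivity) (by positivity)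
  have hη2a : η2 ≤ ε / 2 := min_le_left _ _
  have hη2b : η2 ≤ η / (2 * (R + 1) * Λ' ^ R) := min_le_right _ _
  obtain ⟨C, hC0, hC⟩ := second_all R hΛ'
  obtain ⟨δ, hδ, C', hC'0, hTall⟩ := TW_all hT (4 * R + 2)
  set Jm : ℕ := ⌊2 * Λ' / η2⌋₊ with hJm
  set B1 : ℝ := C / (η / 2) ^ 2 with hB1
  have hB10 : 0 ≤ B1 := by positivity
  set ρ : ℝ := 1 / √(b : ℝ) with hρ
  have hρ0 : 0 ≤ ρ := by positivity
  have hρ1 : ρ < 1 := by
    rw [hρ, div_lt_one (Real.sqrt_pos.2 hb0), Real.lt_sqrt (by norm_num)]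
    linarith
  set D : ℝ := ((Jm : ℝ) + 1) * (R + 1) * (B1 + 1) with hD
  have hD0 : 0 < D := by positivity
  obtain ⟨k1, hk1⟩ := tail_small (4 * R + 1) hρ0 hρ1 (ε := ε / (2 * D)) (by positivity)
  obtain ⟨k2, hk2⟩ := pow_unbounded_of_one_lt (2 / η2) (by norm_num : (1 : ℝ) < 2)
  set C4 : ℝ := D * (2 * A') * ((2 * A' / ε) ^ 2 * A' ^ (4 * R + 1) * C') with hC4
  have hC40 : 0 ≤ C4 := by positivity
  obtain ⟨M1, hM1⟩ := eventually_atTop.1 (log_small (4 * R + 4) hδ hC40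
    (show (0 : ℝ) < ε / 2 by positivity))
  refine ⟨max (max k1 k2) 1, max M1 1, fun M hM s => ?_⟩
  have hMM1 := hM1 M (le_of_max_le_left hM)
  have hMge : 1 ≤ M := le_of_max_le_right hM
  have hMR : (1 : ℝ) ≤ M := by exact_mod_cast hMge
  have hlog0 : 0 ≤ log (M : ℝ) := Real.log_nonneg hMR
  set t : ℝ := 1 + log (M : ℝ) with ht
  have ht1 : 1 ≤ t := by linarith
  have hlogt : A * log (M : ℝ) ≤ A' * t := by
    calc A * log (M : ℝ) ≤ A' * log (M : ℝ) := by gcongr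
      _ ≤ A' * t := by gcongr; linarith
  set Kx : ℕ := ⌊A' * t⌋₊ + 1 with hKx
  have hKxt : (Kx : ℝ) ≤ 2 * A' * t := by
    rw [hKx]
    push_cast
    have : (⌊A' * t⌋₊ : ℝ) ≤ A' * t := Nat.floor_le (by positivity)
    nlinarith
  -- the grid
  set g : ℕ → ℕ := fun k => ⌊η2 * (b : ℝ) ^ k⌋₊ with hg
  have hWk : ∀ k, k2 ≤ k → 2 ≤ η2 * (b : ℝ) ^ k := by
    intro k hk
    have h1 : (2 : ℝ) ^ k2 ≤ (b : ℝ) ^ k := by
      calc (2 : ℝ) ^ k2 ≤ (2 : ℝ) ^ k := pow_le_pow_right₀ (by norm_num) hk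
        _ ≤ (b : ℝ) ^ k := by gcongr
    have h2 : 2 / η2 ≤ (b : ℝ) ^ k := by linarith
    rw [div_le_iff₀ hη20] at h2
    linarith
  have hg1 : ∀ k, k2 ≤ k → 1 ≤ g k := by
    intro k hk
    rw [hg]
    apply Nat.le_floor
    have := hWk k hk
    push_cast
    linarith
  have hgle : ∀ k, (g k : ℝ) ≤ η2 * (b : ℝ) ^ k := fun k => Nat.floor_le (by positivity)
  have hgge : ∀ k, k2 ≤ k → η2 * (b : ℝ) ^ k / 2 ≤ g k := by
    intro k hk
    have h1 := Nat.lt_floor_add_one (η2 * (b : ℝ) ^ k)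
    have h2 := hWk k hk
    have h3 : (g k : ℝ) = (⌊η2 * (b : ℝ) ^ k⌋₊ : ℝ) := rfl
    rw [h3]
    linarith
  -- the index set
  set k0 : ℕ := max (max k1 k2) 1 with hk0
  have hk1k0 : k1 ≤ k0 := (le_max_left _ _).trans (le_max_left _ _)
  have hk2k0 : k2 ≤ k0 := (le_max_right _ _).trans (le_max_left _ _)
  have h1k0 : 1 ≤ k0 := le_max_right _ _
  set I : Finset ((ℕ × ℕ) × ℕ) := ((Ico k0 Kx ×ˢ range (Jm + 1)) ×ˢ range R).filter
    (fun q => 1 ≤ q.1.2 ∧ (s : ℝ) + (q.1.2 * g q.1.1 : ℕ) + q.1.1 ≤ A * log M ∧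
      (b : ℝ) ^ q.1.1 ≤ 2 * A' / ε * t ∧ ((q.1.2 * g q.1.1 : ℕ) : ℝ) ≤ Λ' * (b : ℝ) ^ q.1.1) with hI
  set E : (ℕ × ℕ) × ℕ → Set ℝ := fun q => Ee b q.1.1 s (q.1.2 * g q.1.1) q.2 (η / 2)
    ((((q.1.2 * g q.1.1 : ℕ) : ℝ) / (b : ℝ) ^ q.1.1) ^ q.2) with hE
  set G : ℝ := (2 * A' / ε * t) ^ 2 * (A' * t) ^ (4 * R + 1) * (C' * (M : ℝ) ^ (-δ)) with hG
  have hG0 : 0 ≤ G := by positivity
  refine ⟨⋃ q ∈ I, E q, ?_, ?_, ?_⟩
  · exact MeasurableSet.biUnion (Finset.countable_toSet I) fun q _ => measurableSet_Ee hb1 _ _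
  · intro P hP
    have hprob := hS M hMge P hP
    have hone : ∀ q ∈ I, P.real (E q) ≤ B1 * ((q.1.1 : ℝ) ^ (4 * R + 1) * ρ ^ q.1.1 + G) := by
      rintro ⟨⟨k, j⟩, r⟩ hq
      rw [hI, mem_filter, mem_product, mem_product] at hq
      obtain ⟨⟨⟨hk, _⟩, hr⟩, hj1, hplace, hWt, hNΛ⟩ := hq
      simp only at hk hr hj1 hplace hWt hNΛ ⊢
      rw [mem_Ico] at hk
      rw [mem_range] at hr
      have hk2' : k2 ≤ k := by omega
      have hgk := hg1 k hk2'
      have hN1 : 1 ≤ j * g k := Nat.mul_pos hj1 hgk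
      have hΔ0 : 0 ≤ C' * (M : ℝ) ^ (-δ) := by positivity
      have hHt : Ht b k s (j * g k) (4 * R + 2) P (C' * (M : ℝ) ^ (-δ)) := by
        intro u hu n c hn
        refine hTall M hMge P hP u hu n (fun _ => k) c fun i => ?_
        have h1 : ((n i : ℕ) : ℝ) ≤ (s : ℝ) + (j * g k : ℕ) := by exact_mod_cast (hn i).le
        linarith
      have h1 := hC r hr b k s (j * g k) P hprob _ hb (by omega) hN1 hΔ0 hHt hNΛ
      have h2 := cheb (b := b) (k := k) (s := s) (N := j * g k) (r := r) hb1 P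
        (η := η / 2) (by positivity) h1
      have hNt : ((j * g k : ℕ) : ℝ) ≤ A' * t := by
        have h3 : (0 : ℝ) ≤ s := Nat.cast_nonneg s
        have h4 : (0 : ℝ) ≤ k := Nat.cast_nonneg k
        linarith
      refine h2.trans ?_
      rw [hB1, div_mul_eq_mul_div]
      gcongr
      rw [hG]
      gcongr
    have hI2 : ∑ q ∈ I, B1 * ((q.1.1 : ℝ) ^ (4 * R + 1) * ρ ^ q.1.1 + G) ≤
        ∑ q ∈ (Ico k0 Kx ×ˢ range (Jm + 1)) ×ˢ range R,
          B1 * ((q.1.1 : ℝ) ^ (4 * R + 1) * ρ ^ q.1.1 + G) :=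
      sum_le_sum_of_subset_of_nonneg (filter_subset _ _) fun q _ _ => by positivity
    have hI3 : ∑ q ∈ (Ico k0 Kx ×ˢ range (Jm + 1)) ×ˢ range R,
          B1 * ((q.1.1 : ℝ) ^ (4 * R + 1) * ρ ^ q.1.1 + G) =
        (Jm + 1) * R * B1 * (∑ k ∈ Ico k0 Kx, (k : ℝ) ^ (4 * R + 1) * ρ ^ k +
          ((Ico k0 Kx).card : ℝ) * G) := by
      rw [sum_product, sum_product]
      simp only [sum_const, card_range, nsmul_eq_mul]
      simp only [← mul_sum, sum_add_distrib, sum_const, nsmul_eq_mul]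
      push_cast
      ring
    have hcard : ((Ico k0 Kx).card : ℝ) ≤ 2 * A' * t := by
      rw [Nat.card_Ico]
      refine le_trans ?_ hKxt
      exact_mod_cast Nat.sub_le _ _
    have htail : ∑ k ∈ Ico k0 Kx, (k : ℝ) ^ (4 * R + 1) * ρ ^ k ≤ ε / (2 * D) := by
      refine le_trans ?_ (hk1 Kx)
      refine sum_le_sum_of_subset_of_nonneg (Ico_subset_Ico_left hk1k0) fun k _ _ => by positivity
    have hDle : ((Jm : ℝ) + 1) * R * B1 ≤ D := by
      rw [hD]
      gcongr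
      · linarith
      · linarith
    calc P.real (⋃ q ∈ I, E q) ≤ ∑ q ∈ I, P.real (E q) := measureReal_biUnion_finset_le _ _
      _ ≤ ∑ q ∈ I, B1 * ((q.1.1 : ℝ) ^ (4 * R + 1) * ρ ^ q.1.1 + G) := sum_le_sum hone
      _ ≤ (Jm + 1) * R * B1 * (∑ k ∈ Ico k0 Kx, (k : ℝ) ^ (4 * R + 1) * ρ ^ k +
          ((Ico k0 Kx).card : ℝ) * G) := hI2.trans (le_of_eq hI3)
      _ ≤ D * (ε / (2 * D) + 2 * A' * t * G) := by
          gcongr
      _ = ε / 2 + C4 * t ^ (4 * R + 4) * (M : ℝ) ^ (-δ) := by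
          rw [mul_add, hC4, hG]
          have e1 : D * (ε / (2 * D)) = ε / 2 := by field_simp
          rw [e1, mul_pow, mul_pow, show 4 * R + 4 = (4 * R + 1) + 2 + 1 by ring, pow_add t,
            pow_add t]
          ring
      _ ≤ ε / 2 + ε / 2 := by gcongr
      _ = ε := by ring
  · intro x hx k N hk hNΛ hplace lam hlam J
    have hk2' : k2 ≤ k := hk2k0.trans hk
    set W : ℝ := (b : ℝ) ^ k with hW
    have hW0 : 0 < W := by positivity
    have hs0 : (0 : ℝ) ≤ s := Nat.cast_nonneg s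
    have hk0' : (0 : ℝ) ≤ k := Nat.cast_nonneg k
    have hNA : (N : ℝ) ≤ A * log M := by linarith
    by_cases hsm : (lam : ℝ) ≤ ε / 2
    · refine (small_mean hb1 N lam hlam J).trans ?_
      linarith
    · push Not at hsm
      -- the grid point
      have hNW : ε / 2 * W < N := by
        rw [hlam, lt_div_iff₀ hW0] at hsm
        exact hsm
      have hgk := hg1 k hk2'
      have hgN : g k ≤ N := by
        have h1 := hgle k
        have h2 : (g k : ℝ) ≤ N := by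
          calc (g k : ℝ) ≤ η2 * W := h1
            _ ≤ ε / 2 * W := by gcongr
            _ ≤ N := hNW.le
        exact_mod_cast h2
      set j : ℕ := N / g k with hj
      have hj1 : 1 ≤ j := Nat.div_pos hgN hgk
      have hdm := Nat.div_add_mod N (g k)
      have hmod := Nat.mod_lt N (show g k > 0 by omega)
      have hN'le : j * g k ≤ N := Nat.div_mul_le_self N (g k)
      have hN'ge : N ≤ j * g k + g k := by
        rw [hj, Nat.mul_comm]
        omega
      have hN'leR : ((j * g k : ℕ) : ℝ) ≤ N := by exact_mod_cast hN'le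
      have hN'geR : (N : ℝ) ≤ ((j * g k : ℕ) : ℝ) + g k := by exact_mod_cast hN'ge
      have hjJ : j < Jm + 1 := by
        rw [Nat.lt_succ_iff, hJm]
        apply Nat.le_floor
        have h1 := hgge k hk2'
        have h2 : (j : ℝ) * g k ≤ Λ' * W := by
          have h3 : ((j * g k : ℕ) : ℝ) = (j : ℝ) * g k := by push_cast; ring
          rw [← h3]
          calc ((j * g k : ℕ) : ℝ) ≤ N := hN'leR
            _ ≤ Λ * W := hNΛ
            _ ≤ Λ' * W := by gcongr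
        have h3 : (j : ℝ) * (η2 * W / 2) ≤ Λ' * W := by
          calc (j : ℝ) * (η2 * W / 2) ≤ (j : ℝ) * g k := by gcongr
            _ ≤ Λ' * W := h2
        rw [le_div_iff₀ hη20]
        have h4 : (j : ℝ) * η2 * W ≤ 2 * Λ' * W := by linarith
        exact le_of_mul_le_mul_right h4 hW0
      have hlamΛ : (lam : ℝ) ≤ Λ' := by
        rw [hlam, div_le_iff₀ hW0]
        calc (N : ℝ) ≤ Λ * W := hNΛ
          _ ≤ Λ' * W := by gcongr
      have hkx : k < Kx := by
        rw [hKx, Nat.lt_succ_iff]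
        apply Nat.le_floor
        have h1 : (0 : ℝ) ≤ N := Nat.cast_nonneg N
        linarith
      -- the moments
      have hmom : ∀ r < R, |(∑ w ∈ range (b ^ k), ((Xn b k s (j * g k) w x).choose r : ℝ)) /
          (b ^ k : ℕ) - (lam : ℝ) ^ r / (r ! : ℝ)| ≤ η := by
        intro r hr
        have hnotin : x ∉ E ((k, j), r) := by
          intro hmem
          apply hx
          rw [Set.mem_iUnion₂]
          refine ⟨((k, j), r), ?_, hmem⟩
          rw [hI, mem_filter, mem_product, mem_product]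
          refine ⟨⟨⟨mem_Ico.2 ⟨hk, hkx⟩, mem_range.2 hjJ⟩, mem_range.2 hr⟩, hj1, ?_, ?_, ?_⟩
          · simp only
            linarith
          · simp only
            have h1 : W ≤ 2 / ε * N := by
              rw [div_mul_eq_mul_div, le_div_iff₀ hε]
              linarith
            calc W ≤ 2 / ε * N := h1
              _ ≤ 2 / ε * (A' * t) := by gcongr; linarith
              _ = 2 * A' / ε * t := by ring
          · simp only
            calc ((j * g k : ℕ) : ℝ) ≤ N := hN'leR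
              _ ≤ Λ * W := hNΛ
              _ ≤ Λ' * W := by gcongr
        have h1 : |Ph b k s (j * g k) r x - (((j * g k : ℕ) : ℝ) / W) ^ r| ≤ η / 2 := by
          have h2 : ¬ (η / 2 < |Ph b k s (j * g k) r x - (((j * g k : ℕ) : ℝ) / W) ^ r|) := hnotin
          linarith
        set l' : ℝ := ((j * g k : ℕ) : ℝ) / W with hl'
        have hl'0 : 0 ≤ l' := by positivity
        have hl'le : l' ≤ lam := by
          rw [hlam, hl']
          gcongr
        have hll : |l' - lam| ≤ η2 := by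
          rw [abs_sub_comm, abs_of_nonneg (by linarith), hlam, hl', ← sub_div, div_le_iff₀ hW0]
          have := hgle k
          linarith
        have h2 : |l' ^ r - (lam : ℝ) ^ r| ≤ η / 2 := by
          refine (abs_pow_sub_pow_le (a := l') (b := (lam : ℝ)) (n := r)).trans ?_
          have h3 : max |l'| |(lam : ℝ)| ^ (r - 1) ≤ Λ' ^ R := by
            have hlam0 : (0 : ℝ) ≤ (lam : ℝ) := NNReal.coe_nonneg lam
            rw [abs_of_nonneg hl'0, abs_of_nonneg hlam0, max_eq_right hl'le]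
            calc (lam : ℝ) ^ (r - 1) ≤ Λ' ^ (r - 1) := pow_le_pow_left₀ hlam0 hlamΛ _
              _ ≤ Λ' ^ R := pow_le_pow_right₀ hΛ' (by omega)
          have h4 : (r : ℝ) ≤ R + 1 := by
            have : (r : ℝ) ≤ R := by exact_mod_cast hr.le
            linarith
          calc |l' - lam| * r * max |l'| |(lam : ℝ)| ^ (r - 1) ≤
                (η / (2 * (R + 1) * Λ' ^ R)) * (R + 1) * Λ' ^ R := by
                have h5 := hll.trans hη2b
                gcongr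
            _ = η / 2 := by field_simp
        have h3 : |Ph b k s (j * g k) r x - (lam : ℝ) ^ r| ≤ η := by
          have := abs_sub_le (Ph b k s (j * g k) r x) (l' ^ r) ((lam : ℝ) ^ r)
          linarith
        have hfac : (1 : ℝ) ≤ (r ! : ℝ) := by exact_mod_cast Nat.factorial_pos r
        have hfac0 : (0 : ℝ) < (r ! : ℝ) := by linarith
        have h4 : (∑ w ∈ range (b ^ k), ((Xn b k s (j * g k) w x).choose r : ℝ)) / (b ^ k : ℕ) =
            Ph b k s (j * g k) r x / (r ! : ℝ) := by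
          unfold Ph
          have h5 : ∀ w, (((Xn b k s (j * g k) w x).descFactorial r : ℕ) : ℝ) =
              (r ! : ℝ) * ((Xn b k s (j * g k) w x).choose r : ℝ) := by
            intro w
            rw [Nat.descFactorial_eq_factorial_mul_choose]
            push_cast
            ring
          simp only [h5, ← mul_sum]
          push_cast
          field_simp
        rw [h4, ← sub_div, abs_div, abs_of_pos hfac0]
        refine (div_le_self (abs_nonneg _) hfac).trans h3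
      have hW1 : 1 ≤ b ^ k := Nat.one_le_pow _ _ hb1
      have h1 := hdet lam hlamΛ (b ^ k) hW1 (fun w => Xn b k s (j * g k) w x) hmom J
      push_cast at h1
      have h2 := Z_diff (k := k) (s := s) (x := x) hb1 hN'le J
      have h3 : ((N : ℝ) - (j * g k : ℕ)) / W ≤ ε / 2 := by
        rw [div_le_iff₀ hW0]
        have h4 := hgle k
        have h5 : η2 * W ≤ ε / 2 * W := by gcongr
        linarith
      have h4 := abs_sub_le ((((range (b ^ k)).filter (fun w => Xn b k s N w x ∈ J)).card : ℝ) / W)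
        ((((range (b ^ k)).filter (fun w => Xn b k s (j * g k) w x ∈ J)).card : ℝ) / W)
        ((poissonMeasure lam).real J)
      linarith

end Pool.Agent.Y933.KF
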