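import Pool.Agent.Y933.KF.Sep

/-!
# Second moments of the averaged factorial moments (helper933)
-/

set_option autoImplicit false

namespace Pool.Agent.Y933.KF

open Finset Real MeasureTheory Filter Topology
open Pool.Agent.Y933.KD
open scoped Nat

/-- the occurrences of the word `w` -/
noncomputable def Oc (b k s N w : ℕ) (x : ℝ) : Finset ℕ :=
  (range N).filter (fun i => wd b k (s + i) x = w)

/-- the number of occurrences of the word `w` -/
noncomputable def Xn (b k s N w : ℕ) (x : ℝ) : ℕ := (Oc b k s N w x).card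

lemma Xn_cast (b k s N w : ℕ) (x : ℝ) : (Xn b k s N w x : ℝ) = XR b k s N w x := by
  rw [XR_card]; rfl

lemma Xn_le (b k s N w : ℕ) (x : ℝ) : Xn b k s N w x ≤ N := by
  unfold Xn Oc
  exact (card_filter_le _ _).trans (le_of_eq (card_range N))

lemma mem_Oc {b k s N w i : ℕ} {x : ℝ} : i ∈ Oc b k s N w x ↔ i < N ∧ wd b k (s + i) x = w := by
  unfold Oc
  rw [mem_filter, mem_range]

/-- the counts are functions of one long word -/
lemma Xn_fun {b : ℕ} (hb : 1 ≤ b) (k s N w : ℕ) : ∃ ph : ℕ → ℕ, ∀ x,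
    Xn b k s N w x = ph (wd b (N + k) s x) := by
  have h1 : ∀ i : ℕ, ∃ ph : ℕ → ℕ, i < N → ∀ x : ℝ, wd b k (s + i) x = ph (wd b (N + k) s x) := by
    intro i
    by_cases hi : i < N
    · obtain ⟨ph, hph⟩ := wd_inside (b := b) hb (k := k) (i := i) (ℓ := N + k) (by omega)
      exact ⟨ph, fun _ x => hph s x⟩
    · exact ⟨fun _ => 0, fun hi' => absurd hi' hi⟩
  choose ph hph using h1
  refine ⟨fun v => ((range N).filter (fun i => ph i v = w)).card, fun x => ?_⟩
  unfold Xn Oc
  congr 1
  refine filter_congr fun i hi => ?_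
  rw [hph i (mem_range.1 hi) x]

lemma measurable_Xn {b : ℕ} (hb : 1 ≤ b) (k s N w : ℕ) (g : ℕ → ℝ) :
    Measurable (fun x => g (Xn b k s N w x)) := by
  obtain ⟨ph, hph⟩ := Xn_fun hb k s N w
  simp only [hph]
  exact (measurable_of_countable fun v => g (ph v)).comp (measurable_wd _ _ _)

open Classical in
/-- the tuples of separated places -/
noncomputable def SepS (k N t : ℕ) : Finset (Fin t → ℕ) :=
  (Fintype.piFinset fun _ => range N).filter
    (fun h => ∀ i j, i ≠ j → h i + k ≤ h j ∨ h j + k ≤ h i)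

lemma mem_SepS {k N t : ℕ} {h : Fin t → ℕ} : h ∈ SepS k N t ↔ (∀ i, h i < N) ∧
    ∀ i j, i ≠ j → h i + k ≤ h j ∨ h j + k ≤ h i := by
  unfold SepS
  rw [mem_filter, Fintype.mem_piFinset]
  simp only [mem_range]

lemma card_SepS_le (k N t : ℕ) : ((SepS k N t).card : ℝ) ≤ (N : ℝ) ^ t := by
  have h1 : (SepS k N t).card ≤ N ^ t := by
    unfold SepS
    refine (card_filter_le _ _).trans (le_of_eq ?_)
    rw [Fintype.card_piFinset]
    simp
  exact_mod_cast h1

lemma card_close {k N t : ℕ} (hN : 1 ≤ N) (i j : Fin t) (hij : i ≠ j) :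
    ((Fintype.piFinset fun _ : Fin t => range N).filter
      (fun h => ¬ (h i + k ≤ h j ∨ h j + k ≤ h i))).card ≤ N ^ (t - 1) * (2 * k) := by
  classical
  set S' : Finset (Fin t → ℕ) := Fintype.piFinset (Function.update (fun _ => range N) i {0}) with hS'
  have hcard : S'.card = N ^ (t - 1) := by
    rw [hS', Fintype.card_piFinset]
    have h1 : ∀ a : Fin t, (Function.update (fun _ => range N) i {0} a).card =
        Function.update (fun _ => N) i 1 a := by
      intro a
      by_cases ha : a = i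
      · subst ha; simp
      · simp [Function.update_of_ne ha]
    rw [prod_congr rfl fun a _ => h1 a, prod_update_of_mem (mem_univ i), prod_const, one_mul]
    congr 1
    rw [card_sdiff_of_subset (subset_univ _), card_univ, Fintype.card_fin, card_singleton]
  rw [← hcard, ← card_range (2 * k), ← card_product]
  refine card_le_card_of_injOn (fun h => (Function.update h i 0, h i + k - h j)) (fun h hh => ?_) ?_
  · rw [Finset.mem_coe, mem_filter, Fintype.mem_piFinset] at hh
    rw [Finset.mem_coe, mem_product]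
    refine ⟨?_, ?_⟩
    · rw [hS', Fintype.mem_piFinset]
      intro a
      by_cases ha : a = i
      · subst ha; simp
      · simp only [Function.update_of_ne ha]
        exact hh.1 a
    · rw [mem_range]
      have := hh.2
      push Not at this
      change h i + k - h j < 2 * k
      omega
  · intro h hh h' hh' heq
    rw [Finset.mem_coe, mem_filter] at hh hh'
    simp only [Prod.mk.injEq] at heq
    obtain ⟨h1, h2⟩ := heq
    have h3 : ∀ a, a ≠ i → h a = h' a := by
      intro a ha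
      have := congrFun h1 a
      rwa [Function.update_of_ne ha, Function.update_of_ne ha] at this
    have h4 := h3 j hij.symm
    have h5 := hh.2
    have h6 := hh'.2
    push Not at h5 h6
    funext a
    by_cases ha : a = i
    · subst ha; omega
    · exact h3 a ha

lemma card_SepS_ge {k N t : ℕ} (hN : 1 ≤ N) :
    (N : ℝ) ^ t - t ^ 2 * ((N : ℝ) ^ (t - 1) * (2 * k)) ≤ (SepS k N t).card := by
  classical
  set U : Finset (Fin t → ℕ) := Fintype.piFinset fun _ => range N with hU
  have hUc : U.card = N ^ t := by rw [hU, Fintype.card_piFinset]; simp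
  set Bd : Fin t × Fin t → Finset (Fin t → ℕ) := fun p => U.filter
    (fun h => p.1 ≠ p.2 ∧ ¬ (h p.1 + k ≤ h p.2 ∨ h p.2 + k ≤ h p.1)) with hBd
  have h1 : U ⊆ SepS k N t ∪ univ.biUnion Bd := by
    intro h hh
    rw [mem_union]
    by_cases hs : h ∈ SepS k N t
    · exact Or.inl hs
    · refine Or.inr ?_
      rw [mem_SepS] at hs
      rw [hU, Fintype.mem_piFinset] at hh
      have h2 : ¬ ∀ i j, i ≠ j → h i + k ≤ h j ∨ h j + k ≤ h i := fun h3 =>
        hs ⟨fun i => mem_range.1 (hh i), h3⟩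
      push Not at h2
      obtain ⟨i, j, hij, h4⟩ := h2
      rw [mem_biUnion]
      refine ⟨(i, j), mem_univ _, ?_⟩
      rw [hBd]
      simp only [mem_filter]
      refine ⟨by rw [hU, Fintype.mem_piFinset]; exact hh, hij, ?_⟩
      push Not
      exact h4
  have h2 : ∀ p ∈ (univ : Finset (Fin t × Fin t)), (Bd p).card ≤ N ^ (t - 1) * (2 * k) := by
    intro p _
    by_cases hp : p.1 = p.2
    · have : Bd p = ∅ := by
        rw [hBd]
        simp only
        rw [filter_eq_empty_iff]
        intro h _ h3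
        exact h3.1 hp
      rw [this, card_empty]
      exact Nat.zero_le _
    · refine le_trans (card_le_card ?_) (card_close (k := k) hN p.1 p.2 hp)
      intro h hh
      rw [hBd] at hh
      simp only [mem_filter] at hh
      rw [mem_filter]
      exact ⟨hh.1, hh.2.2⟩
  have h3 := (card_le_card h1).trans (card_union_le _ _)
  have h4 : (univ.biUnion Bd).card ≤ t ^ 2 * (N ^ (t - 1) * (2 * k)) := by
    refine (card_biUnion_le_card_mul _ _ _ h2).trans (le_of_eq ?_)
    rw [card_univ, Fintype.card_prod, Fintype.card_fin]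
    ring
  have h5 : N ^ t ≤ (SepS k N t).card + t ^ 2 * (N ^ (t - 1) * (2 * k)) := by
    rw [← hUc]
    exact h3.trans (Nat.add_le_add_left h4 _)
  have h6 : (N : ℝ) ^ t ≤ (SepS k N t).card + t ^ 2 * ((N : ℝ) ^ (t - 1) * (2 * k)) := by
    exact_mod_cast h5
  linarith

/-- the number of separated tuples of occurrences -/
noncomputable def Dn (b k s N t : ℕ) (c : Fin t → ℕ) (x : ℝ) : ℝ :=
  ∑ h ∈ SepS k N t, ∏ i, Xw b k (Iw (c i)) (s + h i) x

open Classical in
lemma Dn_card (b k s N t : ℕ) (c : Fin t → ℕ) (x : ℝ) :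
    Dn b k s N t c x = ((SepS k N t).filter (fun h => ∀ i, wd b k (s + h i) x = c i)).card := by
  unfold Dn
  rw [card_filter]
  push_cast
  refine sum_congr rfl fun h _ => ?_
  by_cases hx : ∀ i, wd b k (s + h i) x = c i
  · rw [if_pos hx]
    refine prod_eq_one fun i _ => ?_
    unfold Xw Iw
    rw [if_pos (hx i)]
  · rw [if_neg hx]
    push Not at hx
    obtain ⟨i, hi⟩ := hx
    refine prod_eq_zero (mem_univ i) ?_
    unfold Xw Iw
    rw [if_neg hi]

lemma Dn_le {b k s N t w : ℕ} (hk : 1 ≤ k) (x : ℝ) :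
    Dn b k s N t (fun _ => w) x ≤ (Xn b k s N w x).descFactorial t := by
  classical
  rw [Dn_card]
  have h1 : Fintype.card (Fin t ↪ Oc b k s N w x) = (Xn b k s N w x).descFactorial t := by
    rw [Fintype.card_embedding_eq, Fintype.card_coe, Fintype.card_fin]
    rfl
  rw [← h1, ← Fintype.card_coe]
  refine Nat.cast_le.2 (Fintype.card_le_of_injective
    (fun h => ⟨fun i => ⟨h.1 i, ?_⟩, ?_⟩) ?_)
  · have h2 := (mem_filter.1 h.2)
    exact mem_Oc.2 ⟨(mem_SepS.1 h2.1).1 i, h2.2 i⟩
  · intro i j hij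
    by_contra hne
    have h2 := (mem_SepS.1 (mem_filter.1 h.2).1).2 i j hne
    have h3 : h.1 i = h.1 j := congrArg Subtype.val hij
    omega
  · intro h h' heq
    apply Subtype.ext
    funext i
    have h2 := congrArg (fun f : Fin t ↪ Oc b k s N w x => ((f i : Oc b k s N w x) : ℕ)) heq
    exact h2

lemma le_Dn {b k s N r w w' : ℕ} (x : ℝ)
    (H1 : ∀ i ∈ Oc b k s N w x, ∀ j ∈ Oc b k s N w x, i ≠ j → i + k ≤ j ∨ j + k ≤ i)
    (H2 : ∀ i ∈ Oc b k s N w' x, ∀ j ∈ Oc b k s N w' x, i ≠ j → i + k ≤ j ∨ j + k ≤ i)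
    (H3 : ∀ i ∈ Oc b k s N w x, ∀ j ∈ Oc b k s N w' x, i + k ≤ j ∨ j + k ≤ i) :
    (((Xn b k s N w x).descFactorial r : ℕ) : ℝ) * ((Xn b k s N w' x).descFactorial r : ℕ) ≤
      Dn b k s N (r + r) (Fin.append (fun _ => w) (fun _ => w')) x := by
  classical
  rw [Dn_card]
  have h1 : ∀ w, Fintype.card (Fin r ↪ Oc b k s N w x) = (Xn b k s N w x).descFactorial r := by
    intro w
    rw [Fintype.card_embedding_eq, Fintype.card_coe, Fintype.card_fin]
    rfl
  rw [← h1, ← h1, ← Nat.cast_mul, ← Fintype.card_prod, ← Fintype.card_coe]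
  refine Nat.cast_le.2 (Fintype.card_le_of_injective
    (fun p => ⟨Fin.append (fun i => ((p.1 i : Oc b k s N w x) : ℕ))
      (fun i => ((p.2 i : Oc b k s N w' x) : ℕ)), ?_⟩) ?_)
  · have hf : ∀ i, ((p.1 i : Oc b k s N w x) : ℕ) ∈ Oc b k s N w x := fun i => (p.1 i).2
    have hg : ∀ i, ((p.2 i : Oc b k s N w' x) : ℕ) ∈ Oc b k s N w' x := fun i => (p.2 i).2
    rw [mem_filter, mem_SepS]
    refine ⟨⟨?_, ?_⟩, ?_⟩
    · intro i
      refine Fin.addCases (fun i => ?_) (fun i => ?_) i
      · rw [Fin.append_left]; exact (mem_Oc.1 (hf i)).1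
      · rw [Fin.append_right]; exact (mem_Oc.1 (hg i)).1
    · intro i j
      refine Fin.addCases (fun i => ?_) (fun i => ?_) i <;>
        refine Fin.addCases (fun j => ?_) (fun j => ?_) j <;> intro hij
      · rw [Fin.append_left, Fin.append_left]
        refine H1 _ (hf i) _ (hf j) fun h => hij ?_
        rw [p.1.injective (Subtype.ext h)]
      · rw [Fin.append_left, Fin.append_right]
        exact H3 _ (hf i) _ (hg j)
      · rw [Fin.append_left, Fin.append_right]
        exact (H3 _ (hf j) _ (hg i)).symm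
      · rw [Fin.append_right, Fin.append_right]
        refine H2 _ (hg i) _ (hg j) fun h => hij ?_
        rw [p.2.injective (Subtype.ext h)]
    · intro i
      refine Fin.addCases (fun i => ?_) (fun i => ?_) i
      · rw [Fin.append_left, Fin.append_left]; exact (mem_Oc.1 (hf i)).2
      · rw [Fin.append_right, Fin.append_right]; exact (mem_Oc.1 (hg i)).2
  · intro p p' heq
    have h2 := congrArg Subtype.val heq
    simp only at h2
    apply Prod.ext
    · apply Function.Embedding.ext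
      intro i
      apply Subtype.ext
      have := congrFun h2 (Fin.castAdd r i)
      rwa [Fin.append_left, Fin.append_left] at this
    · apply Function.Embedding.ext
      intro i
      apply Subtype.ext
      have := congrFun h2 (Fin.natAdd r i)
      rwa [Fin.append_right, Fin.append_right] at this

/-- the close pairs of places -/
def Cl (k N : ℕ) : Finset (ℕ × ℕ) :=
  (range N ×ˢ range N).filter (fun p => p.1 < p.2 + k ∧ p.2 < p.1 + k)

lemma mem_Cl {k N : ℕ} {p : ℕ × ℕ} :
    p ∈ Cl k N ↔ (p.1 < N ∧ p.2 < N) ∧ (p.1 < p.2 + k ∧ p.2 < p.1 + k) := by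
  unfold Cl
  rw [mem_filter, mem_product, mem_range, mem_range]

lemma card_Cl (k N : ℕ) : ((Cl k N).card : ℝ) ≤ 2 * k * N := by
  have h1 : (Cl k N).card ≤ N * (2 * k) := by
    have h0 : N * (2 * k) = (range N ×ˢ range (2 * k)).card := by
      rw [card_product, card_range, card_range]
    rw [h0]
    refine card_le_card_of_injOn (fun p => (p.1, p.2 + k - p.1)) (fun p hp => ?_) ?_
    · rw [Finset.mem_coe, mem_Cl] at hp
      rw [Finset.mem_coe, mem_product, mem_range, mem_range]
      constructor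
      · exact hp.1.1
      · have := hp.2
        change p.2 + k - p.1 < 2 * k
        omega
    · intro p hp p' hp' heq
      rw [Finset.mem_coe, mem_Cl] at hp hp'
      simp only [Prod.mk.injEq] at heq
      apply Prod.ext
      · exact heq.1
      · omega
  have h2 : ((Cl k N).card : ℝ) ≤ N * (2 * k) := by exact_mod_cast h1
  linarith

/-- the number of bad pairs of occurrences -/
noncomputable def Bn (b k s N w w' : ℕ) (x : ℝ) : ℝ :=
  ∑ p ∈ Cl k N, ((if p.1 = p.2 then 0 else
      Xw b k (Iw w) (s + p.1) x * Xw b k (Iw w) (s + p.2) x) +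
    (if p.1 = p.2 then 0 else
      Xw b k (Iw w') (s + p.1) x * Xw b k (Iw w') (s + p.2) x) +
    Xw b k (Iw w) (s + p.1) x * Xw b k (Iw w') (s + p.2) x)

lemma Xw_one {b k s w i N : ℕ} {x : ℝ} (h : i ∈ Oc b k s N w x) :
    Xw b k (Iw w) (s + i) x = 1 := by
  unfold Xw Iw
  rw [if_pos (mem_Oc.1 h).2]

lemma Xw_nonneg (b k w n : ℕ) (x : ℝ) : 0 ≤ Xw b k (Iw w) n x := Iw_nonneg _ _

lemma term_nonneg (b k s w w' : ℕ) (p : ℕ × ℕ) (x : ℝ) :
    0 ≤ (if p.1 = p.2 then 0 else Xw b k (Iw w) (s + p.1) x * Xw b k (Iw w) (s + p.2) x) +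
    (if p.1 = p.2 then 0 else Xw b k (Iw w') (s + p.1) x * Xw b k (Iw w') (s + p.2) x) +
    Xw b k (Iw w) (s + p.1) x * Xw b k (Iw w') (s + p.2) x := by
  have h1 := mul_nonneg (Xw_nonneg b k w (s + p.1) x) (Xw_nonneg b k w (s + p.2) x)
  have h2 := mul_nonneg (Xw_nonneg b k w' (s + p.1) x) (Xw_nonneg b k w' (s + p.2) x)
  have h3 := mul_nonneg (Xw_nonneg b k w (s + p.1) x) (Xw_nonneg b k w' (s + p.2) x)
  split_ifs <;> linarith

/-- the pointwise inequality -/
lemma point {b k s N r w w' : ℕ} (x : ℝ) {θ : ℝ} (hθ : 0 < θ) :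
    (((Xn b k s N w x).descFactorial r : ℕ) : ℝ) * ((Xn b k s N w' x).descFactorial r : ℕ) ≤
      Dn b k s N (r + r) (Fin.append (fun _ => w) (fun _ => w')) x +
      (θ * Bn b k s N w w' x +
        θ⁻¹ * ((XR b k s N w x ^ (4 * r) + XR b k s N w' x ^ (4 * r)) / 2)) / 2 := by
  have hD : 0 ≤ Dn b k s N (r + r) (Fin.append (fun _ => w) (fun _ => w')) x :=
    sum_nonneg fun h _ => prod_nonneg fun i _ => Iw_nonneg _ _
  have hX := XR_nonneg b k s N w x
  have hX' := XR_nonneg b k s N w' x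
  have hB0 : 0 ≤ Bn b k s N w w' x := sum_nonneg fun p _ => term_nonneg _ _ _ _ _ _ _
  by_cases hgood : (∀ i ∈ Oc b k s N w x, ∀ j ∈ Oc b k s N w x, i ≠ j → i + k ≤ j ∨ j + k ≤ i) ∧
    (∀ i ∈ Oc b k s N w' x, ∀ j ∈ Oc b k s N w' x, i ≠ j → i + k ≤ j ∨ j + k ≤ i) ∧
    (∀ i ∈ Oc b k s N w x, ∀ j ∈ Oc b k s N w' x, i + k ≤ j ∨ j + k ≤ i)
  · have h1 := le_Dn (r := r) x hgood.1 hgood.2.1 hgood.2.2
    have h2 : 0 ≤ (θ * Bn b k s N w w' x +
        θ⁻¹ * ((XR b k s N w x ^ (4 * r) + XR b k s N w' x ^ (4 * r)) / 2)) / 2 := by positivity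
    linarith
  · -- there is a bad pair
    have hB : 1 ≤ Bn b k s N w w' x := by
      have key : ∃ p ∈ Cl k N, 1 ≤ (if p.1 = p.2 then 0 else
          Xw b k (Iw w) (s + p.1) x * Xw b k (Iw w) (s + p.2) x) +
        (if p.1 = p.2 then 0 else
          Xw b k (Iw w') (s + p.1) x * Xw b k (Iw w') (s + p.2) x) +
        Xw b k (Iw w) (s + p.1) x * Xw b k (Iw w') (s + p.2) x := by
        rw [not_and_or, not_and_or] at hgood
        rcases hgood with h | h | h
        · push Not at h
          obtain ⟨i, hi, j, hj, hij, h1, h2⟩ := h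
          refine ⟨(i, j), mem_Cl.2 ⟨⟨(mem_Oc.1 hi).1, (mem_Oc.1 hj).1⟩, h2, h1⟩, ?_⟩
          simp only
          rw [if_neg hij, if_neg hij, Xw_one hi, Xw_one hj]
          have h3 := mul_nonneg (Xw_nonneg b k w' (s + i) x) (Xw_nonneg b k w' (s + j) x)
          have h4 := Xw_nonneg b k w' (s + j) x
          linarith
        · push Not at h
          obtain ⟨i, hi, j, hj, hij, h1, h2⟩ := h
          refine ⟨(i, j), mem_Cl.2 ⟨⟨(mem_Oc.1 hi).1, (mem_Oc.1 hj).1⟩, h2, h1⟩, ?_⟩
          simp only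
          rw [if_neg hij, if_neg hij, Xw_one hi, Xw_one hj]
          have h3 := mul_nonneg (Xw_nonneg b k w (s + i) x) (Xw_nonneg b k w (s + j) x)
          have h4 := Xw_nonneg b k w (s + i) x
          linarith
        · push Not at h
          obtain ⟨i, hi, j, hj, h1, h2⟩ := h
          refine ⟨(i, j), mem_Cl.2 ⟨⟨(mem_Oc.1 hi).1, (mem_Oc.1 hj).1⟩, h2, h1⟩, ?_⟩
          simp only
          rw [Xw_one hi, Xw_one hj]
          have h3 := mul_nonneg (Xw_nonneg b k w (s + i) x) (Xw_nonneg b k w (s + j) x)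
          have h4 := mul_nonneg (Xw_nonneg b k w' (s + i) x) (Xw_nonneg b k w' (s + j) x)
          have h5 := Xw_nonneg b k w (s + j) x
          have h6 := Xw_nonneg b k w' (s + i) x
          split_ifs <;> linarith
      obtain ⟨p, hp, h1⟩ := key
      refine h1.trans ?_
      unfold Bn
      exact single_le_sum (f := fun p : ℕ × ℕ => (if p.1 = p.2 then 0 else
          Xw b k (Iw w) (s + p.1) x * Xw b k (Iw w) (s + p.2) x) +
        (if p.1 = p.2 then 0 else
          Xw b k (Iw w') (s + p.1) x * Xw b k (Iw w') (s + p.2) x) +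
        Xw b k (Iw w) (s + p.1) x * Xw b k (Iw w') (s + p.2) x)
        (fun p _ => term_nonneg b k s w w' p x) hp
    have h1 : (((Xn b k s N w x).descFactorial r : ℕ) : ℝ) ≤ XR b k s N w x ^ r := by
      rw [← Xn_cast]
      exact_mod_cast Nat.descFactorial_le_pow _ _
    have h2 : (((Xn b k s N w' x).descFactorial r : ℕ) : ℝ) ≤ XR b k s N w' x ^ r := by
      rw [← Xn_cast]
      exact_mod_cast Nat.descFactorial_le_pow _ _
    set u := XR b k s N w x ^ r with hu
    set v := XR b k s N w' x ^ r with hv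
    have hu0 : 0 ≤ u := by positivity
    have hv0 : 0 ≤ v := by positivity
    have e1 : XR b k s N w x ^ (4 * r) = u ^ 4 := by rw [hu, ← pow_mul]; congr 1; ring
    have e2 : XR b k s N w' x ^ (4 * r) = v ^ 4 := by rw [hv, ← pow_mul]; congr 1; ring
    have h3 : (((Xn b k s N w x).descFactorial r : ℕ) : ℝ) *
        ((Xn b k s N w' x).descFactorial r : ℕ) ≤ u * v :=
      mul_le_mul h1 h2 (Nat.cast_nonneg _) hu0
    have h4 : u * v ≤ (θ + θ⁻¹ * (u * v) ^ 2) / 2 := by
      have h5 : 0 ≤ θ⁻¹ * (θ - u * v) ^ 2 := by positivity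
      have h6 : θ⁻¹ * (θ - u * v) ^ 2 = θ - 2 * (u * v) + θ⁻¹ * (u * v) ^ 2 := by
        field_simp
        ring
      linarith
    have h5 : (u * v) ^ 2 ≤ (u ^ 4 + v ^ 4) / 2 := by nlinarith [sq_nonneg (u ^ 2 - v ^ 2)]
    have h6 : θ ≤ θ * Bn b k s N w w' x := by nlinarith
    have h7 : θ⁻¹ * (u * v) ^ 2 ≤ θ⁻¹ * ((u ^ 4 + v ^ 4) / 2) := by gcongr
    rw [e1, e2]
    linarith

end Pool.Agent.Y933.KF
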