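import Pool.Agent.Y933.KE.TW
import Pool.Agent.Y933.KD.Leb2
import Pool.Agent.Y933.KD.Norm

/-!
# Words of a random real number: separated places, close places, moments (helper933)
-/

set_option autoImplicit false

namespace Pool.Agent.Y933.KF

open Finset Real MeasureTheory Filter Topology
open Pool.Agent.Y933.KD
open scoped Nat

/-- the indicator function of the word `w` -/
noncomputable def Iw (w : ℕ) (c : ℕ) : ℝ := if c = w then 1 else 0

lemma Iw_nonneg (w c : ℕ) : 0 ≤ Iw w c := by unfold Iw; split_ifs <;> norm_num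

lemma Iw_le (w c : ℕ) : Iw w c ≤ 1 := by unfold Iw; split_ifs <;> norm_num

lemma abs_Iw_le (w c : ℕ) : |Iw w c| ≤ 1 := by
  rw [abs_of_nonneg (Iw_nonneg w c)]; exact Iw_le w c

/-- the probability of a word -/
lemma int_Iw {b k w : ℕ} (hb : 1 ≤ b) (hw : w < b ^ k) (n : ℕ) :
    ∫ x, Xw b k (Iw w) n x ∂Leb = 1 / (b : ℝ) ^ k := by
  unfold Xw
  rw [int_word hb k n (Iw w)]
  congr 1
  unfold Iw
  rw [sum_ite_eq', if_pos (mem_range.2 hw)]

/-- exponential moment of one term -/
lemma exp_one_ind {b k w : ℕ} (hb : 1 ≤ b) (hw : w < b ^ k) (s : ℝ) :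
    ∫ x, exp (s * Xw b k (Iw w) 0 x) ∂Leb ≤ exp ((exp s - 1) / (b : ℝ) ^ k) := by
  have hb' : (0 : ℝ) < b := by exact_mod_cast hb
  have hbk : (0 : ℝ) < (b : ℝ) ^ k := by positivity
  have h1 : ∫ x, exp (s * Xw b k (Iw w) 0 x) ∂Leb =
      (∑ c ∈ range (b ^ k), exp (s * Iw w c)) / (b : ℝ) ^ k :=
    int_word hb k 0 (fun c => exp (s * Iw w c))
  have h2 : ∀ c ∈ range (b ^ k), exp (s * Iw w c) = 1 + (if c = w then exp s - 1 else 0) := by
    intro c _
    unfold Iw
    split_ifs with h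
    · rw [mul_one]; ring
    · rw [mul_zero, Real.exp_zero]; ring
  rw [h1, sum_congr rfl h2, sum_add_distrib, sum_ite_eq', if_pos (mem_range.2 hw), sum_const,
    card_range, nsmul_eq_mul, mul_one]
  push_cast
  have h3 : ((b : ℝ) ^ k + (exp s - 1)) / (b : ℝ) ^ k = (exp s - 1) / (b : ℝ) ^ k + 1 := by
    field_simp
    ring
  rw [h3]
  exact Real.add_one_le_exp _

lemma exp_prog_ind {b k w : ℕ} (hb : 1 ≤ b) (hw : w < b ^ k) (s : ℝ) (r J : ℕ) :
    ∫ x, exp (s * ∑ j ∈ range J, Xw b k (Iw w) (r + k * j) x) ∂Leb ≤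
      exp ((exp s - 1) / (b : ℝ) ^ k * J) := by
  set A : ℝ → ℝ := fun x => exp (s * Xw b k (Iw w) 0 x) with hA
  have hAm : Measurable A := Real.measurable_exp.comp ((measurable_Xw _ _ _ _).const_mul s)
  have hAb : ∀ x, |A x| ≤ exp |s| := by
    intro x
    rw [hA, abs_of_pos (exp_pos _)]
    apply exp_le_exp.2
    calc s * Xw b k (Iw w) 0 x ≤ |s * Xw b k (Iw w) 0 x| := le_abs_self _
      _ = |s| * |Xw b k (Iw w) 0 x| := abs_mul _ _
      _ ≤ |s| * 1 := by gcongr; exact abs_Iw_le _ _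
      _ = |s| := mul_one _
  have h1 : ∀ x, exp (s * ∑ j ∈ range J, Xw b k (Iw w) (r + k * j) x) =
      (fun y => ∏ j ∈ range J, A (Tb b (k * j) y)) (Tb b r x) := by
    intro x
    simp only [hA]
    rw [← Real.exp_sum, mul_sum]
    congr 1
    refine sum_congr rfl fun j _ => ?_
    rw [Xw_add, ← Xw_add b k (Iw w) (k * j) 0, Nat.add_zero]
  simp only [h1]
  rw [invariance_real hb (h := fun y => ∏ j ∈ range J, A (Tb b (k * j) y))
    (Finset.measurable_fun_prod _ fun j _ => hAm.comp (measurable_Tb _ _))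
    (C := exp |s| ^ J)]
  · rw [block_prod_real hb ((dep_Xw (G := Iw w) hb (n := 0) (p := k) (by omega)).comp
      (fun y => exp (s * y))) hAm hAb]
    have h2 : 0 ≤ ∫ x, A x ∂Leb := integral_nonneg fun x => (exp_pos _).le
    refine (pow_le_pow_left₀ h2 (exp_one_ind hb hw s) J).trans (le_of_eq ?_)
    rw [← Real.exp_nat_mul, mul_comm]
  · intro x
    rw [Finset.abs_prod]
    calc ∏ j ∈ range J, |A (Tb b (k * j) x)| ≤ ∏ _j ∈ range J, exp |s| :=
          prod_le_prod (fun _ _ => abs_nonneg _) fun j _ => hAb _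
      _ = exp |s| ^ J := by rw [prod_const, card_range]

/-- exponential moment of the number of occurrences at `k J` consecutive places -/
lemma exp_blocks_ind {b k w : ℕ} (hb : 1 ≤ b) (hk : 1 ≤ k) (hw : w < b ^ k) (s : ℝ) (J : ℕ) :
    ∫ x, exp (s * ∑ n ∈ range (k * J), Xw b k (Iw w) n x) ∂Leb ≤
      exp ((exp (s * k) - 1) / (b : ℝ) ^ k * J) := by
  have hkR : (0 : ℝ) < k := by exact_mod_cast hk
  have hm : ∀ r, Measurable (fun x => exp ((s * k) * ∑ j ∈ range J, Xw b k (Iw w) (r + k * j) x)) :=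
    fun r => Real.measurable_exp.comp
      ((Finset.measurable_fun_sum _ fun j _ => measurable_Xw _ _ _ _).const_mul _)
  have hint : ∀ r, Integrable (fun x => exp ((s * k) * ∑ j ∈ range J, Xw b k (Iw w) (r + k * j) x))
      Leb := by
    intro r
    refine integrable_of_bdd (hm r) (R := exp (|s * k| * J)) fun x => ?_
    rw [abs_of_pos (exp_pos _)]
    apply exp_le_exp.2
    refine (le_abs_self _).trans ?_
    rw [abs_mul]
    gcongr
    refine (Finset.abs_sum_le_sum_abs _ _).trans ?_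
    calc ∑ j ∈ range J, |Xw b k (Iw w) (r + k * j) x| ≤ ∑ _j ∈ range J, (1 : ℝ) :=
          sum_le_sum fun j _ => abs_Iw_le _ _
      _ = J := by rw [sum_const, card_range, nsmul_eq_mul, mul_one]
  have h1 : ∀ x, exp (s * ∑ n ∈ range (k * J), Xw b k (Iw w) n x) ≤
      ∑ r ∈ range k, (1 / (k : ℝ)) * exp ((s * k) * ∑ j ∈ range J, Xw b k (Iw w) (r + k * j) x) := by
    intro x
    rw [sum_range_blocks]
    have h2 := convexOn_exp.map_sum_le (t := range k) (w := fun _ => 1 / (k : ℝ))
      (p := fun r => (s * k) * ∑ j ∈ range J, Xw b k (Iw w) (r + k * j) x)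
      (fun _ _ => by positivity) (by rw [sum_const, card_range, nsmul_eq_mul]; field_simp)
      (fun _ _ => Set.mem_univ _)
    simp only [smul_eq_mul] at h2
    refine le_trans (le_of_eq ?_) h2
    congr 1
    rw [mul_sum]
    refine sum_congr rfl fun r _ => ?_
    field_simp
  calc ∫ x, exp (s * ∑ n ∈ range (k * J), Xw b k (Iw w) n x) ∂Leb
      ≤ ∫ x, ∑ r ∈ range k, (1 / (k : ℝ)) *
          exp ((s * k) * ∑ j ∈ range J, Xw b k (Iw w) (r + k * j) x) ∂Leb :=
        integral_mono_of_nonneg (Eventually.of_forall fun x => (exp_pos _).le)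
          (integrable_finsetSum _ fun r _ => (hint r).const_mul _) (Eventually.of_forall h1)
    _ = ∑ r ∈ range k, (1 / (k : ℝ)) *
          ∫ x, exp ((s * k) * ∑ j ∈ range J, Xw b k (Iw w) (r + k * j) x) ∂Leb := by
        rw [integral_finsetSum _ fun r _ => (hint r).const_mul _]
        simp only [MeasureTheory.integral_const_mul]
    _ ≤ ∑ r ∈ range k, (1 / (k : ℝ)) * exp ((exp (s * k) - 1) / (b : ℝ) ^ k * J) := by
        gcongr with r _
        exact exp_prog_ind hb hw (s * k) r J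
    _ = exp ((exp (s * k) - 1) / (b : ℝ) ^ k * J) := by
        rw [sum_const, card_range, nsmul_eq_mul]
        field_simp

/-- the number of occurrences of the word `w` at the places `s, …, s + N - 1` -/
noncomputable def XR (b k s N w : ℕ) (x : ℝ) : ℝ := ∑ i ∈ range N, Xw b k (Iw w) (s + i) x

lemma measurable_XR (b k s N w : ℕ) : Measurable (XR b k s N w) :=
  Finset.measurable_fun_sum _ fun _ _ => measurable_Xw _ _ _ _

lemma XR_nonneg (b k s N w : ℕ) (x : ℝ) : 0 ≤ XR b k s N w x :=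
  sum_nonneg fun _ _ => Iw_nonneg _ _

lemma XR_le (b k s N w : ℕ) (x : ℝ) : XR b k s N w x ≤ N := by
  unfold XR
  calc ∑ i ∈ range N, Xw b k (Iw w) (s + i) x ≤ ∑ _i ∈ range N, (1 : ℝ) :=
        sum_le_sum fun _ _ => Iw_le _ _
    _ = N := by rw [sum_const, card_range, nsmul_eq_mul, mul_one]

lemma XR_card (b k s N w : ℕ) (x : ℝ) :
    XR b k s N w x = (((range N).filter (fun i => wd b k (s + i) x = w)).card : ℝ) := by
  unfold XR Xw Iw
  rw [card_filter]
  push_cast
  rfl

/-- moments of the number of occurrences -/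
lemma mom_Leb {b k w : ℕ} (hb : 1 ≤ b) (hk : 1 ≤ k) (hw : w < b ^ k) (s N p : ℕ) :
    ∫ x, XR b k s N w x ^ p ∂Leb ≤
      (k : ℝ) ^ p * (p ! : ℝ) * exp (2 * (N / (b : ℝ) ^ k + 1)) := by
  have hb' : (1 : ℝ) ≤ b := by exact_mod_cast hb
  have hkR : (1 : ℝ) ≤ k := by exact_mod_cast hk
  have hbk : (1 : ℝ) ≤ (b : ℝ) ^ k := one_le_pow₀ hb'
  set L : ℕ := N / k + 1 with hL
  have hNL : N ≤ k * L := by
    rw [hL, Nat.mul_succ]
    have := Nat.div_add_mod N k
    have h2 := Nat.mod_lt N (show k > 0 by omega)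
    omega
  set H : ℝ → ℝ := fun y => exp (1 / (k : ℝ) * ∑ n ∈ range (k * L), Xw b k (Iw w) n y) with hH
  have hHm : Measurable H := Real.measurable_exp.comp
    ((Finset.measurable_fun_sum _ fun j _ => measurable_Xw _ _ _ _).const_mul _)
  have hHb : ∀ y, |H y| ≤ exp (1 / (k : ℝ) * (k * L : ℕ)) := by
    intro y
    rw [hH, abs_of_pos (exp_pos _)]
    apply exp_le_exp.2
    gcongr
    calc ∑ n ∈ range (k * L), Xw b k (Iw w) n y ≤ ∑ _n ∈ range (k * L), (1 : ℝ) :=
          sum_le_sum fun _ _ => Iw_le _ _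
      _ = (k * L : ℕ) := by rw [sum_const, card_range, nsmul_eq_mul, mul_one]
  have h1 : ∀ x, XR b k s N w x ^ p ≤ (k : ℝ) ^ p * (p ! : ℝ) * H (Tb b s x) := by
    intro x
    have h2 : XR b k s N w x / k ≤ 1 / (k : ℝ) * ∑ n ∈ range (k * L), Xw b k (Iw w) n (Tb b s x) := by
      rw [div_eq_mul_one_div, mul_comm]
      gcongr
      unfold XR
      have h3 : ∀ i, Xw b k (Iw w) (s + i) x = Xw b k (Iw w) i (Tb b s x) := fun i => Xw_add _ _ _ _ _ _
      simp only [h3]
      exact sum_le_sum_of_subset_of_nonneg (range_subset_range.2 hNL) fun _ _ _ => Iw_nonneg _ _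
    have h3 : 0 ≤ XR b k s N w x / k := div_nonneg (XR_nonneg _ _ _ _ _ _) (by linarith)
    have h4 := Real.pow_div_factorial_le_exp (XR b k s N w x / k) h3 p
    have hp : (0 : ℝ) < (p ! : ℝ) := by positivity
    rw [div_le_iff₀ hp, div_pow, div_le_iff₀ (by positivity)] at h4
    refine h4.trans ?_
    have h5 : exp (XR b k s N w x / k) ≤ H (Tb b s x) := exp_le_exp.2 h2
    calc exp (XR b k s N w x / k) * (p ! : ℝ) * (k : ℝ) ^ p ≤
          H (Tb b s x) * (p ! : ℝ) * (k : ℝ) ^ p := by gcongr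
      _ = _ := by ring
  have hint : Integrable (fun x => H (Tb b s x)) Leb :=
    integrable_of_bdd (hHm.comp (measurable_Tb _ _)) fun x => hHb _
  calc ∫ x, XR b k s N w x ^ p ∂Leb ≤ ∫ x, (k : ℝ) ^ p * (p ! : ℝ) * H (Tb b s x) ∂Leb :=
        integral_mono_of_nonneg (Eventually.of_forall fun x => pow_nonneg (XR_nonneg _ _ _ _ _ _) _)
          (hint.const_mul _) (Eventually.of_forall h1)
    _ = (k : ℝ) ^ p * (p ! : ℝ) * ∫ x, H x ∂Leb := by
        rw [MeasureTheory.integral_const_mul, invariance_real hb hHm hHb]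
    _ ≤ (k : ℝ) ^ p * (p ! : ℝ) * exp (2 * (N / (b : ℝ) ^ k + 1)) := by
        gcongr
        refine (exp_blocks_ind hb hk hw (1 / (k : ℝ)) L).trans ?_
        apply exp_le_exp.2
        have e1 : 1 / (k : ℝ) * k = 1 := by field_simp
        rw [e1]
        have e2 : exp 1 - 1 ≤ 2 := by
          have := Real.exp_one_lt_d9
          linarith
        have e3 : (L : ℝ) ≤ N + 1 := by
          rw [hL]
          push_cast
          have : ((N / k : ℕ) : ℝ) ≤ N := by exact_mod_cast Nat.div_le_self N k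
          linarith
        calc (exp 1 - 1) / (b : ℝ) ^ k * L ≤ 2 / (b : ℝ) ^ k * (N + 1) := by gcongr
          _ = 2 * (N / (b : ℝ) ^ k + 1 / (b : ℝ) ^ k) := by ring
          _ ≤ 2 * (N / (b : ℝ) ^ k + 1) := by
              gcongr
              rw [div_le_one (by linarith)]
              exact hbk

/-- separated words are independent -/
lemma int_sep {ι : Type*} {b k : ℕ} (hb : 1 ≤ b) (n c : ι → ℕ) (T : Finset ι)
    (hc : ∀ i ∈ T, c i < b ^ k)
    (hsep : ∀ i ∈ T, ∀ j ∈ T, i ≠ j → n i + k ≤ n j ∨ n j + k ≤ n i) (hk : 1 ≤ k) :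
    ∫ x, ∏ i ∈ T, Xw b k (Iw (c i)) (n i) x ∂Leb = (1 / (b : ℝ) ^ k) ^ T.card := by
  classical
  revert hc hsep
  refine Finset.induction_on_min_value n T ?_ ?_
  · intro _ _
    simp
  · intro a s ha hmin ih hc hsep
    have h1 : ∀ i ∈ s, n a + k ≤ n i := by
      intro i hi
      have hne : a ≠ i := fun h => ha (h ▸ hi)
      rcases hsep a (mem_insert_self _ _) i (mem_insert_of_mem hi) hne with h | h
      · exact h
      · have := hmin i hi
        omega
    set p := n a + k with hp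
    set h : ℝ → ℝ := fun y => ∏ i ∈ s, Xw b k (Iw (c i)) (n i - p) y with hh
    have hhm : Measurable h := Finset.measurable_fun_prod _ fun i _ => measurable_Xw _ _ _ _
    have hhb : ∀ y, |h y| ≤ 1 := by
      intro y
      rw [hh, Finset.abs_prod]
      exact prod_le_one (fun _ _ => abs_nonneg _) fun i _ => abs_Iw_le _ _
    have h2 : ∀ x, ∏ i ∈ s, Xw b k (Iw (c i)) (n i) x = h (Tb b p x) := by
      intro x
      rw [hh]
      refine prod_congr rfl fun i hi => ?_
      rw [← Xw_add, Nat.add_sub_cancel' (h1 i hi)]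
    have h3 : ∫ x, ∏ i ∈ insert a s, Xw b k (Iw (c i)) (n i) x ∂Leb =
        ∫ x, Xw b k (Iw (c a)) (n a) x * h (Tb b p x) ∂Leb := by
      congr 1
      ext x
      rw [prod_insert ha, h2]
    rw [h3, renewal_real hb (dep_Xw hb le_rfl) hhm hhb, int_Iw hb (hc a (mem_insert_self _ _)),
      card_insert_of_notMem ha, pow_succ, mul_comm, ← invariance_real (p := p) hb hhm hhb]
    congr 1
    rw [← ih (fun i hi => hc i (mem_insert_of_mem hi)) fun i hi j hj =>
      hsep i (mem_insert_of_mem hi) j (mem_insert_of_mem hj)]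
    congr 1
    ext x
    exact (h2 x).symm

/-- the product of the indicator functions -/
lemma prod_WE {b k t : ℕ} (n c : Fin t → ℕ) (x : ℝ) :
    ∏ i, Xw b k (Iw (c i)) (n i) x = (KE.WE b n (fun _ => k) c).indicator (1 : ℝ → ℝ) x := by
  by_cases hx : x ∈ KE.WE b n (fun _ => k) c
  · rw [Set.indicator_of_mem hx, Pi.one_apply]
    refine prod_eq_one fun i _ => ?_
    unfold Xw Iw
    rw [if_pos (hx i)]
  · rw [Set.indicator_of_notMem hx]
    have h1 : ∃ i, ¬ wd b k (n i) x = c i := by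
      by_contra hcon
      push Not at hcon
      exact hx hcon
    obtain ⟨i, hi⟩ := h1
    refine prod_eq_zero (mem_univ i) ?_
    unfold Xw Iw
    rw [if_neg hi]

lemma int_WE {b k t : ℕ} (P : Measure ℝ) [IsProbabilityMeasure P] (n c : Fin t → ℕ) :
    ∫ x, ∏ i, Xw b k (Iw (c i)) (n i) x ∂P = P.real (KE.WE b n (fun _ => k) c) := by
  simp only [prod_WE]
  exact integral_indicator_one (KE.measurableSet_WE _ _ _ _)

/-- the number of solutions of an equation on words -/
lemma card_rep {b k g : ℕ} (hb : 2 ≤ b) (hg : 1 ≤ g) :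
    ((range (b ^ (k + g))).filter (fun v => v / b ^ g = v % b ^ k)).card ≤ b ^ g := by
  have hbg : 0 < b ^ g := by positivity
  have hbk : 0 < b ^ k := by positivity
  calc ((range (b ^ (k + g))).filter (fun v => v / b ^ g = v % b ^ k)).card
      ≤ (range (b ^ g)).card := by
        refine card_le_card_of_injOn (fun v => v % b ^ g) (fun v _ => ?_) ?_
        · rw [Finset.mem_coe, mem_range]
          exact Nat.mod_lt _ hbg
        · intro v hv v' hv' hvv
          rw [Finset.mem_coe, mem_filter] at hv hv'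
          simp only at hvv
          obtain ⟨-, h1⟩ := hv
          obtain ⟨-, h2⟩ := hv'
          -- the congruences
          have h3 : ∀ z : ℕ, z / b ^ g = z % b ^ k →
              ((b : ℤ) ^ k ∣ ((b : ℤ) ^ g - 1) * (z / b ^ g : ℕ) + (z % b ^ g : ℕ)) := by
            intro z hz
            have h4 : ((b : ℤ) ^ g - 1) * (z / b ^ g : ℕ) + (z % b ^ g : ℕ) =
                (z : ℤ) - (z % b ^ k : ℕ) := by
              have h5 := Nat.div_add_mod z (b ^ g)
              have h6 : ((b : ℤ) ^ g) * (z / b ^ g : ℕ) + (z % b ^ g : ℕ) = z := by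
                exact_mod_cast h5
              have h7 : ((z / b ^ g : ℕ) : ℤ) = ((z % b ^ k : ℕ) : ℤ) := by exact_mod_cast hz
              linear_combination h6 - h7
            rw [h4]
            have h8 : ((b : ℤ) ^ k) = ((b ^ k : ℕ) : ℤ) := by push_cast; rfl
            rw [h8]
            have := Nat.dvd_sub_mod (n := b ^ k) z
            have h9 : (z : ℤ) - ((z % b ^ k : ℕ) : ℤ) = ((z - z % b ^ k : ℕ) : ℤ) := by
              rw [Nat.cast_sub (Nat.mod_le _ _)]
            rw [h9]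
            exact_mod_cast this
          have h4 := dvd_sub (h3 v h1) (h3 v' h2)
          rw [hvv] at h4
          have h5 : (b : ℤ) ^ k ∣ ((b : ℤ) ^ g - 1) * (((v / b ^ g : ℕ) : ℤ) - (v' / b ^ g : ℕ)) := by
            have e : ((b : ℤ) ^ g - 1) * (v / b ^ g : ℕ) + (v' % b ^ g : ℕ) -
                (((b : ℤ) ^ g - 1) * (v' / b ^ g : ℕ) + (v' % b ^ g : ℕ)) =
                ((b : ℤ) ^ g - 1) * (((v / b ^ g : ℕ) : ℤ) - (v' / b ^ g : ℕ)) := by ring
            rwa [e] at h4
          have hcop : IsCoprime ((b : ℤ) ^ k) ((b : ℤ) ^ g - 1) := by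
            apply IsCoprime.pow_left
            obtain ⟨g', rfl⟩ : ∃ g', g = g' + 1 := ⟨g - 1, by omega⟩
            refine ⟨(b : ℤ) ^ g', -1, ?_⟩
            rw [pow_succ]
            ring
          have h6 := hcop.dvd_of_dvd_mul_left h5
          have h7 : v / b ^ g < b ^ k := by rw [h1]; exact Nat.mod_lt _ hbk
          have h8 : v' / b ^ g < b ^ k := by rw [h2]; exact Nat.mod_lt _ hbk
          have h9 : ((v / b ^ g : ℕ) : ℤ) - (v' / b ^ g : ℕ) = 0 := by
            apply Int.eq_zero_of_abs_lt_dvd h6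
            have h10 : ((v / b ^ g : ℕ) : ℤ) < (b : ℤ) ^ k := by exact_mod_cast h7
            have h11 : ((v' / b ^ g : ℕ) : ℤ) < (b : ℤ) ^ k := by exact_mod_cast h8
            have h12 : (0 : ℤ) ≤ ((v / b ^ g : ℕ) : ℤ) := Int.natCast_nonneg _
            have h13 : (0 : ℤ) ≤ ((v' / b ^ g : ℕ) : ℤ) := Int.natCast_nonneg _
            rw [abs_lt]
            constructor <;> linarith
          have h10 : v / b ^ g = v' / b ^ g := by omega
          rw [← Nat.div_add_mod v (b ^ g), ← Nat.div_add_mod v' (b ^ g), h10, hvv]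
    _ = b ^ g := card_range _

/-- the probability that the words at two different places are equal is at most `b ^ (-k)` -/
lemma pair_Leb {b k n g : ℕ} (hb : 2 ≤ b) (hg : 1 ≤ g) :
    ∑ w ∈ range (b ^ k), ∫ x, Xw b k (Iw w) n x * Xw b k (Iw w) (n + g) x ∂Leb ≤
      1 / (b : ℝ) ^ k := by
  have hb1 : 1 ≤ b := by omega
  have hb' : (0 : ℝ) < b := by exact_mod_cast hb1
  have hint : ∀ w ∈ range (b ^ k), Integrable
      (fun x => Xw b k (Iw w) n x * Xw b k (Iw w) (n + g) x) Leb := fun w _ =>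
    integrable_Xw_mul (K := 1) (fun c => abs_Iw_le w c) n (n + g)
  rw [← integral_finsetSum _ hint]
  set F : ℕ → ℝ := fun v => if v / b ^ g = v % b ^ k then 1 else 0 with hF
  have h1 : ∀ x, ∑ w ∈ range (b ^ k), Xw b k (Iw w) n x * Xw b k (Iw w) (n + g) x =
      F (wd b (k + g) n x) := by
    intro x
    set y := Tb b n x with hy
    have hy1 : y ∈ Set.Ico (0 : ℝ) 1 := Tb_mem b n x
    have e1 : wd b k n x = wd b k 0 y := by rw [hy, ← wd_add, Nat.add_zero]
    have e2 : wd b k (n + g) x = wd b k g y := by rw [hy, ← wd_add]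
    have e3 : wd b (k + g) n x = wd b (k + g) 0 y := by rw [hy, ← wd_add, Nat.add_zero]
    set v := ⌊(b : ℝ) ^ (k + g) * y⌋₊ with hv
    have hvlt : v < b ^ (k + g) := by
      rw [hv, Nat.floor_lt (by have := hy1.1; positivity)]
      push_cast
      have := hy1.2
      have h4 : (0 : ℝ) < (b : ℝ) ^ (k + g) := by positivity
      nlinarith
    have e4 : wd b (k + g) 0 y = v := by
      rw [wd_eq_mod hb1 (k + g) 0 hy1.1, zero_add]
      exact Nat.mod_eq_of_lt hvlt
    have e5 : wd b k g y = v % b ^ k := by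
      rw [wd_eq_mod hb1 k g hy1.1, Nat.add_comm g k]
    have e6 : wd b k 0 y = v / b ^ g := by
      rw [wd_eq_mod hb1 k 0 hy1.1, zero_add]
      have e7 : ⌊(b : ℝ) ^ k * y⌋₊ = v / b ^ g := by
        rw [hv, ← Nat.floor_div_natCast]
        congr 1
        push_cast
        rw [pow_add]
        have : (b : ℝ) ^ g ≠ 0 := by positivity
        field_simp
      rw [e7]
      apply Nat.mod_eq_of_lt
      rw [Nat.div_lt_iff_lt_mul (by positivity), ← pow_add]
      exact hvlt
    unfold Xw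
    rw [e1, e2, e3, e4, e5, e6]
    simp only [Iw, hF]
    by_cases h : v / b ^ g = v % b ^ k
    · rw [if_pos h, ← h]
      have h5 : ∀ w ∈ range (b ^ k), (if v / b ^ g = w then (1 : ℝ) else 0) *
          (if v / b ^ g = w then (1 : ℝ) else 0) = if v / b ^ g = w then 1 else 0 := by
        intro w _
        split_ifs <;> simp
      rw [sum_congr rfl h5, sum_ite_eq, if_pos]
      rw [mem_range, h]
      exact Nat.mod_lt _ (by positivity)
    · rw [if_neg h]
      refine sum_eq_zero fun w _ => ?_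
      by_cases h6 : v / b ^ g = w
      · have h7 : ¬ v % b ^ k = w := fun h8 => h (h6.trans h8.symm)
        rw [if_neg h7, mul_zero]
      · rw [if_neg h6, zero_mul]
  simp only [h1]
  rw [int_word hb1 (k + g) n F]
  have h2 : ∑ c ∈ range (b ^ (k + g)), F c =
      (((range (b ^ (k + g))).filter (fun v => v / b ^ g = v % b ^ k)).card : ℝ) := by
    rw [card_filter]
    push_cast
    rfl
  rw [h2, div_le_div_iff₀ (by positivity) (by positivity), one_mul]
  have h3 := card_rep (b := b) (k := k) hb hg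
  have h4 : (((range (b ^ (k + g))).filter (fun v => v / b ^ g = v % b ^ k)).card : ℝ) ≤
      (b : ℝ) ^ g := by exact_mod_cast h3
  calc (((range (b ^ (k + g))).filter (fun v => v / b ^ g = v % b ^ k)).card : ℝ) * (b : ℝ) ^ k ≤
        (b : ℝ) ^ g * (b : ℝ) ^ k := by gcongr
    _ = (b : ℝ) ^ (k + g) := by rw [mul_comm, ← pow_add]

end Pool.Agent.Y933.KF
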